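import Mathlib

set_option autoImplicit false

/-!
# Better-behaved GKZ systems and the pairing of their solutions

The lattice is `N = ℤ ^ r`, `v 1, …, v n` are lattice points, `deg : N → ℤ` is additive.
-/

namespace Pool.Agent.J4.H13.GKZ

open Filter Topology

variable {r n : ℕ}

/-- A lattice point as a real vector. -/
def toR (c : Fin r → ℤ) : Fin r → ℝ := fun k => (c k : ℝ)

/-- The cone generated by finitely many lattice points: all combinations with nonnegative real
coefficients. -/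
def cone {m : ℕ} (v : Fin m → Fin r → ℤ) : Set (Fin r → ℝ) :=
  {y | ∃ a : Fin m → ℝ, (∀ i, 0 ≤ a i) ∧ y = ∑ i, a i • toR (v i)}

/-- The lattice points of the cone `C` generated by the points `v i`. -/
def latC (v : Fin n → Fin r → ℤ) : Set (Fin r → ℤ) := {c | toR c ∈ cone v}

/-- The lattice points of the interior of the cone `C` generated by the points `v i`. -/
def latInt (v : Fin n → Fin r → ℤ) : Set (Fin r → ℤ) := {c | toR c ∈ interior (cone v)}

/-- General position: `y` is in no subspace spanned by fewer than `r` of the points `v i`. -/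
def GeneralPosition (v : Fin n → Fin r → ℤ) (y : Fin r → ℝ) : Prop :=
  ∀ J : Finset (Fin n), J.card < r →
    y ∉ Submodule.span ℝ ((fun i => toR (v i)) '' (J : Set (Fin n)))

/-- Local holomorphic solutions near `x` of the better-behaved GKZ system with the parameter `β`
and the set of indices `X` (the lattice points of `C` or of its interior): functions `Φ c`,
`c ∈ X`, holomorphic in an open neighbourhood `W` of `x` with `∂ i (Φ c) = Φ (c + v i)` and
`μ (c - β) Φ c + ∑ i, μ (v i) x i ∂ i (Φ c) = 0` on `W` for all integral linear forms `μ`. -/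
def IsSolution (v : Fin n → Fin r → ℤ) (X : Set (Fin r → ℤ)) (β : Fin r → ℂ) (x : Fin n → ℂ)
    (Φ : (Fin r → ℤ) → (Fin n → ℂ) → ℂ) : Prop :=
  ∃ W : Set (Fin n → ℂ), IsOpen W ∧ x ∈ W ∧ ∀ c ∈ X, DifferentiableOn ℂ (Φ c) W ∧
    ∀ y ∈ W, (∀ i, fderiv ℂ (Φ c) y (Pi.single i 1) = Φ (c + v i) y) ∧
      ∀ μ : Fin r → ℤ, (∑ k, (μ k : ℂ) * ((c k : ℂ) - β k)) * Φ c y +
        ∑ i, (∑ k, (μ k : ℂ) * (v i k : ℂ)) * y i * fderiv ℂ (Φ c) y (Pi.single i 1) = 0

/-- The family is the zero germ at `x`: all functions `Φ c`, `c ∈ X`, vanish near `x`. -/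
def IsZero (X : Set (Fin r → ℤ)) (x : Fin n → ℂ) (Φ : (Fin r → ℤ) → (Fin n → ℂ) → ℂ) : Prop :=
  ∀ c ∈ X, ∀ᶠ y in 𝓝 x, Φ c y = 0

/-- `Vol I`: the absolute value of the determinant of the points `v i`, `i ∈ I`. The sets
`I ⊆ {1, …, n}` with `r` elements are given as increasing maps `Fin r → Fin n`. -/
def vol (v : Fin n → Fin r → ℤ) (I : Fin r ↪o Fin n) : ℤ :=
  |Matrix.det (Matrix.of fun j k => v (I j) k)|

open Classical in
/-- The coefficient `ξ`: it is `(-1) ^ deg c` if for all small `ε > 0` the points `c + ε v₀` and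
`d - ε v₀` are in the interior of the cone generated by the `v i`, `i ∈ I`, and `0` otherwise. -/
noncomputable def xi (v : Fin n → Fin r → ℤ) (deg : (Fin r → ℤ) →+ ℤ) (v0 : Fin r → ℝ)
    (I : Fin r ↪o Fin n) (c d : Fin r → ℤ) : ℂ :=
  if ∀ᶠ ε in 𝓝[>] (0 : ℝ), toR c + ε • v0 ∈ interior (cone fun j => v (I j)) ∧
      toR d - ε • v0 ∈ interior (cone fun j => v (I j)) then (-1) ^ deg c else 0

/-- The pairing `⟨Φ, Ψ⟩` at the point `y`: the sum over the sets `I` with `r` elements and over the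
pairs `c ∈ C`, `d ∈ C°` of lattice points with `c + d = v_I` of
`ξ Vol_I y_I Φ_c(y) Ψ_d(y)`. -/
noncomputable def pairing (v : Fin n → Fin r → ℤ) (deg : (Fin r → ℤ) →+ ℤ) (v0 : Fin r → ℝ)
    (Φ Ψ : (Fin r → ℤ) → (Fin n → ℂ) → ℂ) (y : Fin n → ℂ) : ℂ :=
  ∑ I : Fin r ↪o Fin n, ∑ᶠ c ∈ {c | c ∈ latC v ∧ (∑ j, v (I j)) - c ∈ latInt v},
    xi v deg v0 I c ((∑ j, v (I j)) - c) * (vol v I : ℂ) * (∏ j, y (I j)) *
      Φ c y * Ψ ((∑ j, v (I j)) - c) y

end Pool.Agent.J4.H13.GKZ
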