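import Mathlib
import Pool.Agent.J4.H13.GKZ.Defs

set_option autoImplicit false

/-!
# Simplices, weights and the regular triangulation of a cone
-/

namespace Pool.Agent.J4.H13.GKZ

open Filter Topology Finset

variable {r n : ℕ}

theorem toR_add (c d : Fin r → ℤ) : toR (c + d) = toR c + toR d := by
  funext k; simp [toR]

theorem toR_sub (c d : Fin r → ℤ) : toR (c - d) = toR c - toR d := by
  funext k; simp [toR]

theorem toR_zero : toR (0 : Fin r → ℤ) = 0 := by
  funext k; simp [toR]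

theorem toR_sum {ι : Type*} (s : Finset ι) (f : ι → Fin r → ℤ) :
    toR (∑ i ∈ s, f i) = ∑ i ∈ s, toR (f i) := by
  classical
  induction s using Finset.induction_on with
  | empty => simp [toR_zero]
  | insert a s ha ih => rw [sum_insert ha, sum_insert ha, toR_add, ih]

theorem toR_smul (m : ℤ) (c : Fin r → ℤ) : toR (m • c) = (m : ℝ) • toR c := by
  funext k; simp [toR]

theorem toR_nsmul (m : ℕ) (c : Fin r → ℤ) : toR (m • c) = (m : ℝ) • toR c := by
  funext k; simp [toR]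

/-- The real matrix of a simplex. -/
def mat (v : Fin n → Fin r → ℤ) (I : Fin r ↪o Fin n) : Matrix (Fin r) (Fin r) ℝ :=
  Matrix.of fun j => toR (v (I j))

/-- The simplex is nondegenerate. -/
def Nd (v : Fin n → Fin r → ℤ) (I : Fin r ↪o Fin n) : Prop := (mat v I).det ≠ 0

/-- The coordinates of a vector with respect to a simplex. -/
noncomputable def co (v : Fin n → Fin r → ℤ) (I : Fin r ↪o Fin n) (y : Fin r → ℝ) : Fin r → ℝ :=
  Matrix.vecMul y (mat v I)⁻¹

theorem co_add (v : Fin n → Fin r → ℤ) (I : Fin r ↪o Fin n) (y z : Fin r → ℝ) :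
    co v I (y + z) = co v I y + co v I z := Matrix.add_vecMul _ _ _

theorem co_sub (v : Fin n → Fin r → ℤ) (I : Fin r ↪o Fin n) (y z : Fin r → ℝ) :
    co v I (y - z) = co v I y - co v I z := Matrix.sub_vecMul _ _ _

theorem co_smul (v : Fin n → Fin r → ℤ) (I : Fin r ↪o Fin n) (t : ℝ) (y : Fin r → ℝ) :
    co v I (t • y) = t • co v I y := Matrix.smul_vecMul _ _ _

theorem co_neg (v : Fin n → Fin r → ℤ) (I : Fin r ↪o Fin n) (y : Fin r → ℝ) :
    co v I (-y) = -co v I y := Matrix.neg_vecMul _ _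

theorem co_zero (v : Fin n → Fin r → ℤ) (I : Fin r ↪o Fin n) : co v I 0 = 0 :=
  Matrix.zero_vecMul _

theorem vecMul_mat (v : Fin n → Fin r → ℤ) (I : Fin r ↪o Fin n) (a : Fin r → ℝ) :
    Matrix.vecMul a (mat v I) = ∑ j, a j • toR (v (I j)) := by
  rw [Matrix.vecMul_eq_sum]
  rfl

theorem sum_co {v : Fin n → Fin r → ℤ} {I : Fin r ↪o Fin n} (h : Nd v I) (y : Fin r → ℝ) :
    ∑ j, co v I y j • toR (v (I j)) = y := by
  rw [← vecMul_mat, co, Matrix.vecMul_vecMul,
    Matrix.nonsing_inv_mul _ (isUnit_iff_ne_zero.2 h), Matrix.vecMul_one]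

theorem co_sum {v : Fin n → Fin r → ℤ} {I : Fin r ↪o Fin n} (h : Nd v I) (a : Fin r → ℝ) :
    co v I (∑ j, a j • toR (v (I j))) = a := by
  rw [← vecMul_mat, co, Matrix.vecMul_vecMul,
    Matrix.mul_nonsing_inv _ (isUnit_iff_ne_zero.2 h), Matrix.vecMul_one]

theorem co_self {v : Fin n → Fin r → ℤ} {I : Fin r ↪o Fin n} (h : Nd v I) (j : Fin r) :
    co v I (toR (v (I j))) = Pi.single j 1 := by
  have h1 := co_sum h (Pi.single j 1)
  rwa [Fintype.sum_eq_single j (fun k hk => by rw [Pi.single_eq_of_ne hk, zero_smul]),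
    Pi.single_eq_same, one_smul] at h1

theorem co_map_sum (v : Fin n → Fin r → ℤ) (I : Fin r ↪o Fin n) {ι : Type*} (s : Finset ι)
    (a : ι → ℝ) (f : ι → Fin r → ℝ) :
    co v I (∑ i ∈ s, a i • f i) = ∑ i ∈ s, a i • co v I (f i) := by
  classical
  induction s using Finset.induction_on with
  | empty => simp [co_zero]
  | insert b s hb ih => rw [sum_insert hb, sum_insert hb, co_add, co_smul, ih]

/-- The degree as a real linear form. -/
def degR (deg : (Fin r → ℤ) →+ ℤ) (y : Fin r → ℝ) : ℝ :=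
  ∑ k, y k * (deg (Pi.single k 1) : ℝ)

theorem degR_toR (deg : (Fin r → ℤ) →+ ℤ) (c : Fin r → ℤ) : degR deg (toR c) = (deg c : ℝ) := by
  have h : c = ∑ k, c k • (Pi.single k (1 : ℤ) : Fin r → ℤ) := by
    funext j
    simp [Finset.sum_apply, Pi.single_apply]
  conv_rhs => rw [h]
  rw [map_sum]
  simp only [degR, toR, Int.cast_sum]
  refine sum_congr rfl fun k _ => ?_
  rw [map_zsmul, smul_eq_mul, Int.cast_mul]

theorem degR_add (deg : (Fin r → ℤ) →+ ℤ) (y z : Fin r → ℝ) :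
    degR deg (y + z) = degR deg y + degR deg z := by
  simp [degR, add_mul, sum_add_distrib]

theorem degR_smul (deg : (Fin r → ℤ) →+ ℤ) (t : ℝ) (y : Fin r → ℝ) :
    degR deg (t • y) = t * degR deg y := by
  simp [degR, mul_sum, mul_assoc]

theorem degR_zero (deg : (Fin r → ℤ) →+ ℤ) : degR deg 0 = 0 := by simp [degR]

theorem degR_sum (deg : (Fin r → ℤ) →+ ℤ) {ι : Type*} (s : Finset ι) (a : ι → ℝ)
    (f : ι → Fin r → ℝ) : degR deg (∑ i ∈ s, a i • f i) = ∑ i ∈ s, a i * degR deg (f i) := by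
  classical
  induction s using Finset.induction_on with
  | empty => simp [degR_zero]
  | insert b s hb ih => rw [sum_insert hb, sum_insert hb, degR_add, degR_smul, ih]

theorem sum_co_deg {v : Fin n → Fin r → ℤ} {deg : (Fin r → ℤ) →+ ℤ} (hdeg : ∀ i, deg (v i) = 1)
    {I : Fin r ↪o Fin n} (h : Nd v I) (y : Fin r → ℝ) : ∑ j, co v I y j = degR deg y := by
  conv_rhs => rw [← sum_co h y]
  rw [degR_sum]
  refine sum_congr rfl fun j _ => ?_
  rw [degR_toR, hdeg]
  simp

/-- The value at `y` of the linear form with the values `w` at the vertices of the simplex. -/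
noncomputable def om (v : Fin n → Fin r → ℤ) (w : Fin n → ℝ) (I : Fin r ↪o Fin n)
    (y : Fin r → ℝ) : ℝ := ∑ j, co v I y j * w (I j)

theorem om_add (v : Fin n → Fin r → ℤ) (w : Fin n → ℝ) (I : Fin r ↪o Fin n) (y z : Fin r → ℝ) :
    om v w I (y + z) = om v w I y + om v w I z := by
  simp [om, co_add, add_mul, sum_add_distrib]

theorem om_sub (v : Fin n → Fin r → ℤ) (w : Fin n → ℝ) (I : Fin r ↪o Fin n) (y z : Fin r → ℝ) :
    om v w I (y - z) = om v w I y - om v w I z := by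
  simp [om, co_sub, sub_mul, sum_sub_distrib]

theorem om_smul (v : Fin n → Fin r → ℤ) (w : Fin n → ℝ) (I : Fin r ↪o Fin n) (t : ℝ)
    (y : Fin r → ℝ) : om v w I (t • y) = t * om v w I y := by
  simp [om, co_smul, mul_sum, mul_assoc]

theorem om_zero (v : Fin n → Fin r → ℤ) (w : Fin n → ℝ) (I : Fin r ↪o Fin n) :
    om v w I 0 = 0 := by
  simp [om, co_zero]

theorem om_map_sum (v : Fin n → Fin r → ℤ) (w : Fin n → ℝ) (I : Fin r ↪o Fin n) {ι : Type*}
    (s : Finset ι) (a : ι → ℝ) (f : ι → Fin r → ℝ) :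
    om v w I (∑ i ∈ s, a i • f i) = ∑ i ∈ s, a i * om v w I (f i) := by
  classical
  induction s using Finset.induction_on with
  | empty => simp [om_zero]
  | insert b s hb ih => rw [sum_insert hb, sum_insert hb, om_add, om_smul, ih]

theorem om_self {v : Fin n → Fin r → ℤ} (w : Fin n → ℝ) {I : Fin r ↪o Fin n} (h : Nd v I)
    (j : Fin r) : om v w I (toR (v (I j))) = w (I j) := by
  rw [om, co_self h, Fintype.sum_eq_single j (fun k hk => by rw [Pi.single_eq_of_ne hk, zero_mul]),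
    Pi.single_eq_same, one_mul]

/-- The maximal simplices of the regular triangulation with the weights `w`. -/
def Tri (v : Fin n → Fin r → ℤ) (w : Fin n → ℝ) (I : Fin r ↪o Fin n) : Prop :=
  Nd v I ∧ ∀ i, i ∉ Set.range I → om v w I (toR (v i)) < w i

/-- Generic weights. -/
def Gw (v : Fin n → Fin r → ℤ) (w : Fin n → ℝ) : Prop :=
  ∀ I : Fin r ↪o Fin n, Nd v I → ∀ i, i ∉ Set.range I → om v w I (toR (v i)) ≠ w i

theorem exists_gw (v : Fin n → Fin r → ℤ) : ∃ w : Fin n → ℝ, Gw v w := by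
  classical
  let f : {p : (Fin r ↪o Fin n) × Fin n // p.2 ∉ Set.range p.1} → Module.Dual ℝ (Fin n → ℝ) :=
    fun p => ∑ j, co v p.1.1 (toR (v p.1.2)) j • LinearMap.proj (p.1.1 j) -
      LinearMap.proj p.1.2
  have hf : ∀ p w, f p w = om v w p.1.1 (toR (v p.1.2)) - w p.1.2 := by
    intro p w
    simp [f, om, LinearMap.sum_apply]
  obtain ⟨w, hw⟩ := Module.Dual.exists_forall_ne_zero_of_forall_exists f (fun p => by
    refine ⟨Pi.single p.1.2 1, ?_⟩
    rw [hf]
    have h0 : om v (Pi.single p.1.2 1) p.1.1 (toR (v p.1.2)) = 0 := by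
      refine sum_eq_zero fun j _ => ?_
      rw [Pi.single_eq_of_ne (fun h => p.2 ⟨j, h⟩), mul_zero]
    rw [h0, Pi.single_eq_same]
    norm_num)
  refine ⟨w, fun I _ i hi h => hw ⟨(I, i), hi⟩ ?_⟩
  rw [hf]
  simp [h]

/-- The main inequality of the triangulation. -/
theorem om_le {v : Fin n → Fin r → ℤ} {w : Fin n → ℝ} {I : Fin r ↪o Fin n} (hI : Tri v w I)
    {a : Fin n → ℝ} (ha : ∀ i, 0 ≤ a i) :
    om v w I (∑ i, a i • toR (v i)) ≤ ∑ i, a i * w i := by
  rw [om_map_sum]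
  refine sum_le_sum fun i _ => mul_le_mul_of_nonneg_left ?_ (ha i)
  by_cases hi : i ∈ Set.range I
  · obtain ⟨j, rfl⟩ := hi
    exact (om_self w hI.1 j).le
  · exact (hI.2 i hi).le

theorem om_eq {v : Fin n → Fin r → ℤ} {w : Fin n → ℝ} {I : Fin r ↪o Fin n} (hI : Tri v w I)
    {a : Fin n → ℝ} (ha : ∀ i, 0 ≤ a i)
    (h : ∑ i, a i * w i ≤ om v w I (∑ i, a i • toR (v i))) :
    ∀ i, i ∉ Set.range I → a i = 0 := by
  intro i hi
  by_contra hne
  have hpos : 0 < a i := lt_of_le_of_ne (ha i) (Ne.symm hne)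
  have : om v w I (∑ i, a i • toR (v i)) < ∑ i, a i * w i := by
    rw [om_map_sum]
    refine sum_lt_sum (fun k _ => mul_le_mul_of_nonneg_left ?_ (ha k))
      ⟨i, mem_univ _, mul_lt_mul_of_pos_left (hI.2 i hi) hpos⟩
    by_cases hk : k ∈ Set.range I
    · obtain ⟨j, rfl⟩ := hk
      exact (om_self w hI.1 j).le
    · exact (hI.2 k hk).le
  exact absurd h (not_le.2 this)

end Pool.Agent.J4.H13.GKZ
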