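import Mathlib
import Pool.Agent.J4.H13.GKZ.Cone

set_option autoImplicit false

/-!
# Every point in general position of the cone lies in a simplex of the triangulation
-/

namespace Pool.Agent.J4.H13.GKZ

open Filter Topology Finset

variable {r n : ℕ}

/-- One step of the reduction of the support. -/
theorem reduce {v : Fin n → Fin r → ℤ} {deg : (Fin r → ℤ) →+ ℤ} (hdeg : ∀ i, deg (v i) = 1)
    (w : Fin n → ℝ) {a z : Fin n → ℝ} (ha : ∀ i, 0 ≤ a i) (hz : z ≠ 0)
    (hz0 : ∑ i, z i • toR (v i) = 0) (hs : ∀ i, a i = 0 → z i = 0) :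
    ∃ b : Fin n → ℝ, (∀ i, 0 ≤ b i) ∧ ∑ i, b i • toR (v i) = ∑ i, a i • toR (v i) ∧
      ∑ i, b i * w i ≤ ∑ i, a i * w i ∧
      (univ.filter fun i => b i ≠ 0).card < (univ.filter fun i => a i ≠ 0).card := by
  classical
  wlog hw : 0 ≤ ∑ i, z i * w i generalizing z with H
  · exact H (z := -z) (neg_ne_zero.2 hz) (by simp [hz0, neg_smul, sum_neg_distrib])
      (fun i hi => by simp [hs i hi]) (by
        simp only [Pi.neg_apply, neg_mul, sum_neg_distrib]
        linarith)
  have hsum : ∑ i, z i = 0 := by
    have h1 := congrArg (degR deg) hz0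
    rw [degR_sum, degR_zero] at h1
    simpa [degR_toR, hdeg] using h1
  obtain ⟨i0, hi0⟩ : ∃ i, 0 < z i := by
    by_contra hcon
    push Not at hcon
    apply hz
    funext i
    exact (sum_eq_zero_iff_of_nonpos (fun i _ => hcon i)).1 hsum i (mem_univ i)
  let P := univ.filter fun i => 0 < z i
  obtain ⟨i1, hi1, hmin⟩ := P.exists_min_image (fun i => a i / z i)
    ⟨i0, mem_filter.2 ⟨mem_univ _, hi0⟩⟩
  have hz1 : 0 < z i1 := (mem_filter.1 hi1).2
  set t := a i1 / z i1 with ht
  have ht0 : 0 ≤ t := div_nonneg (ha _) hz1.le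
  refine ⟨fun i => a i - t * z i, fun i => ?_, ?_, ?_, ?_⟩
  · rcases lt_or_ge 0 (z i) with h | h
    · have h1 := hmin i (mem_filter.2 ⟨mem_univ _, h⟩)
      have h2 : t * z i ≤ a i / z i * z i := mul_le_mul_of_nonneg_right h1 h.le
      rw [div_mul_cancel₀ _ h.ne'] at h2
      linarith
    · have : t * z i ≤ 0 := mul_nonpos_of_nonneg_of_nonpos ht0 h
      have := ha i
      linarith
  · have h1 : ∑ i, (a i - t * z i) • toR (v i) =
        ∑ i, a i • toR (v i) - t • ∑ i, z i • toR (v i) := by
      rw [smul_sum, ← sum_sub_distrib]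
      refine sum_congr rfl fun i _ => ?_
      rw [sub_smul, mul_smul]
    rw [h1, hz0, smul_zero, sub_zero]
  · have h1 : ∑ i, (a i - t * z i) * w i = ∑ i, a i * w i - t * ∑ i, z i * w i := by
      rw [mul_sum, ← sum_sub_distrib]
      refine sum_congr rfl fun i _ => ?_
      ring
    rw [h1]
    have := mul_nonneg ht0 hw
    linarith
  · refine card_lt_card ⟨fun i hi => ?_, fun hsub => ?_⟩
    · have h1 := (mem_filter.1 hi).2
      refine mem_filter.2 ⟨mem_univ _, fun h0 => h1 ?_⟩
      show a i - t * z i = 0
      rw [h0, hs i h0]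
      simp
    · have ha1 : a i1 ≠ 0 := fun h => hz1.ne' (hs i1 h)
      have h1 := (mem_filter.1 (hsub (mem_filter.2 ⟨mem_univ i1, ha1⟩))).2
      apply h1
      show a i1 - t * z i1 = 0
      rw [ht, div_mul_cancel₀ _ hz1.ne', sub_self]

/-- Vectors in general position: every representation can be replaced by a simplex. -/
theorem exists_simplex {v : Fin n → Fin r → ℤ} {deg : (Fin r → ℤ) →+ ℤ}
    (hdeg : ∀ i, deg (v i) = 1) (w : Fin n → ℝ) {y : Fin r → ℝ} (hy : GeneralPosition v y)
    {a : Fin n → ℝ} (ha : ∀ i, 0 ≤ a i) (hay : ∑ i, a i • toR (v i) = y) :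
    ∃ I : Fin r ↪o Fin n, Nd v I ∧ (∀ j, 0 < co v I y j) ∧ om v w I y ≤ ∑ i, a i * w i := by
  classical
  induction hN : (univ.filter fun i => a i ≠ 0).card using Nat.strong_induction_on
    generalizing a with
  | _ N ih =>
    by_cases hdep : ∃ z : Fin n → ℝ, z ≠ 0 ∧ ∑ i, z i • toR (v i) = 0 ∧ ∀ i, a i = 0 → z i = 0
    · obtain ⟨z, hz, hz0, hs⟩ := hdep
      obtain ⟨b, hb, hby, hbw, hbc⟩ := reduce hdeg w ha hz hz0 hs
      obtain ⟨I, h1, h2, h3⟩ := ih _ (hN ▸ hbc) hb (hby.trans hay) rfl
      exact ⟨I, h1, h2, h3.trans hbw⟩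
    · push Not at hdep
      set S := univ.filter fun i => a i ≠ 0 with hS
      have hli : LinearIndependent ℝ (fun i : S => toR (v i)) := by
        rw [Fintype.linearIndependent_iff]
        intro g hg i
        by_contra hne
        let z : Fin n → ℝ := fun i => if h : i ∈ S then g ⟨i, h⟩ else 0
        have hz : z ≠ 0 := by
          intro h0
          have := congrFun h0 i
          simp only [z, i.2, dif_pos] at this
          exact hne this
        obtain ⟨k, hk1, hk2⟩ := hdep z hz (by
          rw [← hg]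
          have h1 : ∑ i, z i • toR (v i) = ∑ i ∈ S, z i • toR (v i) := by
            refine (sum_subset (subset_univ S) fun i _ hi => ?_).symm
            simp only [z, hi, dif_neg, not_false_iff, zero_smul]
          rw [h1, ← sum_coe_sort S]
          refine sum_congr rfl fun i _ => ?_
          simp only [z, i.2, dif_pos])
        apply hk2
        have : k ∉ S := by
          rw [hS]
          simp [hk1]
        simp only [z, this, dif_neg, not_false_iff]
      have hay' : ∑ i ∈ S, a i • toR (v i) = y := by
        rw [← hay]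
        refine sum_subset (subset_univ S) fun i _ hi => ?_
        have : a i = 0 := by
          by_contra h
          exact hi (mem_filter.2 ⟨mem_univ _, h⟩)
        rw [this, zero_smul]
      have hcard : S.card = r := by
        apply le_antisymm
        · have := hli.fintype_card_le_finrank
          simpa using this
        · by_contra hlt
          push Not at hlt
          refine hy S hlt ?_
          rw [← hay']
          refine Submodule.sum_mem _ fun i hi => Submodule.smul_mem _ _ ?_
          exact Submodule.subset_span ⟨i, hi, rfl⟩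
      let I : Fin r ↪o Fin n := S.orderEmbOfFin hcard
      have hIS : ∀ j, I j ∈ S := fun j => S.orderEmbOfFin_mem hcard j
      have hbij : ∀ i ∈ S, ∃ j, I j = i := by
        intro i hi
        have : i ∈ Set.range I := by
          rw [show (Set.range I) = (S : Set (Fin n)) from S.range_orderEmbOfFin hcard]
          exact hi
        exact this
      have hnd : Nd v I := by
        have hli2 : LinearIndependent ℝ (fun j : Fin r => toR (v (I j))) := by
          have := hli.comp (fun j : Fin r => (⟨I j, hIS j⟩ : S)) (fun j k hjk => by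
            have := congrArg Subtype.val hjk
            exact I.injective this)
          exact this
        have h3 := (Matrix.linearIndependent_rows_iff_isUnit (A := mat v I)).1 hli2
        exact ((Matrix.isUnit_iff_isUnit_det _).1 h3).ne_zero
      have hrep : ∑ j, a (I j) • toR (v (I j)) = y := by
        rw [← hay']
        refine sum_bij (fun j _ => I j) (fun j _ => hIS j) (fun j _ k _ h => I.injective h)
          (fun i hi => ?_) (fun j _ => rfl)
        obtain ⟨j, hj⟩ := hbij i hi
        exact ⟨j, mem_univ _, hj⟩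
      have hco : co v I y = fun j => a (I j) := by
        rw [← hrep, co_sum hnd (fun j => a (I j))]
      refine ⟨I, hnd, fun j => ?_, ?_⟩
      · rw [hco]
        exact lt_of_le_of_ne (ha _) (Ne.symm (mem_filter.1 (hIS j)).2)
      · rw [om, hco]
        apply le_of_eq
        have h1 : ∑ i, a i * w i = ∑ i ∈ S, a i * w i := by
          refine (sum_subset (subset_univ S) fun i _ hi => ?_).symm
          have : a i = 0 := by
            by_contra h
            exact hi (mem_filter.2 ⟨mem_univ _, h⟩)
          rw [this, zero_mul]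
        rw [h1]
        refine sum_bij (fun j _ => I j) (fun j _ => hIS j) (fun j _ k _ h => I.injective h)
          (fun i hi => ?_) (fun j _ => rfl)
        obtain ⟨j, hj⟩ := hbij i hi
        exact ⟨j, mem_univ _, hj⟩

/-- Every point in general position of the cone lies in a simplex of the triangulation. -/
theorem exists_tri {v : Fin n → Fin r → ℤ} {deg : (Fin r → ℤ) →+ ℤ}
    (hdeg : ∀ i, deg (v i) = 1) {w : Fin n → ℝ} (hw : Gw v w) {y : Fin r → ℝ}
    (hy : GeneralPosition v y) (hyc : y ∈ cone v) :
    ∃ I : Fin r ↪o Fin n, Tri v w I ∧ ∀ j, 0 < co v I y j := by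
  classical
  obtain ⟨a, ha, hay⟩ := hyc
  obtain ⟨I0, h01, h02, -⟩ := exists_simplex hdeg w hy ha hay.symm
  let F := univ.filter fun I : Fin r ↪o Fin n => Nd v I ∧ ∀ j, 0 < co v I y j
  obtain ⟨I, hI, hmin⟩ := F.exists_min_image (fun I => om v w I y)
    ⟨I0, mem_filter.2 ⟨mem_univ _, h01, h02⟩⟩
  obtain ⟨-, hnd, hpos⟩ := mem_filter.1 hI
  refine ⟨I, ⟨hnd, fun i hi => ?_⟩, hpos⟩
  by_contra hcon
  push Not at hcon
  have hlt : w i < om v w I (toR (v i)) := lt_of_le_of_ne hcon (Ne.symm (hw I hnd i hi))
  -- a small step in the direction of `v i`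
  obtain ⟨s, hs, hs2⟩ : ∃ s : ℝ, 0 < s ∧ ∀ j, 0 ≤ co v I y j - s * co v I (toR (v i)) j := by
    have h1 : ∀ j, ∀ᶠ s in 𝓝[>] (0 : ℝ), 0 ≤ co v I y j - s * co v I (toR (v i)) j := by
      intro j
      have h2 : Tendsto (fun s : ℝ => co v I y j - s * co v I (toR (v i)) j) (𝓝[>] 0)
          (𝓝 (co v I y j - 0 * co v I (toR (v i)) j)) :=
        (Continuous.tendsto (by fun_prop) 0).mono_left nhdsWithin_le_nhds
      rw [zero_mul, sub_zero] at h2
      exact (h2.eventually (lt_mem_nhds (hpos j))).mono fun s hs => le_of_lt hs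
    have h3 := (eventually_all.2 h1).and (eventually_mem_nhdsWithin (a := (0 : ℝ)) (s := Set.Ioi 0))
    obtain ⟨s, hs⟩ := h3.exists
    exact ⟨s, hs.2, hs.1⟩
  let b : Fin n → ℝ := fun k => (if k = i then s else 0) +
    ∑ j, if I j = k then co v I y j - s * co v I (toR (v i)) j else 0
  have hb : ∀ k, 0 ≤ b k := by
    intro k
    refine add_nonneg (by split_ifs <;> [exact hs.le; exact le_rfl]) (sum_nonneg fun j _ => ?_)
    split_ifs
    · exact hs2 j
    · exact le_rfl
  have hlin : ∀ {M : Type} [AddCommGroup M] [Module ℝ M] (f : Fin n → M), ∑ k, b k • f k =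
      s • f i + ∑ j, (co v I y j - s * co v I (toR (v i)) j) • f (I j) := by
    intro M _ _ f
    simp only [b, add_smul, sum_add_distrib, sum_smul, ite_smul, zero_smul]
    congr 1
    · rw [sum_ite_eq' univ i (fun k => s • f k)]
      simp
    · rw [sum_comm]
      refine sum_congr rfl fun j _ => ?_
      rw [sum_ite_eq univ (I j) (fun k => (co v I y j - s * co v I (toR (v i)) j) • f k)]
      simp
  have hby : ∑ k, b k • toR (v k) = y := by
    rw [hlin]
    simp only [sub_smul, sum_sub_distrib, mul_smul, ← smul_sum]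
    rw [sum_co hnd, sum_co hnd]
    abel
  have hbw : ∑ k, b k * w k < om v w I y := by
    have h1 := hlin w
    simp only [smul_eq_mul] at h1
    rw [h1]
    have h2 : ∑ j, (co v I y j - s * co v I (toR (v i)) j) * w (I j) =
        om v w I y - s * om v w I (toR (v i)) := by
      simp only [om, sub_mul, sum_sub_distrib, mul_sum, mul_assoc]
    rw [h2]
    nlinarith
  obtain ⟨J, hJ1, hJ2, hJ3⟩ := exists_simplex hdeg w hy hb hby
  have := hmin J (mem_filter.2 ⟨mem_univ _, hJ1, hJ2⟩)
  linarith

end Pool.Agent.J4.H13.GKZ
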