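import Mathlib
import Pool.Agent.J4.H13.GKZ.Car

set_option autoImplicit false

/-!
# Half-open simplices
-/

namespace Pool.Agent.J4.H13.GKZ

open Filter Topology Finset

variable {r n : ℕ}

/-- `a + ε b` is positive for all small positive `ε`. -/
def pos (a b : ℝ) : Prop := 0 < a ∨ (a = 0 ∧ 0 < b)

theorem pos.eventually {a b : ℝ} (h : pos a b) : ∀ᶠ ε in 𝓝[>] (0 : ℝ), 0 < a + ε * b := by
  rcases h with h | ⟨rfl, h⟩
  · have h2 : Tendsto (fun ε : ℝ => a + ε * b) (𝓝[>] 0) (𝓝 (a + 0 * b)) :=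
      (Continuous.tendsto (by fun_prop) 0).mono_left nhdsWithin_le_nhds
    rw [zero_mul, add_zero] at h2
    exact h2.eventually (lt_mem_nhds h)
  · filter_upwards [self_mem_nhdsWithin] with ε hε
    rw [zero_add]
    exact mul_pos hε h

theorem not_pos_eventually {a b : ℝ} (h : ¬ pos a b) :
    ∀ᶠ ε in 𝓝[>] (0 : ℝ), a + ε * b ≤ 0 := by
  unfold pos at h
  push Not at h
  rcases lt_or_eq_of_le h.1 with h1 | h1
  · have h2 : Tendsto (fun ε : ℝ => a + ε * b) (𝓝[>] 0) (𝓝 (a + 0 * b)) :=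
      (Continuous.tendsto (by fun_prop) 0).mono_left nhdsWithin_le_nhds
    rw [zero_mul, add_zero] at h2
    exact (h2.eventually (gt_mem_nhds h1)).mono fun ε h => le_of_lt h
  · filter_upwards [self_mem_nhdsWithin] with ε hε
    rw [h1, zero_add]
    exact mul_nonpos_of_nonneg_of_nonpos (le_of_lt hε) (h.2 h1)

theorem pos_of_frequently {a b : ℝ} (h : ∀ᶠ ε in 𝓝[>] (0 : ℝ), 0 < a + ε * b) : pos a b := by
  by_contra hcon
  obtain ⟨ε, h1, h2⟩ := (h.and (not_pos_eventually hcon)).exists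
  linarith

theorem pos.nonneg {a b : ℝ} (h : pos a b) : 0 ≤ a := by
  rcases h with h | ⟨h, -⟩
  · exact h.le
  · exact h.ge

theorem pos.add {a b c : ℝ} (h : pos a b) (hc : 0 ≤ c) : pos (a + c) b := by
  rcases h with h | ⟨h, h'⟩
  · exact Or.inl (by linarith)
  · rcases lt_or_eq_of_le hc with h1 | h1
    · exact Or.inl (by linarith)
    · exact Or.inr ⟨by linarith, h'⟩

theorem pos_neg {a b : ℝ} (hb : b ≠ 0) : pos (-a) (-b) ↔ ¬ pos a b := by
  unfold pos
  constructor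
  · rintro (h | ⟨h, h'⟩) (h2 | ⟨h2, h2'⟩) <;> linarith
  · intro h
    push Not at h
    rcases lt_or_eq_of_le h.1 with h1 | h1
    · left; linarith
    · right
      exact ⟨by linarith, by have := lt_of_le_of_ne (h.2 h1) hb; linarith⟩

/-- The half-open simplex. -/
def Ho (v : Fin n → Fin r → ℤ) (I : Fin r ↪o Fin n) (u : Fin r → ℝ) (c : Fin r → ℤ) : Prop :=
  ∀ j, pos (co v I (toR c) j) (co v I u j)

theorem Ho.eventually {v : Fin n → Fin r → ℤ} {I : Fin r ↪o Fin n} {u : Fin r → ℝ}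
    {c : Fin r → ℤ} (h : Ho v I u c) :
    ∀ᶠ ε in 𝓝[>] (0 : ℝ), ∀ j, 0 < co v I (toR c + ε • u) j := by
  rw [eventually_all]
  intro j
  filter_upwards [(h j).eventually] with ε hε
  rw [co_add, co_smul]
  exact hε

theorem Ho_iff {v : Fin n → Fin r → ℤ} {I : Fin r ↪o Fin n} {u : Fin r → ℝ}
    {c : Fin r → ℤ} : Ho v I u c ↔ ∀ᶠ ε in 𝓝[>] (0 : ℝ), ∀ j, 0 < co v I (toR c + ε • u) j := by
  refine ⟨Ho.eventually, fun h j => pos_of_frequently ?_⟩
  filter_upwards [h] with ε hε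
  have := hε j
  rw [co_add, co_smul] at this
  exact this

/-- The lattice points `c` with `c + ε u` in the cone for small `ε > 0`. -/
def Xs (v : Fin n → Fin r → ℤ) (u : Fin r → ℝ) : Set (Fin r → ℤ) :=
  {c | ∀ᶠ ε in 𝓝[>] (0 : ℝ), toR c + ε • u ∈ cone v}

theorem cone_add {m : ℕ} {v : Fin m → Fin r → ℤ} {y z : Fin r → ℝ} (hy : y ∈ cone v)
    (hz : z ∈ cone v) : y + z ∈ cone v := by
  obtain ⟨a, ha, rfl⟩ := hy
  obtain ⟨b, hb, rfl⟩ := hz
  exact ⟨fun i => a i + b i, fun i => add_nonneg (ha i) (hb i), by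
    simp [add_smul, sum_add_distrib]⟩

theorem cone_smul {m : ℕ} {v : Fin m → Fin r → ℤ} {y : Fin r → ℝ} (hy : y ∈ cone v) {t : ℝ}
    (ht : 0 ≤ t) : t • y ∈ cone v := by
  obtain ⟨a, ha, rfl⟩ := hy
  exact ⟨fun i => t * a i, fun i => mul_nonneg ht (ha i), by
    rw [smul_sum]
    exact sum_congr rfl fun i _ => (mul_smul _ _ _).symm⟩

theorem mem_cone_v (v : Fin n → Fin r → ℤ) (i : Fin n) : toR (v i) ∈ cone v := by
  refine ⟨Pi.single i 1, fun k => ?_, ?_⟩
  · by_cases h : k = i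
    · subst h; simp
    · rw [Pi.single_eq_of_ne h]
  · rw [Fintype.sum_eq_single i (fun k hk => by rw [Pi.single_eq_of_ne hk, zero_smul]),
      Pi.single_eq_same, one_smul]

theorem Xs_add {v : Fin n → Fin r → ℤ} {u : Fin r → ℝ} {c : Fin r → ℤ} (h : c ∈ Xs v u)
    (i : Fin n) : c + v i ∈ Xs v u := by
  have h' : ∀ᶠ ε in 𝓝[>] (0 : ℝ), toR c + ε • u ∈ cone v := h
  show ∀ᶠ ε in 𝓝[>] (0 : ℝ), toR (c + v i) + ε • u ∈ cone v
  filter_upwards [h'] with ε hε
  rw [toR_add, add_right_comm]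
  exact cone_add hε (mem_cone_v v i)

/-- The coefficients spread out over the indices. -/
noncomputable def sp (I : Fin r ↪o Fin n) (g : Fin r → ℝ) : Fin n → ℝ :=
  fun i => ∑ j, if I j = i then g j else 0

theorem sp_sum (I : Fin r ↪o Fin n) (g : Fin r → ℝ) {M : Type*} [AddCommGroup M] [Module ℝ M]
    (f : Fin n → M) : ∑ i, sp I g i • f i = ∑ j, g j • f (I j) := by
  classical
  simp only [sp, sum_smul, ite_smul, zero_smul]
  rw [sum_comm]
  refine sum_congr rfl fun j _ => ?_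
  rw [sum_ite_eq univ (I j) (fun k => g j • f k)]
  simp

theorem sp_nonneg (I : Fin r ↪o Fin n) {g : Fin r → ℝ} (hg : ∀ j, 0 ≤ g j) (i : Fin n) :
    0 ≤ sp I g i := by
  refine sum_nonneg fun j _ => ?_
  split_ifs
  · exact hg j
  · exact le_rfl

theorem sp_apply (I : Fin r ↪o Fin n) (g : Fin r → ℝ) (j : Fin r) : sp I g (I j) = g j := by
  unfold sp
  rw [Fintype.sum_eq_single j (fun k hk => if_neg fun h => hk (I.injective h)), if_pos rfl]

theorem om_sum_le {v : Fin n → Fin r → ℤ} {w : Fin n → ℝ} {J : Fin r ↪o Fin n}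
    (hJ : Tri v w J) (I : Fin r ↪o Fin n) {g : Fin r → ℝ} (hg : ∀ j, 0 ≤ g j) :
    om v w J (∑ j, g j • toR (v (I j))) ≤ ∑ j, g j * w (I j) := by
  have h := om_le hJ (sp_nonneg I hg)
  rw [sp_sum I g (fun i => toR (v i))] at h
  have h2 := sp_sum I g w
  simp only [smul_eq_mul] at h2
  rwa [h2] at h

theorem om_sum_eq {v : Fin n → Fin r → ℤ} {w : Fin n → ℝ} {J : Fin r ↪o Fin n}
    (hJ : Tri v w J) (I : Fin r ↪o Fin n) {g : Fin r → ℝ} (hg : ∀ j, 0 ≤ g j)
    (h : ∑ j, g j * w (I j) ≤ om v w J (∑ j, g j • toR (v (I j)))) (j : Fin r) (hj : 0 < g j) :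
    I j ∈ Set.range J := by
  have h2 := sp_sum I g w
  simp only [smul_eq_mul] at h2
  rw [← h2, ← sp_sum I g (fun i => toR (v i))] at h
  by_contra hcon
  have := om_eq hJ (sp_nonneg I hg) h (I j) hcon
  rw [sp_apply] at this
  exact hj.ne' this

theorem om_simplex_le {v : Fin n → Fin r → ℤ} {w : Fin n → ℝ} {J : Fin r ↪o Fin n}
    (hJ : Tri v w J) {I : Fin r ↪o Fin n} (hI : Nd v I) {y : Fin r → ℝ}
    (hy : ∀ j, 0 ≤ co v I y j) : om v w J y ≤ om v w I y := by
  have h := om_sum_le hJ I hy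
  rwa [sum_co hI] at h

theorem range_eq {I J : Fin r ↪o Fin n} (h : ∀ j, I j ∈ Set.range J) : I = J := by
  classical
  rw [← OrderEmbedding.range_inj]
  have h1 : univ.image I ⊆ univ.image J := by
    intro i hi
    obtain ⟨j, -, rfl⟩ := mem_image.1 hi
    obtain ⟨k, hk⟩ := h j
    exact mem_image.2 ⟨k, mem_univ _, hk⟩
  have h2 : univ.image I = univ.image J := by
    apply eq_of_subset_of_card_le h1
    rw [card_image_of_injective _ I.injective, card_image_of_injective _ J.injective]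
  have := congrArg (fun s : Finset (Fin n) => (s : Set (Fin n))) h2
  simpa using this

theorem om_simplex_eq {v : Fin n → Fin r → ℤ} {w : Fin n → ℝ} {J : Fin r ↪o Fin n}
    (hJ : Tri v w J) {I : Fin r ↪o Fin n} (hI : Nd v I) {y : Fin r → ℝ}
    (hy : ∀ j, 0 < co v I y j) (h : om v w I y ≤ om v w J y) : I = J := by
  refine range_eq fun j => om_sum_eq hJ I (fun j => (hy j).le) ?_ j (hy j)
  rw [sum_co hI]
  exact h

/-- General position is preserved near a lattice point. -/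
theorem gp_eventually {v : Fin n → Fin r → ℤ} {u : Fin r → ℝ} (hu : GeneralPosition v u)
    (c : Fin r → ℤ) : ∀ᶠ ε in 𝓝[>] (0 : ℝ), GeneralPosition v (toR c + ε • u) := by
  unfold GeneralPosition
  rw [eventually_all]
  intro J
  by_cases hJ : J.card < r
  · simp only [hJ, forall_true_left]
    by_cases hex : ∃ ε0 : ℝ, 0 < ε0 ∧ toR c + ε0 • u ∈
        Submodule.span ℝ ((fun i => toR (v i)) '' (J : Set (Fin n)))
    · obtain ⟨ε0, h0, h1⟩ := hex
      filter_upwards [Ioo_mem_nhdsGT h0] with ε hε hmem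
      apply hu J hJ
      have h2 := Submodule.sub_mem _ h1 hmem
      have h3 : toR c + ε0 • u - (toR c + ε • u) = (ε0 - ε) • u := by
        rw [sub_smul]; abel
      rw [h3] at h2
      have h4 : ε0 - ε ≠ 0 := by
        have := hε.2
        intro h
        linarith
      exact (Submodule.smul_mem_iff _ h4).1 h2
    · push Not at hex
      filter_upwards [self_mem_nhdsWithin] with ε hε
      exact hex ε hε
  · exact Eventually.of_forall fun ε h => absurd h hJ

theorem gp_neg {v : Fin n → Fin r → ℤ} {u : Fin r → ℝ} (hu : GeneralPosition v u) :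
    GeneralPosition v (-u) := fun J hJ h => hu J hJ (by
  have := Submodule.neg_mem _ h
  rwa [neg_neg] at this)

theorem co_ne_zero {v : Fin n → Fin r → ℤ} {u : Fin r → ℝ} (hu : GeneralPosition v u)
    {I : Fin r ↪o Fin n} (hI : Nd v I) (j : Fin r) : co v I u j ≠ 0 := by
  classical
  intro h0
  refine hu ((univ.erase j).image I) ?_ ?_
  · rw [card_image_of_injective _ I.injective, card_erase_of_mem (mem_univ _), card_univ,
      Fintype.card_fin]
    have := j.2
    omega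
  · rw [← sum_co hI u]
    refine Submodule.sum_mem _ fun k _ => ?_
    by_cases hk : k = j
    · subst hk
      rw [h0, zero_smul]
      exact Submodule.zero_mem _
    · refine Submodule.smul_mem _ _ (Submodule.subset_span ⟨I k, ?_, rfl⟩)
      rw [mem_coe]
      exact mem_image.2 ⟨k, mem_erase.2 ⟨hk, mem_univ _⟩, rfl⟩

theorem exists_ho {v : Fin n → Fin r → ℤ} {deg : (Fin r → ℤ) →+ ℤ}
    (hdeg : ∀ i, deg (v i) = 1) {w : Fin n → ℝ} (hw : Gw v w) {u : Fin r → ℝ}
    (hu : GeneralPosition v u) {c : Fin r → ℤ} (hc : c ∈ Xs v u) :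
    ∃ I : Fin r ↪o Fin n, Tri v w I ∧ Ho v I u c := by
  by_contra hcon
  push Not at hcon
  have h1 : ∀ I : Fin r ↪o Fin n, ∀ᶠ ε in 𝓝[>] (0 : ℝ),
      Tri v w I → ∃ j, co v I (toR c + ε • u) j ≤ 0 := by
    intro I
    by_cases hI : Tri v w I
    · have h2 := hcon I hI
      unfold Ho at h2
      push Not at h2
      obtain ⟨j, hj⟩ := h2
      filter_upwards [not_pos_eventually hj] with ε hε _
      refine ⟨j, ?_⟩
      rw [co_add, co_smul]
      exact hε
    · exact Eventually.of_forall fun ε h => absurd h hI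
  have hc' : ∀ᶠ ε in 𝓝[>] (0 : ℝ), toR c + ε • u ∈ cone v := hc
  obtain ⟨ε, h2, h3, h4⟩ := ((eventually_all.2 h1).and (hc'.and (gp_eventually hu c))).exists
  obtain ⟨I, h5, h6⟩ := exists_tri hdeg hw h4 h3
  obtain ⟨j, hj⟩ := h2 I h5
  exact absurd (h6 j) (not_lt.2 hj)

theorem ho_unique {v : Fin n → Fin r → ℤ} {w : Fin n → ℝ} {u : Fin r → ℝ} {c : Fin r → ℤ}
    {I J : Fin r ↪o Fin n} (hI : Tri v w I) (hJ : Tri v w J) (h1 : Ho v I u c)
    (h2 : Ho v J u c) : I = J := by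
  obtain ⟨ε, h3, h4⟩ := (h1.eventually.and h2.eventually).exists
  exact om_simplex_eq hJ hI.1 h3 (om_simplex_le hI hJ.1 fun j => (h4 j).le)

theorem Ho.mem_Xs {v : Fin n → Fin r → ℤ} {u : Fin r → ℝ} {c : Fin r → ℤ}
    {I : Fin r ↪o Fin n} (hI : Nd v I) (h : Ho v I u c) : c ∈ Xs v u := by
  show ∀ᶠ ε in 𝓝[>] (0 : ℝ), toR c + ε • u ∈ cone v
  filter_upwards [h.eventually] with ε hε
  refine ⟨sp I (co v I (toR c + ε • u)), sp_nonneg I fun j => (hε j).le, ?_⟩
  rw [sp_sum I _ (fun i => toR (v i)), sum_co hI]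

theorem Ho.add {v : Fin n → Fin r → ℤ} {u : Fin r → ℝ} {c : Fin r → ℤ}
    {I : Fin r ↪o Fin n} (hI : Nd v I) (h : Ho v I u c) (j : Fin r) :
    Ho v I u (c + v (I j)) := by
  intro k
  rw [toR_add, co_add, co_self hI]
  refine (h k).add ?_
  by_cases hk : k = j
  · subst hk; simp
  · rw [Pi.single_eq_of_ne hk]

end Pool.Agent.J4.H13.GKZ
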