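import Mathlib
import Pool.Agent.J4.H13.GKZ.Half

set_option autoImplicit false

/-!
# Boxes, and the inequalities behind the triangularity
-/

namespace Pool.Agent.J4.H13.GKZ

open Filter Topology Finset

variable {r n : ℕ}

/-- The integral part with respect to lexicographic positivity. -/
noncomputable def mu (a b : ℝ) : ℕ := if 0 < b then ⌊a⌋₊ else ⌈a⌉₊ - 1

theorem mu_iff {a b : ℝ} (hb : b ≠ 0) (h : pos a b) (m : ℕ) : pos (a - m) b ↔ m ≤ mu a b := by
  unfold mu
  split_ifs with h0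
  · rw [Nat.le_floor_iff h.nonneg]
    unfold pos
    constructor
    · rintro (h1 | ⟨h1, -⟩) <;> linarith
    · intro h1
      rcases lt_or_eq_of_le h1 with h2 | h2
      · left; linarith
      · right; exact ⟨by linarith, h0⟩
  · have hb' : b < 0 := lt_of_le_of_ne (not_lt.1 h0) hb
    have ha : 0 < a := by
      rcases h with h | ⟨-, h⟩
      · exact h
      · linarith
    have h1 : 0 < ⌈a⌉₊ := Nat.ceil_pos.2 ha
    have h2 : pos (a - m) b ↔ (m : ℝ) < a := by
      unfold pos
      constructor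
      · rintro (h1 | ⟨-, h1⟩) <;> linarith
      · intro h1
        left; linarith
    rw [h2, ← Nat.lt_ceil]
    omega

theorem mu_add {a b : ℝ} (hb : b ≠ 0) (h : pos a b) (m : ℕ) : mu (a + m) b = mu a b + m := by
  have h1 : pos (a + m) b := h.add (Nat.cast_nonneg m)
  apply le_antisymm
  · by_contra hcon
    push Not at hcon
    have h2 := (mu_iff hb h1 (mu a b + m + 1)).2 hcon
    have h3 : a + m - ((mu a b + m + 1 : ℕ) : ℝ) = a - ((mu a b + 1 : ℕ) : ℝ) := by
      push_cast; ring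
    rw [h3, mu_iff hb h] at h2
    omega
  · rw [← mu_iff hb h1]
    have h3 : a + m - ((mu a b + m : ℕ) : ℝ) = a - ((mu a b : ℕ) : ℝ) := by
      push_cast; ring
    rw [h3, mu_iff hb h]

/-- The combinatorial set-up: `w` generic weights, `u` in general position, `ci c` the simplex of
the triangulation which contains `c + ε u`. -/
structure Setup (v : Fin n → Fin r → ℤ) (deg : (Fin r → ℤ) →+ ℤ) (w : Fin n → ℝ) (u : Fin r → ℝ)
    (ci : (Fin r → ℤ) → (Fin r ↪o Fin n)) : Prop where
  hdeg : ∀ i, deg (v i) = 1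
  hw : Gw v w
  hu : GeneralPosition v u
  tri : ∀ c ∈ Xs v u, Tri v w (ci c)
  ho : ∀ c ∈ Xs v u, Ho v (ci c) u c

theorem exists_setup {v : Fin n → Fin r → ℤ} {deg : (Fin r → ℤ) →+ ℤ}
    (hdeg : ∀ i, deg (v i) = 1) {w : Fin n → ℝ} (hw : Gw v w) {u : Fin r → ℝ}
    (hu : GeneralPosition v u) [Nonempty (Fin r ↪o Fin n)] :
    ∃ ci, Setup v deg w u ci := by
  classical
  refine ⟨fun c => if h : c ∈ Xs v u then (exists_ho hdeg hw hu h).choose else Classical.arbitrary _,
    hdeg, hw, hu, fun c hc => ?_, fun c hc => ?_⟩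
  · rw [dif_pos hc]
    exact (exists_ho hdeg hw hu hc).choose_spec.1
  · rw [dif_pos hc]
    exact (exists_ho hdeg hw hu hc).choose_spec.2

variable {v : Fin n → Fin r → ℤ} {deg : (Fin r → ℤ) →+ ℤ} {w : Fin n → ℝ} {u : Fin r → ℝ}
  {ci : (Fin r → ℤ) → (Fin r ↪o Fin n)}

namespace Setup

theorem uniq (S : Setup v deg w u ci) {c : Fin r → ℤ} {I : Fin r ↪o Fin n} (hI : Tri v w I)
    (h : Ho v I u c) : ci c = I := by
  have hc := h.mem_Xs hI.1
  exact ho_unique (S.tri c hc) hI (S.ho c hc) h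

theorem nd (S : Setup v deg w u ci) {c : Fin r → ℤ} (hc : c ∈ Xs v u) : Nd v (ci c) :=
  (S.tri c hc).1

theorem une (S : Setup v deg w u ci) {I : Fin r ↪o Fin n} (hI : Nd v I) (j : Fin r) :
    co v I u j ≠ 0 := co_ne_zero S.hu hI j

theorem ci_add (S : Setup v deg w u ci) {c : Fin r → ℤ} (hc : c ∈ Xs v u) (j : Fin r) :
    ci (c + v (ci c j)) = ci c :=
  S.uniq (S.tri c hc) ((S.ho c hc).add (S.nd hc) j)

theorem deg_nonneg (S : Setup v deg w u ci) {c : Fin r → ℤ} (hc : c ∈ Xs v u) : 0 ≤ deg c := by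
  have h1 : (0 : ℝ) ≤ (deg c : ℝ) := by
    rw [← degR_toR, ← sum_co_deg S.hdeg (S.nd hc)]
    exact sum_nonneg fun j _ => (S.ho c hc j).nonneg
  exact_mod_cast h1

/-- The weight of a point is at most the sum of weights: first inequality. -/
theorem delta_nonneg (S : Setup v deg w u ci) {c : Fin r → ℤ} (hc : c ∈ Xs v u) (i : Fin n) :
    om v w (ci (c + v i)) (toR (c + v i)) ≤ om v w (ci c) (toR c) + w i := by
  have hT := S.tri _ (Xs_add hc i)
  rw [toR_add, om_add]
  refine add_le_add (om_simplex_le hT (S.nd hc) fun j => (S.ho c hc j).nonneg) ?_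
  by_cases hi : i ∈ Set.range (ci (c + v i))
  · obtain ⟨j, hj⟩ := hi
    have := om_self w hT.1 j
    rw [hj] at this
    exact this.le
  · exact (hT.2 i hi).le

/-- Second inequality: the rank drops. -/
theorem rank_lt (S : Setup v deg w u ci) {c : Fin r → ℤ} (hc : c ∈ Xs v u) {i : Fin n}
    (hi : i ∉ Set.range (ci c))
    (h : om v w (ci c) (toR c) + w i ≤ om v w (ci (c + v i)) (toR (c + v i))) :
    om v w (ci (c + v i)) u < om v w (ci c) u := by
  set ρ := ci (c + v i) with hρ
  have hT := S.tri _ (Xs_add hc i)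
  rw [← hρ] at hT
  have h1 : om v w ρ (toR c) ≤ om v w (ci c) (toR c) :=
    om_simplex_le hT (S.nd hc) fun j => (S.ho c hc j).nonneg
  have h2 : om v w ρ (toR (v i)) ≤ w i := by
    by_cases hi : i ∈ Set.range ρ
    · obtain ⟨j, hj⟩ := hi
      have := om_self w hT.1 j
      rw [hj] at this
      exact this.le
    · exact (hT.2 i hi).le
  rw [toR_add, om_add] at h
  have h3 : om v w ρ (toR c) = om v w (ci c) (toR c) := by linarith
  have h4 : i ∈ Set.range ρ := by
    by_contra hcon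
    have := hT.2 i hcon
    linarith
  have h5 : ci c ≠ ρ := by
    intro heq
    rw [← heq] at h4
    exact hi h4
  obtain ⟨ε, h6, h7⟩ := ((S.ho c hc).eventually.and
    (eventually_mem_nhdsWithin (a := (0 : ℝ)) (s := Set.Ioi 0))).exists
  have h8 : om v w ρ (toR c + ε • u) < om v w (ci c) (toR c + ε • u) := by
    rcases lt_or_ge (om v w ρ (toR c + ε • u)) (om v w (ci c) (toR c + ε • u)) with h | h
    · exact h
    · exact absurd (om_simplex_eq hT (S.nd hc) h6 h) h5
  rw [om_add, om_add, om_smul, om_smul, h3] at h8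
  have h9 : (0 : ℝ) < ε := h7
  have h10 : ε * om v w ρ u < ε * om v w (ci c) u := by linarith
  exact lt_of_mul_lt_mul_left h10 h9.le

end Setup

/-- Two set-ups for opposite directions: the inequalities for the pairing. -/
theorem pair_le {ci' : (Fin r → ℤ) → (Fin r ↪o Fin n)} (S : Setup v deg w u ci)
    (S' : Setup v deg w (-u) ci') {I : Fin r ↪o Fin n} (hI : Nd v I) {c d : Fin r → ℤ}
    (hc : Ho v I u c) (hd : Ho v I (-u) d) (hcd : c + d = ∑ j, v (I j)) :
    om v w (ci c) (toR c) + om v w (ci' d) (toR d) ≤ ∑ j, w (I j) := by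
  have h1 := om_simplex_le (S.tri c (hc.mem_Xs hI)) hI fun j => (hc j).nonneg
  have h2 := om_simplex_le (S'.tri d (hd.mem_Xs hI)) hI fun j => (hd j).nonneg
  have h3 : om v w I (toR c) + om v w I (toR d) = ∑ j, w (I j) := by
    rw [← om_add, ← toR_add, hcd, toR_sum]
    have h4 : ∑ j, toR (v (I j)) = ∑ j, (1 : ℝ) • toR (v (I j)) := by simp
    rw [h4, om, co_sum hI (fun _ => (1 : ℝ))]
    simp
  linarith

theorem pair_rank {ci' : (Fin r → ℤ) → (Fin r ↪o Fin n)} (S : Setup v deg w u ci)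
    (S' : Setup v deg w (-u) ci') {I : Fin r ↪o Fin n} (hI : Nd v I) {c d : Fin r → ℤ}
    (hc : Ho v I u c) (hd : Ho v I (-u) d) (hcd : c + d = ∑ j, v (I j))
    (h : ∑ j, w (I j) ≤ om v w (ci c) (toR c) + om v w (ci' d) (toR d)) :
    om v w (ci c) u ≤ om v w (ci' d) u ∧
      (om v w (ci' d) u ≤ om v w (ci c) u → I = ci c ∧ I = ci' d) := by
  have hTc := S.tri c (hc.mem_Xs hI)
  have hTd := S'.tri d (hd.mem_Xs hI)
  obtain ⟨ε, h1, h2, h3⟩ := (hc.eventually.and (hd.eventually.and
    (eventually_mem_nhdsWithin (a := (0 : ℝ)) (s := Set.Ioi 0)))).exists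
  have h4 := om_simplex_le hTc hI fun j => (h1 j).le
  have h5 := om_simplex_le hTd hI fun j => (h2 j).le
  have h6 : om v w I (toR c + ε • u) + om v w I (toR d + ε • (-u)) = ∑ j, w (I j) := by
    rw [← om_add, show toR c + ε • u + (toR d + ε • (-u)) = toR (c + d) by
      rw [toR_add, smul_neg]; abel, hcd, toR_sum]
    have h4 : ∑ j, toR (v (I j)) = ∑ j, (1 : ℝ) • toR (v (I j)) := by simp
    rw [h4, om, co_sum hI (fun _ => (1 : ℝ))]
    simp
  have h7 : (0 : ℝ) < ε := h3
  have h8 : om v w (ci c) (toR c + ε • u) = om v w (ci c) (toR c) + ε * om v w (ci c) u := by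
    rw [om_add, om_smul]
  have h9 : om v w (ci' d) (toR d + ε • (-u)) =
      om v w (ci' d) (toR d) - ε * om v w (ci' d) u := by
    rw [om_add, om_smul, show (-u) = (-1 : ℝ) • u by simp, om_smul]
    ring
  constructor
  · have h10 : ε * om v w (ci c) u ≤ ε * om v w (ci' d) u := by linarith
    exact le_of_mul_le_mul_left h10 h7
  · intro hle
    have h10 : ε * om v w (ci' d) u ≤ ε * om v w (ci c) u := mul_le_mul_of_nonneg_left hle h7.le
    constructor
    · refine om_simplex_eq hTc hI h1 ?_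
      linarith
    · refine om_simplex_eq hTd hI h2 ?_
      linarith

end Pool.Agent.J4.H13.GKZ
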