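import Mathlib
import Pool.Agent.J4.H13.GKZ.Comb

set_option autoImplicit false

/-!
# Boxes and rows
-/

namespace Pool.Agent.J4.H13.GKZ

open Filter Topology Finset

variable {r n : ℕ}

/-- The multiplicities of the vertices of the simplex in a lattice point. -/
noncomputable def mlt (v : Fin n → Fin r → ℤ) (u : Fin r → ℝ)
    (ci : (Fin r → ℤ) → (Fin r ↪o Fin n)) (c : Fin r → ℤ) (j : Fin r) : ℕ :=
  mu (co v (ci c) (toR c) j) (co v (ci c) u j)

/-- The box element below a lattice point. -/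
noncomputable def base (v : Fin n → Fin r → ℤ) (u : Fin r → ℝ)
    (ci : (Fin r → ℤ) → (Fin r ↪o Fin n)) (c : Fin r → ℤ) : Fin r → ℤ :=
  c - ∑ j, mlt v u ci c j • v (ci c j)

variable {v : Fin n → Fin r → ℤ} {deg : (Fin r → ℤ) →+ ℤ} {w : Fin n → ℝ} {u : Fin r → ℝ}
  {ci : (Fin r → ℤ) → (Fin r ↪o Fin n)}

theorem co_add_comb {I : Fin r ↪o Fin n} (hI : Nd v I) (c : Fin r → ℤ) (m : Fin r → ℕ)
    (j : Fin r) : co v I (toR (c + ∑ k, m k • v (I k))) j = co v I (toR c) j + m j := by
  rw [toR_add, co_add, toR_sum]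
  simp only [toR_nsmul]
  rw [co_sum hI fun k => (m k : ℝ)]
  rfl

theorem co_sub_comb {I : Fin r ↪o Fin n} (hI : Nd v I) (c : Fin r → ℤ) (m : Fin r → ℕ)
    (j : Fin r) : co v I (toR (c - ∑ k, m k • v (I k))) j = co v I (toR c) j - m j := by
  rw [toR_sub, co_sub, toR_sum]
  simp only [toR_nsmul]
  rw [co_sum hI fun k => (m k : ℝ)]
  rfl

namespace Setup

theorem up_ho (S : Setup v deg w u ci) {c : Fin r → ℤ} (hc : c ∈ Xs v u) (m : Fin r → ℕ) :
    Ho v (ci c) u (c + ∑ k, m k • v (ci c k)) := by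
  intro j
  rw [co_add_comb (S.nd hc)]
  exact (S.ho c hc j).add (Nat.cast_nonneg _)

theorem up_mem (S : Setup v deg w u ci) {c : Fin r → ℤ} (hc : c ∈ Xs v u) (m : Fin r → ℕ) :
    c + ∑ k, m k • v (ci c k) ∈ Xs v u := (S.up_ho hc m).mem_Xs (S.nd hc)

theorem up_ci (S : Setup v deg w u ci) {c : Fin r → ℤ} (hc : c ∈ Xs v u) (m : Fin r → ℕ) :
    ci (c + ∑ k, m k • v (ci c k)) = ci c := S.uniq (S.tri c hc) (S.up_ho hc m)

theorem up_mlt (S : Setup v deg w u ci) {c : Fin r → ℤ} (hc : c ∈ Xs v u) (m : Fin r → ℕ)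
    (j : Fin r) : mlt v u ci (c + ∑ k, m k • v (ci c k)) j = mlt v u ci c j + m j := by
  unfold mlt
  rw [S.up_ci hc, co_add_comb (S.nd hc)]
  exact mu_add (S.une (S.nd hc) j) (S.ho c hc j) _

theorem down_ho (S : Setup v deg w u ci) {c : Fin r → ℤ} (hc : c ∈ Xs v u) {m : Fin r → ℕ}
    (hm : ∀ j, m j ≤ mlt v u ci c j) : Ho v (ci c) u (c - ∑ k, m k • v (ci c k)) := by
  intro j
  rw [co_sub_comb (S.nd hc)]
  exact (mu_iff (S.une (S.nd hc) j) (S.ho c hc j) _).2 (hm j)

theorem down_mem (S : Setup v deg w u ci) {c : Fin r → ℤ} (hc : c ∈ Xs v u) {m : Fin r → ℕ}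
    (hm : ∀ j, m j ≤ mlt v u ci c j) : c - ∑ k, m k • v (ci c k) ∈ Xs v u :=
  (S.down_ho hc hm).mem_Xs (S.nd hc)

theorem down_ci (S : Setup v deg w u ci) {c : Fin r → ℤ} (hc : c ∈ Xs v u) {m : Fin r → ℕ}
    (hm : ∀ j, m j ≤ mlt v u ci c j) : ci (c - ∑ k, m k • v (ci c k)) = ci c :=
  S.uniq (S.tri c hc) (S.down_ho hc hm)

theorem down_mlt (S : Setup v deg w u ci) {c : Fin r → ℤ} (hc : c ∈ Xs v u) {m : Fin r → ℕ}
    (hm : ∀ j, m j ≤ mlt v u ci c j) (j : Fin r) :
    mlt v u ci (c - ∑ k, m k • v (ci c k)) j + m j = mlt v u ci c j := by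
  have h := S.up_mlt (S.down_mem hc hm) m j
  rw [S.down_ci hc hm, sub_add_cancel] at h
  exact h.symm

theorem base_mem (S : Setup v deg w u ci) {c : Fin r → ℤ} (hc : c ∈ Xs v u) :
    base v u ci c ∈ Xs v u := S.down_mem hc fun _ => le_rfl

theorem base_ci (S : Setup v deg w u ci) {c : Fin r → ℤ} (hc : c ∈ Xs v u) :
    ci (base v u ci c) = ci c := S.down_ci hc fun _ => le_rfl

theorem base_mlt (S : Setup v deg w u ci) {c : Fin r → ℤ} (hc : c ∈ Xs v u) (j : Fin r) :
    mlt v u ci (base v u ci c) j = 0 := by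
  have := S.down_mlt hc (fun _ => le_rfl) j
  unfold base
  omega

theorem base_add (_S : Setup v deg w u ci) (c : Fin r → ℤ) :
    base v u ci c + ∑ k, mlt v u ci c k • v (ci c k) = c := sub_add_cancel _ _

/-- The base of a point above a point. -/
theorem up_base (S : Setup v deg w u ci) {c : Fin r → ℤ} (hc : c ∈ Xs v u) (m : Fin r → ℕ) :
    base v u ci (c + ∑ k, m k • v (ci c k)) = base v u ci c := by
  unfold base
  rw [S.up_ci hc]
  simp only [S.up_mlt hc, add_smul, sum_add_distrib]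
  abel

theorem deg_comb (S : Setup v deg w u ci) (I : Fin r ↪o Fin n) (m : Fin r → ℕ) :
    deg (∑ k, m k • v (I k)) = ∑ k, (m k : ℤ) := by
  rw [map_sum]
  refine sum_congr rfl fun k _ => ?_
  rw [map_nsmul, S.hdeg]
  simp

theorem sum_co_eq (S : Setup v deg w u ci) {c : Fin r → ℤ} (hc : c ∈ Xs v u) :
    ∑ j, co v (ci c) (toR c) j = (deg c : ℝ) := by
  rw [sum_co_deg S.hdeg (S.nd hc), degR_toR]

theorem box_deg_le (S : Setup v deg w u ci) {c : Fin r → ℤ} (hc : c ∈ Xs v u)
    (hb : ∀ j, mlt v u ci c j = 0) : deg c ≤ r := by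
  have h1 : ∀ j, co v (ci c) (toR c) j ≤ 1 := by
    intro j
    have h2 : ¬ pos (co v (ci c) (toR c) j - (1 : ℕ)) (co v (ci c) u j) := by
      rw [mu_iff (S.une (S.nd hc) j) (S.ho c hc j)]
      have := hb j
      unfold mlt at this
      omega
    unfold pos at h2
    push Not at h2
    have := h2.1
    push_cast at this
    linarith
  have h3 : (deg c : ℝ) ≤ r := by
    rw [← S.sum_co_eq hc]
    calc ∑ j, co v (ci c) (toR c) j ≤ ∑ _j : Fin r, (1 : ℝ) := sum_le_sum fun j _ => h1 j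
      _ = r := by simp
  exact_mod_cast h3

theorem finite_deg (S : Setup v deg w u ci) (k : ℤ) :
    Set.Finite {c : Fin r → ℤ | c ∈ Xs v u ∧ deg c = k} := by
  set B : ℤ := ∑ i, ∑ κ, |v i κ| with hB
  have hvB : ∀ i κ, |v i κ| ≤ B := fun i κ =>
    (single_le_sum (f := fun κ => |v i κ|) (fun κ _ => abs_nonneg _) (mem_univ κ)).trans
      (single_le_sum (f := fun i => ∑ κ, |v i κ|)
        (fun i _ => sum_nonneg fun κ _ => abs_nonneg _) (mem_univ i))
  refine Set.Finite.subset (Set.finite_Icc (fun _ : Fin r => -(k * B)) (fun _ => k * B)) ?_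
  rintro c ⟨hc, hk⟩
  have h1 : ∀ κ, |c κ| ≤ k * B := by
    intro κ
    have h2 : (|c κ| : ℝ) ≤ k * B := by
      have h3 : (c κ : ℝ) = ∑ j, co v (ci c) (toR c) j * (v (ci c j) κ : ℝ) := by
        have := congrFun (sum_co (S.nd hc) (toR c)) κ
        rw [Finset.sum_apply] at this
        rw [show (c κ : ℝ) = toR c κ from rfl, ← this]
        rfl
      rw [h3]
      calc |∑ j, co v (ci c) (toR c) j * (v (ci c j) κ : ℝ)|
          ≤ ∑ j, |co v (ci c) (toR c) j * (v (ci c j) κ : ℝ)| := abs_sum_le_sum_abs _ _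
        _ ≤ ∑ j, co v (ci c) (toR c) j * (B : ℝ) := by
            refine sum_le_sum fun j _ => ?_
            rw [abs_mul, abs_of_nonneg (S.ho c hc j).nonneg]
            refine mul_le_mul_of_nonneg_left ?_ (S.ho c hc j).nonneg
            exact_mod_cast hvB (ci c j) κ
        _ = k * B := by rw [← sum_mul, S.sum_co_eq hc, hk]
    exact_mod_cast h2
  exact ⟨fun κ => (abs_le.1 (h1 κ)).1, fun κ => (abs_le.1 (h1 κ)).2⟩

end Setup

open Classical in
/-- The previous point of a point which is not in a box. -/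
noncomputable def prev (v : Fin n → Fin r → ℤ) (u : Fin r → ℝ)
    (ci : (Fin r → ℤ) → (Fin r ↪o Fin n)) (c : Fin r → ℤ) : Fin r → ℤ :=
  if h : ∃ j, mlt v u ci c j ≠ 0 then c - v (ci c h.choose) else c

open Classical in
/-- The coefficients of the row of a point which is not in a box. -/
noncomputable def cf (v : Fin n → Fin r → ℤ) (u : Fin r → ℝ)
    (ci : (Fin r → ℤ) → (Fin r ↪o Fin n)) (c : Fin r → ℤ) (i : Fin n) : ℝ :=
  if h : ∃ j, mlt v u ci c j ≠ 0 then co v (ci c) (toR (v i)) h.choose else 0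

namespace Setup

theorem single_comb (I : Fin r ↪o Fin n) (j : Fin r) :
    ∑ k, (if k = j then 1 else 0 : ℕ) • v (I k) = v (I j) := by
  rw [Fintype.sum_eq_single j (fun k hk => by rw [if_neg hk, zero_smul]), if_pos rfl, one_smul]

/-- The properties of `prev` and `cf`. -/
theorem prev_spec (S : Setup v deg w u ci) {c : Fin r → ℤ} (hc : c ∈ Xs v u)
    (h : ∃ j, mlt v u ci c j ≠ 0) : ∃ j, prev v u ci c + v (ci c j) = c ∧
      prev v u ci c ∈ Xs v u ∧ ci (prev v u ci c) = ci c ∧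
      ∀ i, cf v u ci c i = co v (ci c) (toR (v i)) j := by
  have hj := h.choose_spec
  have h1 : c - v (ci c h.choose) =
      c - ∑ k, (if k = h.choose then 1 else 0 : ℕ) • v (ci c k) := by rw [single_comb]
  have h2 : ∀ j, (if j = h.choose then 1 else 0 : ℕ) ≤ mlt v u ci c j := by
    intro j
    split_ifs with hjj
    · rw [hjj]; omega
    · exact Nat.zero_le _
  refine ⟨h.choose, ?_, ?_, ?_, fun i => ?_⟩
  · rw [prev, dif_pos h]; abel
  · rw [prev, dif_pos h, h1]
    exact S.down_mem hc h2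
  · rw [prev, dif_pos h, h1]
    exact S.down_ci hc h2
  · rw [cf, dif_pos h]

theorem deg_prev (S : Setup v deg w u ci) {c : Fin r → ℤ} (hc : c ∈ Xs v u)
    (h : ∃ j, mlt v u ci c j ≠ 0) (i : Fin n) : deg (prev v u ci c + v i) = deg c := by
  obtain ⟨j, h1, -⟩ := S.prev_spec hc h
  rw [map_add, S.hdeg, ← S.hdeg (ci c j), ← map_add, h1]

/-- The weight of a lattice point. -/
noncomputable def wt (_S : Setup v deg w u ci) (c : Fin r → ℤ) : ℝ := om v w (ci c) (toR c)

/-- The rank of a lattice point. -/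
noncomputable def rk (_S : Setup v deg w u ci) (c : Fin r → ℤ) : ℝ := om v w (ci c) u

/-- The exponents. -/
noncomputable def dl (S : Setup v deg w u ci) (c : Fin r → ℤ) (i : Fin n) : ℝ :=
  S.wt c + w i - S.wt (c + v i)

theorem dl_nonneg (S : Setup v deg w u ci) {c : Fin r → ℤ} (hc : c ∈ Xs v u) (i : Fin n) :
    0 ≤ S.dl c i := by
  have := S.delta_nonneg hc i
  unfold dl wt
  linarith

open Classical in
/-- The rows of the limit matrix. -/
noncomputable def row0 (S : Setup v deg w u ci) (c c' : Fin r → ℤ) : ℂ :=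
  ∑ i, if prev v u ci c + v i = c' then
    (cf v u ci c i : ℂ) * (if S.dl (prev v u ci c) i = 0 then 1 else 0) else 0

theorem row0_self (S : Setup v deg w u ci) {c : Fin r → ℤ} (hc : c ∈ Xs v u)
    (h : ∃ j, mlt v u ci c j ≠ 0) : S.row0 c c = 1 ∧
      ∀ c', c' ≠ c → S.row0 c c' ≠ 0 → S.rk c' < S.rk c := by
  classical
  obtain ⟨j, h1, h2, h3, h4⟩ := S.prev_spec hc h
  have hnd := S.nd hc
  have hdl : S.dl (prev v u ci c) (ci c j) = 0 := by
    unfold dl wt
    have h5 : toR c = toR (prev v u ci c) + toR (v (ci c j)) := by rw [← toR_add, h1]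
    rw [h1, h3]
    conv_lhs => rw [h5]
    rw [om_add, om_self w hnd]
    ring
  have hother : ∀ i c', i ≠ ci c j → prev v u ci c + v i = c' →
      (cf v u ci c i : ℂ) * (if S.dl (prev v u ci c) i = 0 then 1 else 0) ≠ 0 →
        S.rk c' < S.rk c := by
    intro i c' hi hic hne
    have hcf : cf v u ci c i ≠ 0 := by
      intro h0
      apply hne
      rw [h0]; simp
    have hd0 : S.dl (prev v u ci c) i = 0 := by
      by_contra h0
      apply hne
      rw [if_neg h0, mul_zero]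
    have hir : i ∉ Set.range (ci c) := by
      rintro ⟨k, hk⟩
      apply hcf
      rw [h4, ← hk, co_self hnd]
      refine Pi.single_eq_of_ne (fun h => hi ?_) _
      rw [← hk, h]
    rw [← h3] at hir
    have := S.rank_lt h2 hir (by
      unfold dl wt at hd0
      linarith)
    rw [hic, h3] at this
    exact this
  constructor
  · unfold row0
    rw [Fintype.sum_eq_single (ci c j), if_pos h1, hdl, if_pos rfl, h4, co_self hnd,
      Pi.single_eq_same]
    · simp
    · intro i hi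
      by_cases h5 : prev v u ci c + v i = c
      · rw [if_pos h5]
        by_contra hcon
        exact lt_irrefl _ (hother i c hi h5 hcon)
      · rw [if_neg h5]
  · intro c' hc' hne
    unfold row0 at hne
    obtain ⟨i, -, hi⟩ := exists_ne_zero_of_sum_ne_zero hne
    by_cases h5 : prev v u ci c + v i = c'
    · rw [if_pos h5] at hi
      refine hother i c' (fun h6 => hc' ?_) h5 hi
      rw [← h5, h6, h1]
    · rw [if_neg h5] at hi
      exact absurd rfl hi

end Setup

end Pool.Agent.J4.H13.GKZ
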