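import Mathlib

set_option autoImplicit false

/-!
# Generic injectivity of a matrix of polynomials from the limit along a curve
-/

namespace Pool.Agent.J4.H13.GKZ

open Filter Topology Finset Matrix

theorem exists_left_inv {m p : Type} [Fintype m] [Fintype p] [DecidableEq m] [DecidableEq p]
    {A : Matrix m p ℂ} (h : ∀ z : p → ℂ, A *ᵥ z = 0 → z = 0) : ∃ B : Matrix p m ℂ, B * A = 1 := by
  have hker : LinearMap.ker A.mulVecLin = ⊥ := by
    rw [LinearMap.ker_eq_bot']
    intro z hz
    exact h z hz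
  obtain ⟨g, hg⟩ := A.mulVecLin.exists_leftInverse_of_injective hker
  refine ⟨LinearMap.toMatrix' g, ?_⟩
  have h2 := congrArg LinearMap.toMatrix' hg
  rw [LinearMap.toMatrix'_comp, LinearMap.toMatrix'_id] at h2
  rwa [show A.mulVecLin = Matrix.toLin' A from rfl, LinearMap.toMatrix'_toLin'] at h2

theorem inj_of_det {m p : Type} [Fintype m] [Fintype p] [DecidableEq p]
    {A : Matrix m p ℂ} {B : Matrix p m ℂ} (h : (B * A).det ≠ 0) (z : p → ℂ) (hz : A *ᵥ z = 0) :
    z = 0 := by
  by_contra hne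
  apply h
  rw [← Matrix.exists_mulVec_eq_zero_iff]
  exact ⟨z, hne, by rw [← Matrix.mulVec_mulVec, hz, Matrix.mulVec_zero]⟩

/-- The product of a constant matrix and a matrix of polynomials. -/
noncomputable def polyMul {n : ℕ} {m p : Type} [Fintype m] (B : Matrix p m ℂ)
    (A : Matrix m p (MvPolynomial (Fin n) ℂ)) : Matrix p p (MvPolynomial (Fin n) ℂ) :=
  Matrix.of fun i j => ∑ k, MvPolynomial.C (B i k) * A k j

theorem eval_det {n : ℕ} {m p : Type} [Fintype m] [Fintype p] [DecidableEq p] (B : Matrix p m ℂ)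
    (A : Matrix m p (MvPolynomial (Fin n) ℂ)) (y : Fin n → ℂ) :
    MvPolynomial.eval y (polyMul B A).det = (B * A.map (MvPolynomial.eval y)).det := by
  rw [RingHom.map_det]
  congr 1
  ext i j
  simp [polyMul, Matrix.mul_apply]

/-- A matrix of polynomials whose rescaled values along a curve tend to an injective matrix is
injective outside the zeros of a nonzero polynomial. -/
theorem gen_inj {n : ℕ} {m p : Type} [Fintype m] [Fintype p] [DecidableEq m] [DecidableEq p]
    (A : Matrix m p (MvPolynomial (Fin n) ℂ)) (x : ℝ → Fin n → ℂ) (R : ℝ → m → ℂ)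
    (C : ℝ → p → ℂ) (hR : ∀ s i, R s i ≠ 0) (hC : ∀ s j, C s j ≠ 0) (A' : ℝ → Matrix m p ℂ)
    (hA : ∀ s i j, MvPolynomial.eval (x s) (A i j) = R s i * A' s i j * C s j)
    (A0 : Matrix m p ℂ) (hlim : ∀ i j, Tendsto (fun s => A' s i j) atTop (𝓝 (A0 i j)))
    (hinj : ∀ z : p → ℂ, A0 *ᵥ z = 0 → z = 0) :
    ∃ D : MvPolynomial (Fin n) ℂ, D ≠ 0 ∧ ∀ y, MvPolynomial.eval y D ≠ 0 →
      ∀ z : p → ℂ, (A.map (MvPolynomial.eval y)) *ᵥ z = 0 → z = 0 := by
  obtain ⟨B, hB⟩ := exists_left_inv hinj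
  have h1 : Tendsto (fun s => (B * A' s).det) atTop (𝓝 (B * A0).det) := by
    have h2 : Tendsto (fun s => A' s) atTop (𝓝 A0) :=
      tendsto_pi_nhds.2 fun i => tendsto_pi_nhds.2 fun j => hlim i j
    have h3 : Continuous fun M : Matrix m p ℂ => (B * M).det :=
      Continuous.matrix_det (continuous_const.matrix_mul continuous_id)
    exact (h3.tendsto A0).comp h2
  rw [hB, Matrix.det_one] at h1
  have h4 : ∀ᶠ s in atTop, (B * A' s).det ≠ 0 := h1.eventually_ne one_ne_zero
  obtain ⟨s, hs⟩ := h4.exists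
  have h5 : ∀ z : p → ℂ, (A.map (MvPolynomial.eval (x s))) *ᵥ z = 0 → z = 0 := by
    intro z hz
    have h6 : A' s *ᵥ (fun j => C s j * z j) = 0 := by
      funext i
      have h7 := congrFun hz i
      simp only [Matrix.mulVec, dotProduct, Matrix.map_apply, Pi.zero_apply, hA] at h7
      have h8 : R s i * ∑ j, A' s i j * (C s j * z j) = 0 := by
        rw [mul_sum, ← h7]
        refine sum_congr rfl fun j _ => ?_
        ring
      simp only [Matrix.mulVec, dotProduct, Pi.zero_apply]
      exact (mul_eq_zero.1 h8).resolve_left (hR s i)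
    have h9 := inj_of_det hs _ h6
    funext j
    exact (mul_eq_zero.1 (congrFun h9 j)).resolve_left (hC s j)
  obtain ⟨B', hB'⟩ := exists_left_inv h5
  refine ⟨(polyMul B' A).det, ?_, fun y hy => ?_⟩
  · intro h0
    have h6 := congrArg (MvPolynomial.eval (x s)) h0
    rw [eval_det, map_zero, hB', Matrix.det_one] at h6
    exact one_ne_zero h6
  · rw [eval_det] at hy
    exact inj_of_det hy

end Pool.Agent.J4.H13.GKZ
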