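import Mathlib
import Pool.Agent.J4.H13.GKZ.Box
import Pool.Agent.J4.H13.GKZ.Inj

set_option autoImplicit false

/-!
# Generic spanning by boxes and generic nondegeneracy of the symbol of the pairing
-/

namespace Pool.Agent.J4.H13.GKZ

open Filter Topology Finset Matrix

variable {r n : ℕ}

/-- The real exponential with complex values. -/
noncomputable def ex (a : ℝ) : ℂ := (Real.exp a : ℂ)

theorem ex_add (a b : ℝ) : ex (a + b) = ex a * ex b := by
  unfold ex; rw [Real.exp_add]; push_cast; rfl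

theorem ex_ne (a : ℝ) : ex a ≠ 0 := by
  unfold ex; exact_mod_cast (Real.exp_pos a).ne'

theorem ex_sum {ι : Type*} (s : Finset ι) (f : ι → ℝ) : ex (∑ i ∈ s, f i) = ∏ i ∈ s, ex (f i) := by
  unfold ex; rw [Real.exp_sum]; push_cast; rfl

theorem ex_zero : ex 0 = 1 := by unfold ex; simp

theorem tendsto_ex {δ : ℝ} (h : 0 ≤ δ) [Decidable (δ = 0)] :
    Tendsto (fun s : ℝ => ex (-(s * δ))) atTop (𝓝 (if δ = 0 then 1 else 0)) := by
  split_ifs with h0
  · subst h0
    simp [ex_zero]
  · have hpos : 0 < δ := lt_of_le_of_ne h (Ne.symm h0)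
    have h1 : Tendsto (fun s : ℝ => -(s * δ)) atTop atBot :=
      tendsto_neg_atTop_atBot.comp (tendsto_id.atTop_mul_const hpos)
    have h2 : Tendsto (fun s : ℝ => Real.exp (-(s * δ))) atTop (𝓝 0) :=
      Real.tendsto_exp_atBot.comp h1
    have h3 := (Complex.continuous_ofReal.tendsto 0).comp h2
    rw [Complex.ofReal_zero] at h3
    exact h3

variable {v : Fin n → Fin r → ℤ} {deg : (Fin r → ℤ) →+ ℤ} {w : Fin n → ℝ} {u : Fin r → ℝ}
  {ci ci' : (Fin r → ℤ) → (Fin r ↪o Fin n)}

/-- The curve of parameters. -/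
noncomputable def crv (w : Fin n → ℝ) (s : ℝ) : Fin n → ℂ := fun i => ex (-(s * w i))

namespace Setup

open Classical in
/-- The rows of polynomials. -/
noncomputable def rowP (_S : Setup v deg w u ci) (c c' : Fin r → ℤ) : MvPolynomial (Fin n) ℂ :=
  ∑ i, if prev v u ci c + v i = c' then
    MvPolynomial.C (cf v u ci c i : ℂ) * MvPolynomial.X i else 0

open Classical in
/-- The rescaled rows along the curve. -/
noncomputable def rowS (S : Setup v deg w u ci) (s : ℝ) (c c' : Fin r → ℤ) : ℂ :=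
  ∑ i, if prev v u ci c + v i = c' then
    (cf v u ci c i : ℂ) * ex (-(s * S.dl (prev v u ci c) i)) else 0

theorem eval_rowP (S : Setup v deg w u ci) (s : ℝ) (c c' : Fin r → ℤ) :
    MvPolynomial.eval (crv w s) (S.rowP c c') =
      ex (s * S.wt (prev v u ci c)) * S.rowS s c c' * ex (-(s * S.wt c')) := by
  classical
  unfold rowP rowS
  rw [map_sum, mul_sum, sum_mul]
  refine sum_congr rfl fun i _ => ?_
  by_cases h : prev v u ci c + v i = c'
  · rw [if_pos h, if_pos h, map_mul, MvPolynomial.eval_C, MvPolynomial.eval_X]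
    have h1 : ex (s * S.wt (prev v u ci c)) * ex (-(s * S.dl (prev v u ci c) i)) *
        ex (-(s * S.wt c')) = ex (-(s * w i)) := by
      rw [← ex_add, ← ex_add]
      congr 1
      unfold dl
      rw [h]
      ring
    unfold crv
    rw [← h1]
    ring
  · rw [if_neg h, if_neg h]
    simp

theorem rowS_tendsto (S : Setup v deg w u ci) {c : Fin r → ℤ} (hc : c ∈ Xs v u)
    (h : ∃ j, mlt v u ci c j ≠ 0) (c' : Fin r → ℤ) :
    Tendsto (fun s => S.rowS s c c') atTop (𝓝 (S.row0 c c')) := by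
  classical
  obtain ⟨j, -, h2, -, -⟩ := S.prev_spec hc h
  unfold rowS row0
  refine tendsto_finsetSum _ fun i _ => ?_
  by_cases h3 : prev v u ci c + v i = c'
  · simp only [if_pos h3]
    exact (tendsto_ex (S.dl_nonneg h2 i)).const_mul _
  · simp only [if_neg h3]
    exact tendsto_const_nhds

/-- The finite set of the lattice points of given degree. -/
noncomputable def fs (S : Setup v deg w u ci) (k : ℤ) : Finset (Fin r → ℤ) :=
  (S.finite_deg k).toFinset

theorem mem_fs (S : Setup v deg w u ci) {k : ℤ} {c : Fin r → ℤ} :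
    c ∈ S.fs k ↔ c ∈ Xs v u ∧ deg c = k := by
  unfold fs
  rw [Set.Finite.mem_toFinset]
  rfl

theorem mem_fs_prev (S : Setup v deg w u ci) {k : ℤ} {c : Fin r → ℤ} (hc : c ∈ S.fs k)
    (h : ∃ j, mlt v u ci c j ≠ 0) (i : Fin n) : prev v u ci c + v i ∈ S.fs k := by
  rw [mem_fs] at hc ⊢
  obtain ⟨j, h1, h2, -⟩ := S.prev_spec hc.1 h
  exact ⟨Xs_add h2 i, (S.deg_prev hc.1 h i).trans hc.2⟩

/-- Evaluation of a row on a function. -/
theorem row_sum (S : Setup v deg w u ci) {k : ℤ} {c : Fin r → ℤ} (hc : c ∈ S.fs k)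
    (h : ∃ j, mlt v u ci c j ≠ 0) (y : Fin n → ℂ) (φ : (Fin r → ℤ) → ℂ) :
    ∑ c' ∈ S.fs k, MvPolynomial.eval y (S.rowP c c') * φ c' =
      ∑ i, (cf v u ci c i : ℂ) * y i * φ (prev v u ci c + v i) := by
  classical
  unfold rowP
  simp only [map_sum, sum_mul]
  rw [sum_comm]
  refine sum_congr rfl fun i _ => ?_
  rw [sum_eq_single (prev v u ci c + v i)]
  · rw [if_pos rfl]
    simp
  · intro c' _ hne
    rw [if_neg (Ne.symm hne)]
    simp
  · intro hn
    exact absurd (S.mem_fs_prev hc h i) hn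

/-- Triangularity of the limit rows. -/
theorem row0_sum (S : Setup v deg w u ci) {k : ℤ} {c : Fin r → ℤ} (hc : c ∈ S.fs k)
    (h : ∃ j, mlt v u ci c j ≠ 0) (z : (Fin r → ℤ) → ℂ)
    (hz : ∀ c' ∈ S.fs k, S.rk c' < S.rk c → z c' = 0) :
    ∑ c' ∈ S.fs k, S.row0 c c' * z c' = z c := by
  classical
  obtain ⟨h1, h2⟩ := S.row0_self (S.mem_fs.1 hc).1 h
  rw [sum_eq_single c]
  · rw [h1, one_mul]
  · intro c' hc' hne
    by_cases h3 : S.row0 c c' = 0
    · rw [h3, zero_mul]
    · rw [hz c' hc' (h2 c' hne h3), mul_zero]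
  · intro hn
    exact absurd hc hn

theorem gi1 (S : Setup v deg w u ci) (k : ℤ) : ∃ D : MvPolynomial (Fin n) ℂ, D ≠ 0 ∧
    ∀ y, MvPolynomial.eval y D ≠ 0 → ∀ φ : (Fin r → ℤ) → ℂ,
      (∀ c ∈ S.fs k, (∀ j, mlt v u ci c j = 0) → φ c = 0) →
      (∀ c ∈ S.fs k, (∃ j, mlt v u ci c j ≠ 0) →
        ∑ i, (cf v u ci c i : ℂ) * y i * φ (prev v u ci c + v i) = 0) →
      ∀ c ∈ S.fs k, φ c = 0 := by
  classical
  let L := {c // c ∈ S.fs k}
  let A : Matrix L L (MvPolynomial (Fin n) ℂ) := Matrix.of fun c c' =>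
    if ∃ j, mlt v u ci c.1 j ≠ 0 then S.rowP c.1 c'.1 else if c = c' then 1 else 0
  obtain ⟨D, hD, hD2⟩ := gen_inj A (crv w)
    (fun s c => if ∃ j, mlt v u ci c.1 j ≠ 0 then ex (s * S.wt (prev v u ci c.1))
      else ex (s * S.wt c.1))
    (fun s c => ex (-(s * S.wt c.1)))
    (fun s c => by split_ifs <;> exact ex_ne _) (fun s c => ex_ne _)
    (fun s => Matrix.of fun c c' => if ∃ j, mlt v u ci c.1 j ≠ 0 then S.rowS s c.1 c'.1 else
      if c = c' then 1 else 0)
    (fun s c c' => by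
      simp only [A, Matrix.of_apply]
      by_cases h : ∃ j, mlt v u ci c.1 j ≠ 0
      · rw [if_pos h, if_pos h, if_pos h, S.eval_rowP]
      · rw [if_neg h, if_neg h, if_neg h]
        by_cases h2 : c = c'
        · subst h2
          rw [if_pos rfl, if_pos rfl, map_one, mul_one, ← ex_add, add_neg_cancel, ex_zero]
        · rw [if_neg h2, if_neg h2]
          simp)
    (Matrix.of fun c c' => if ∃ j, mlt v u ci c.1 j ≠ 0 then S.row0 c.1 c'.1 else
      if c = c' then 1 else 0)
    (fun c c' => by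
      simp only [Matrix.of_apply]
      by_cases h : ∃ j, mlt v u ci c.1 j ≠ 0
      · simp only [if_pos h]
        exact S.rowS_tendsto (S.mem_fs.1 c.2).1 h _
      · simp only [if_neg h]
        exact tendsto_const_nhds)
    (fun z hz => by
      by_contra hne
      obtain ⟨c1, hc1⟩ := Function.ne_iff.1 hne
      obtain ⟨c, hc, hmin⟩ := (univ.filter fun c : L => z c ≠ 0).exists_min_image
        (fun c => S.rk c.1) ⟨c1, mem_filter.2 ⟨mem_univ _, hc1⟩⟩
      have hzc := (mem_filter.1 hc).2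
      apply hzc
      have hrow := congrFun hz c
      simp only [Matrix.mulVec, dotProduct, Matrix.of_apply, Pi.zero_apply] at hrow
      by_cases h : ∃ j, mlt v u ci c.1 j ≠ 0
      · simp only [if_pos h] at hrow
        let z' : (Fin r → ℤ) → ℂ := fun c => if h : c ∈ S.fs k then z ⟨c, h⟩ else 0
        have h1 : ∑ c' ∈ S.fs k, S.row0 c.1 c' * z' c' = 0 := by
          rw [← hrow, ← sum_coe_sort (S.fs k)]
          refine sum_congr rfl fun c' _ => ?_
          simp only [z', c'.2, dif_pos]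
        rw [S.row0_sum c.2 h z' (fun c' hc' hlt => by
          simp only [z', hc', dif_pos]
          by_contra hne'
          have := hmin ⟨c', hc'⟩ (mem_filter.2 ⟨mem_univ _, hne'⟩)
          exact absurd hlt (not_lt.2 this))] at h1
        simpa only [z', c.2, dif_pos] using h1
      · simp only [if_neg h] at hrow
        rw [sum_eq_single c] at hrow
        · simpa using hrow
        · intro c' _ hne'
          rw [if_neg (Ne.symm hne'), zero_mul]
        · intro hn
          exact absurd (mem_univ _) hn)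
  refine ⟨D, hD, fun y hy φ h1 h2 c hc => ?_⟩
  have h3 := hD2 y hy (fun c : L => φ c.1) (by
    funext c
    simp only [Matrix.mulVec, dotProduct, Matrix.map_apply, Pi.zero_apply, A, Matrix.of_apply]
    by_cases h : ∃ j, mlt v u ci c.1 j ≠ 0
    · simp only [if_pos h]
      rw [← h2 c.1 c.2 h, ← S.row_sum c.2 h y φ, ← sum_coe_sort (S.fs k)]
    · simp only [if_neg h]
      rw [sum_eq_single c]
      · push Not at h
        rw [h1 c.1 c.2 h, mul_zero]
      · intro c' _ hne
        rw [if_neg (Ne.symm hne)]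
        simp
      · intro hn
        exact absurd (mem_univ _) hn)
  exact congrFun h3 ⟨c, hc⟩

end Setup

open Classical in
/-- The symbol of the pairing, as a polynomial. -/
noncomputable def Pp (v : Fin n → Fin r → ℤ) (u : Fin r → ℝ) (c d : Fin r → ℤ) :
    MvPolynomial (Fin n) ℂ :=
  ∑ I : Fin r ↪o Fin n, if Nd v I ∧ Ho v I u c ∧ Ho v I (-u) d ∧ c + d = ∑ j, v (I j) then
    MvPolynomial.C (vol v I : ℂ) * ∏ j, MvPolynomial.X (I j) else 0

open Classical in
/-- The rescaled symbol of the pairing. -/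
noncomputable def PS (S : Setup v deg w u ci) (S' : Setup v deg w (-u) ci') (s : ℝ)
    (c d : Fin r → ℤ) : ℂ :=
  ∑ I : Fin r ↪o Fin n, if Nd v I ∧ Ho v I u c ∧ Ho v I (-u) d ∧ c + d = ∑ j, v (I j) then
    (vol v I : ℂ) * ex (-(s * (∑ j, w (I j) - S.wt c - S'.wt d))) else 0

open Classical in
/-- The limit of the symbol of the pairing. -/
noncomputable def P0 (S : Setup v deg w u ci) (S' : Setup v deg w (-u) ci')
    (c d : Fin r → ℤ) : ℂ :=
  ∑ I : Fin r ↪o Fin n, if Nd v I ∧ Ho v I u c ∧ Ho v I (-u) d ∧ c + d = ∑ j, v (I j) then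
    (vol v I : ℂ) * (if ∑ j, w (I j) - S.wt c - S'.wt d = 0 then 1 else 0) else 0

theorem eval_Pp (S : Setup v deg w u ci) (S' : Setup v deg w (-u) ci') (s : ℝ)
    (c d : Fin r → ℤ) : MvPolynomial.eval (crv w s) (Pp v u c d) =
      ex (-(s * S'.wt d)) * PS S S' s c d * ex (-(s * S.wt c)) := by
  classical
  unfold Pp PS
  rw [map_sum, mul_sum, sum_mul]
  refine sum_congr rfl fun I _ => ?_
  by_cases h : Nd v I ∧ Ho v I u c ∧ Ho v I (-u) d ∧ c + d = ∑ j, v (I j)
  · rw [if_pos h, if_pos h, map_mul, MvPolynomial.eval_C, map_prod]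
    simp only [MvPolynomial.eval_X]
    have h1 : ∏ j, crv w s (I j) = ex (-(s * S'.wt d)) *
        ex (-(s * (∑ j, w (I j) - S.wt c - S'.wt d))) * ex (-(s * S.wt c)) := by
      unfold crv
      rw [← ex_sum, ← ex_add, ← ex_add]
      congr 1
      rw [sum_neg_distrib, ← mul_sum]
      ring
    rw [h1]
    ring
  · rw [if_neg h, if_neg h]
    simp

theorem PS_tendsto (S : Setup v deg w u ci) (S' : Setup v deg w (-u) ci')
    (c d : Fin r → ℤ) : Tendsto (fun s => PS S S' s c d) atTop (𝓝 (P0 S S' c d)) := by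
  classical
  unfold PS P0
  refine tendsto_finsetSum _ fun I _ => ?_
  by_cases h : Nd v I ∧ Ho v I u c ∧ Ho v I (-u) d ∧ c + d = ∑ j, v (I j)
  · simp only [if_pos h]
    refine (tendsto_ex ?_).const_mul _
    have := pair_le S S' h.1 h.2.1 h.2.2.1 h.2.2.2
    unfold Setup.wt
    linarith
  · simp only [if_neg h]
    exact tendsto_const_nhds

/-- The rank inequality for nonzero entries of the limit. -/
theorem P0_ne (S : Setup v deg w u ci) (S' : Setup v deg w (-u) ci') {c d : Fin r → ℤ}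
    (h : P0 S S' c d ≠ 0) : om v w (ci c) u ≤ om v w (ci' d) u ∧
      (om v w (ci' d) u ≤ om v w (ci c) u → c + d = ∑ j, v (ci' d j)) := by
  classical
  unfold P0 at h
  obtain ⟨I, -, hI⟩ := exists_ne_zero_of_sum_ne_zero h
  by_cases h1 : Nd v I ∧ Ho v I u c ∧ Ho v I (-u) d ∧ c + d = ∑ j, v (I j)
  · rw [if_pos h1] at hI
    have h2 : ∑ j, w (I j) - S.wt c - S'.wt d = 0 := by
      by_contra h0
      apply hI
      rw [if_neg h0, mul_zero]
    have h3 := pair_rank S S' h1.1 h1.2.1 h1.2.2.1 h1.2.2.2 (by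
      unfold Setup.wt at h2
      linarith)
    refine ⟨h3.1, fun h4 => ?_⟩
    rw [← (h3.2 h4).2]
    exact h1.2.2.2
  · rw [if_neg h1] at hI
    exact absurd rfl hI

theorem vol_ne {I : Fin r ↪o Fin n} (h : Nd v I) : (vol v I : ℂ) ≠ 0 := by
  intro h0
  apply h
  have h1 : vol v I = 0 := by exact_mod_cast h0
  have h2 : Matrix.det (Matrix.of fun j k => v (I j) k) = 0 := abs_eq_zero.1 h1
  have h3 := congrArg (fun z : ℤ => (z : ℝ)) h2
  simp only [Int.cast_zero] at h3
  rw [← h3]
  have h4 := RingHom.map_det (Int.castRingHom ℝ) (Matrix.of fun j k => v (I j) k)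
  rw [show ((Matrix.det (Matrix.of fun j k => v (I j) k) : ℤ) : ℝ) =
    Int.castRingHom ℝ (Matrix.det (Matrix.of fun j k => v (I j) k)) from rfl, h4]
  congr 1

end Pool.Agent.J4.H13.GKZ
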