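import Mathlib
import Pool.Agent.J4.H13.GKZ.Gen

set_option autoImplicit false

/-!
# Generic nondegeneracy of the symbol of the pairing
-/

namespace Pool.Agent.J4.H13.GKZ

open Filter Topology Finset Matrix

variable {r n : ℕ}

variable {v : Fin n → Fin r → ℤ} {deg : (Fin r → ℤ) →+ ℤ} {w : Fin n → ℝ} {u : Fin r → ℝ}
  {ci ci' : (Fin r → ℤ) → (Fin r ↪o Fin n)}

theorem co_ones {I : Fin r ↪o Fin n} (hI : Nd v I) (j : Fin r) :
    co v I (toR (∑ k, v (I k))) j = 1 := by
  rw [toR_sum]
  have h4 : ∑ j, toR (v (I j)) = ∑ j, (1 : ℝ) • toR (v (I j)) := by simp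
  rw [h4, co_sum hI (fun _ => (1 : ℝ))]

theorem box_dual (S : Setup v deg w u ci) (S' : Setup v deg w (-u) ci') {c : Fin r → ℤ}
    (hc : c ∈ Xs v u) (hb : ∀ j, mlt v u ci c j = 0) :
    Ho v (ci c) (-u) (∑ j, v (ci c j) - c) ∧ ci' (∑ j, v (ci c j) - c) = ci c ∧
      ∀ j, mlt v (-u) ci' (∑ j, v (ci c j) - c) j = 0 := by
  have hnd := S.nd hc
  have h1 : ∀ j, co v (ci c) (toR (∑ j, v (ci c j) - c)) j = 1 - co v (ci c) (toR c) j := by
    intro j
    rw [toR_sub, co_sub, Pi.sub_apply, co_ones hnd]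
  have h2 : Ho v (ci c) (-u) (∑ j, v (ci c j) - c) := by
    intro j
    rw [h1, co_neg, Pi.neg_apply]
    have h3 := pos_neg (a := co v (ci c) (toR c) j - 1) (S.une hnd j)
    rw [neg_sub] at h3
    rw [h3]
    have h4 := mu_iff (S.une hnd j) (S.ho c hc j) 1
    rw [Nat.cast_one] at h4
    rw [h4]
    have := hb j
    unfold mlt at this
    omega
  have h3 := S'.uniq (S.tri c hc) h2
  refine ⟨h2, h3, fun j => ?_⟩
  unfold mlt
  rw [h3]
  have h4 := mu_iff (S'.une hnd j) (h2 j) 1
  have h5 : ¬ pos (co v (ci c) (toR (∑ j, v (ci c j) - c)) j - (1 : ℕ)) (co v (ci c) (-u) j) := by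
    rw [h1, co_neg, Pi.neg_apply, Nat.cast_one, show 1 - co v (ci c) (toR c) j - 1 =
      -co v (ci c) (toR c) j by ring, pos_neg (S.une hnd j), not_not]
    exact S.ho c hc j
  rw [h4] at h5
  omega

theorem P0_box (S : Setup v deg w u ci) (S' : Setup v deg w (-u) ci') {c : Fin r → ℤ}
    (hc : c ∈ Xs v u) (hb : ∀ j, mlt v u ci c j = 0) :
    P0 S S' c (∑ j, v (ci c j) - c) = (vol v (ci c) : ℂ) := by
  classical
  obtain ⟨h1, h2, -⟩ := box_dual S S' hc hb
  unfold P0
  rw [Fintype.sum_eq_single (ci c)]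
  · have h3 : ∑ j, w (ci c j) - S.wt c - S'.wt (∑ j, v (ci c j) - c) = 0 := by
      unfold Setup.wt
      rw [h2]
      have h4 : om v w (ci c) (toR c) + om v w (ci c) (toR (∑ j, v (ci c j) - c)) =
          ∑ j, w (ci c j) := by
        rw [← om_add, ← toR_add, add_sub_cancel]
        unfold om
        simp only [co_ones (S.nd hc), one_mul]
      linarith
    rw [if_pos ⟨S.nd hc, S.ho c hc, h1, by abel⟩, if_pos h3, mul_one]
  · intro I hI
    by_cases h5 : Nd v I ∧ Ho v I u c ∧ Ho v I (-u) (∑ j, v (ci c j) - c) ∧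
        c + (∑ j, v (ci c j) - c) = ∑ j, v (I j)
    · rw [if_pos h5]
      by_cases h6 : ∑ j, w (I j) - S.wt c - S'.wt (∑ j, v (ci c j) - c) = 0
      · exfalso
        have h7 := pair_rank S S' h5.1 h5.2.1 h5.2.2.1 h5.2.2.2 (by
          unfold Setup.wt at h6
          linarith)
        exact hI (h7.2 (by rw [h2])).1
      · rw [if_neg h6, mul_zero]
    · rw [if_neg h5]

/-- Triangularity of the limit columns. -/
theorem col0_sum (S : Setup v deg w u ci) {l : ℤ} {d : Fin r → ℤ} (hd : d ∈ S.fs l)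
    (η : (Fin r → ℤ) → ℂ)
    (hη : ∀ d' ∈ S.fs l, S.rk d < S.rk d' → η d' = 0) [∀ c, Decidable (∃ j, mlt v u ci c j ≠ 0)] :
    ∑ d' ∈ S.fs l, (if ∃ j, mlt v u ci d' j ≠ 0 then S.row0 d' d else 0) * η d' =
      if ∃ j, mlt v u ci d j ≠ 0 then η d else 0 := by
  classical
  rw [sum_eq_single d]
  · by_cases h : ∃ j, mlt v u ci d j ≠ 0
    · rw [if_pos h, if_pos h, (S.row0_self (S.mem_fs.1 hd).1 h).1, one_mul]
    · rw [if_neg h, if_neg h, zero_mul]
  · intro d' hd' hne
    by_cases h : ∃ j, mlt v u ci d' j ≠ 0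
    · rw [if_pos h]
      by_cases h0 : S.row0 d' d = 0
      · rw [h0, zero_mul]
      · rw [hη d' hd' ((S.row0_self (S.mem_fs.1 hd').1 h).2 d (Ne.symm hne) h0), mul_zero]
    · rw [if_neg h, zero_mul]
  · intro hn
    exact absurd hd hn

/-- The limit system has only the zero solution. -/
theorem lim_inj (S : Setup v deg w u ci) (S' : Setup v deg w (-u) ci') {k l : ℤ}
    (hkl : k + l = r) [∀ c, Decidable (∃ j, mlt v (-u) ci' c j ≠ 0)] (φ η : (Fin r → ℤ) → ℂ)
    (h1 : ∀ c ∈ S.fs k, (∃ j, mlt v u ci c j ≠ 0) →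
      ∑ c' ∈ S.fs k, S.row0 c c' * φ c' = 0)
    (h2 : ∀ d ∈ S'.fs l, ∑ c ∈ S.fs k, P0 S S' c d * φ c =
      ∑ d' ∈ S'.fs l, (if ∃ j, mlt v (-u) ci' d' j ≠ 0 then S'.row0 d' d else 0) * η d')
    (h3 : ∀ d ∈ S'.fs l, (∀ j, mlt v (-u) ci' d j = 0) → η d = 0) :
    (∀ c ∈ S.fs k, φ c = 0) ∧ ∀ d ∈ S'.fs l, η d = 0 := by
  classical
  have hrk' : ∀ d, S'.rk d = -om v w (ci' d) u := by
    intro d
    unfold Setup.rk
    rw [show (-u) = (-1 : ℝ) • u by simp, om_smul]
    ring
  -- vanishing of `η` below a bound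
  have key : ∀ P : ℝ → Prop, (∀ a b, P a → b ≤ a → P b) →
      (∀ c ∈ S.fs k, P (S.rk c) → φ c = 0) →
      ∀ d ∈ S'.fs l, P (om v w (ci' d) u) → η d = 0 := by
    intro P hP hφ
    by_contra hcon
    push Not at hcon
    obtain ⟨d1, hd1, hd2, hd3⟩ := hcon
    obtain ⟨d, hd, hmin⟩ := ((S'.fs l).filter fun d => P (om v w (ci' d) u) ∧
      η d ≠ 0).exists_min_image (fun d => om v w (ci' d) u) ⟨d1, mem_filter.2 ⟨hd1, hd2, hd3⟩⟩
    obtain ⟨h4, h5, h6⟩ := mem_filter.1 hd
    apply h6
    by_cases hb : ∃ j, mlt v (-u) ci' d j ≠ 0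
    · have h7 := h2 d h4
      have h8 : ∑ c ∈ S.fs k, P0 S S' c d * φ c = 0 := by
        refine sum_eq_zero fun c hc => ?_
        by_cases h9 : P0 S S' c d = 0
        · rw [h9, zero_mul]
        · rw [hφ c hc (hP _ _ h5 (P0_ne S S' h9).1), mul_zero]
      rw [h8, col0_sum S' h4 η (fun d' hd' hlt => by
        by_contra hne
        rw [hrk', hrk'] at hlt
        have h10 : om v w (ci' d') u < om v w (ci' d) u := by linarith
        have := hmin d' (mem_filter.2 ⟨hd', hP _ _ h5 h10.le, hne⟩)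
        linarith), if_pos hb] at h7
      exact h7.symm
    · push Not at hb
      exact h3 d h4 hb
  have hφ : ∀ c ∈ S.fs k, φ c = 0 := by
    by_contra hcon
    push Not at hcon
    obtain ⟨c1, hc1, hc2⟩ := hcon
    obtain ⟨c, hc, hmin⟩ := ((S.fs k).filter fun c => φ c ≠ 0).exists_min_image
      (fun c => S.rk c) ⟨c1, mem_filter.2 ⟨hc1, hc2⟩⟩
    obtain ⟨h4, h5⟩ := mem_filter.1 hc
    have hlow : ∀ c' ∈ S.fs k, S.rk c' < S.rk c → φ c' = 0 := by
      intro c' hc' hlt
      by_contra hne
      have := hmin c' (mem_filter.2 ⟨hc', hne⟩)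
      linarith
    by_cases hb : ∃ j, mlt v u ci c j ≠ 0
    · have := h1 c h4 hb
      rw [S.row0_sum h4 hb φ hlow] at this
      exact h5 this
    · push Not at hb
      obtain ⟨hcX, hck⟩ := S.mem_fs.1 h4
      obtain ⟨h6, h7, h8⟩ := box_dual S S' hcX hb
      set d := ∑ j, v (ci c j) - c with hd
      have hdm : d ∈ S'.fs l := by
        rw [S'.mem_fs]
        refine ⟨h6.mem_Xs (S.nd hcX), ?_⟩
        rw [hd, map_sub, map_sum]
        simp only [S.hdeg]
        simp only [sum_const, card_univ, Fintype.card_fin, nsmul_eq_mul, mul_one]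
        omega
      have h9 := h2 d hdm
      have h10 := key (fun a => a < S.rk c) (fun a b ha hb => lt_of_le_of_lt hb ha)
        (fun c' hc' hlt => hlow c' hc' hlt)
      rw [col0_sum S' hdm η (fun d' hd' hlt => by
        refine h10 d' hd' ?_
        rw [hrk', hrk', h7] at hlt
        unfold Setup.rk
        linarith), if_neg (by push Not; exact h8)] at h9
      rw [sum_eq_single c] at h9
      · rw [hd, P0_box S S' hcX hb] at h9
        exact (mul_ne_zero (vol_ne (S.nd hcX)) h5) h9
      · intro c' hc' hne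
        by_cases h11 : P0 S S' c' d = 0
        · rw [h11, zero_mul]
        · by_cases h12 : φ c' = 0
          · rw [h12, mul_zero]
          · exfalso
            have h13 := P0_ne S S' h11
            have h14 := hmin c' (mem_filter.2 ⟨hc', h12⟩)
            unfold Setup.rk at h14
            rw [h7] at h13
            have h15 := h13.2 h14
            apply hne
            rw [hd] at h15
            exact add_right_cancel (h15.trans (add_sub_cancel c _).symm)
      · intro hn
        exact absurd h4 hn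
  exact ⟨hφ, fun d hd => key (fun _ => True) (fun _ _ _ _ => trivial)
    (fun c hc _ => hφ c hc) d hd trivial⟩

/-- **Generic nondegeneracy of the symbol**, in the form of a linear system with only the zero
solution. -/
theorem gi2 (S : Setup v deg w u ci) (S' : Setup v deg w (-u) ci') {k l : ℤ}
    (hkl : k + l = r) : ∃ D : MvPolynomial (Fin n) ℂ, D ≠ 0 ∧
    ∀ y, MvPolynomial.eval y D ≠ 0 → ∀ φ η : (Fin r → ℤ) → ℂ,
      (∀ c ∈ S.fs k, (∃ j, mlt v u ci c j ≠ 0) →
        ∑ i, (cf v u ci c i : ℂ) * y i * φ (prev v u ci c + v i) = 0) →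
      (∀ d ∈ S'.fs l, (∀ j, mlt v (-u) ci' d j = 0) → η d = 0) →
      (∀ d ∈ S'.fs l, ∑ c ∈ S.fs k, MvPolynomial.eval y (Pp v u c d) * φ c =
        ∑ d' ∈ S'.fs l, η d' * MvPolynomial.eval y (S'.rowP d' d)) →
      ∀ c ∈ S.fs k, φ c = 0 := by
  classical
  let L := {c // c ∈ S.fs k}
  let L' := {c // c ∈ S'.fs l}
  let A : Matrix (L ⊕ (L' ⊕ L')) (L ⊕ L') (MvPolynomial (Fin n) ℂ) := Matrix.of fun a b =>
    match a, b with
    | Sum.inl c, Sum.inl c' => if ∃ j, mlt v u ci c.1 j ≠ 0 then S.rowP c.1 c'.1 else 0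
    | Sum.inl _, Sum.inr _ => 0
    | Sum.inr (Sum.inl d), Sum.inl c => Pp v u c.1 d.1
    | Sum.inr (Sum.inl d), Sum.inr d' =>
        if ∃ j, mlt v (-u) ci' d'.1 j ≠ 0 then -S'.rowP d'.1 d.1 else 0
    | Sum.inr (Sum.inr _), Sum.inl _ => 0
    | Sum.inr (Sum.inr d), Sum.inr d' =>
        if ∃ j, mlt v (-u) ci' d.1 j ≠ 0 then 0 else if d = d' then 1 else 0
  let A' : ℝ → Matrix (L ⊕ (L' ⊕ L')) (L ⊕ L') ℂ := fun s => Matrix.of fun a b =>
    match a, b with
    | Sum.inl c, Sum.inl c' => if ∃ j, mlt v u ci c.1 j ≠ 0 then S.rowS s c.1 c'.1 else 0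
    | Sum.inl _, Sum.inr _ => 0
    | Sum.inr (Sum.inl d), Sum.inl c => PS S S' s c.1 d.1
    | Sum.inr (Sum.inl d), Sum.inr d' =>
        if ∃ j, mlt v (-u) ci' d'.1 j ≠ 0 then -S'.rowS s d'.1 d.1 else 0
    | Sum.inr (Sum.inr _), Sum.inl _ => 0
    | Sum.inr (Sum.inr d), Sum.inr d' =>
        if ∃ j, mlt v (-u) ci' d.1 j ≠ 0 then 0 else if d = d' then 1 else 0
  let A0 : Matrix (L ⊕ (L' ⊕ L')) (L ⊕ L') ℂ := Matrix.of fun a b =>
    match a, b with
    | Sum.inl c, Sum.inl c' => if ∃ j, mlt v u ci c.1 j ≠ 0 then S.row0 c.1 c'.1 else 0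
    | Sum.inl _, Sum.inr _ => 0
    | Sum.inr (Sum.inl d), Sum.inl c => P0 S S' c.1 d.1
    | Sum.inr (Sum.inl d), Sum.inr d' =>
        if ∃ j, mlt v (-u) ci' d'.1 j ≠ 0 then -S'.row0 d'.1 d.1 else 0
    | Sum.inr (Sum.inr _), Sum.inl _ => 0
    | Sum.inr (Sum.inr d), Sum.inr d' =>
        if ∃ j, mlt v (-u) ci' d.1 j ≠ 0 then 0 else if d = d' then 1 else 0
  obtain ⟨D, hD, hD2⟩ := gen_inj A (crv w)
    (fun s a => match a with
      | Sum.inl c => ex (s * S.wt (prev v u ci c.1))
      | Sum.inr (Sum.inl d) => ex (-(s * S'.wt d.1))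
      | Sum.inr (Sum.inr d) => ex (-(s * S'.wt (prev v (-u) ci' d.1))))
    (fun s b => match b with
      | Sum.inl c => ex (-(s * S.wt c.1))
      | Sum.inr d => ex (s * S'.wt (prev v (-u) ci' d.1)))
    (fun s a => by rcases a with c | d | d <;> exact ex_ne _)
    (fun s b => by rcases b with c | d <;> exact ex_ne _)
    A'
    (fun s a b => by
      rcases a with c | d | d <;> rcases b with c' | d'
      · simp only [A, A', Matrix.of_apply]
        by_cases h : ∃ j, mlt v u ci c.1 j ≠ 0
        · rw [if_pos h, if_pos h, S.eval_rowP]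
        · rw [if_neg h, if_neg h]
          simp
      · simp [A, A', Matrix.of_apply]
      · simp only [A, A', Matrix.of_apply]
        rw [eval_Pp S S']
      · simp only [A, A', Matrix.of_apply]
        by_cases h : ∃ j, mlt v (-u) ci' d'.1 j ≠ 0
        · rw [if_pos h, if_pos h, map_neg, S'.eval_rowP]
          ring
        · rw [if_neg h, if_neg h]
          simp
      · simp [A, A', Matrix.of_apply]
      · simp only [A, A', Matrix.of_apply]
        by_cases h : ∃ j, mlt v (-u) ci' d.1 j ≠ 0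
        · rw [if_pos h, if_pos h]
          simp
        · rw [if_neg h, if_neg h]
          by_cases h2 : d = d'
          · subst h2
            rw [if_pos rfl, if_pos rfl, map_one, mul_one, ← ex_add, neg_add_cancel, ex_zero]
          · rw [if_neg h2, if_neg h2]
            simp)
    A0
    (fun a b => by
      rcases a with c | d | d <;> rcases b with c' | d'
      · simp only [A', A0, Matrix.of_apply]
        by_cases h : ∃ j, mlt v u ci c.1 j ≠ 0
        · simp only [if_pos h]
          exact S.rowS_tendsto (S.mem_fs.1 c.2).1 h _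
        · simp only [if_neg h]
          exact tendsto_const_nhds
      · simp only [A', A0, Matrix.of_apply]
        exact tendsto_const_nhds
      · simp only [A', A0, Matrix.of_apply]
        exact PS_tendsto S S' _ _
      · simp only [A', A0, Matrix.of_apply]
        by_cases h : ∃ j, mlt v (-u) ci' d'.1 j ≠ 0
        · simp only [if_pos h]
          exact (S'.rowS_tendsto (S'.mem_fs.1 d'.2).1 h _).neg
        · simp only [if_neg h]
          exact tendsto_const_nhds
      · simp only [A', A0, Matrix.of_apply]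
        exact tendsto_const_nhds
      · simp only [A', A0, Matrix.of_apply]
        exact tendsto_const_nhds)
    (fun z hz => by
      let φ : (Fin r → ℤ) → ℂ := fun c => if h : c ∈ S.fs k then z (Sum.inl ⟨c, h⟩) else 0
      let η : (Fin r → ℤ) → ℂ := fun c => if h : c ∈ S'.fs l then z (Sum.inr ⟨c, h⟩) else 0
      have hφ : ∀ c : L, φ c.1 = z (Sum.inl c) := fun c => by
        simp only [φ, c.2, dif_pos]
        rfl
      have hη : ∀ c : L', η c.1 = z (Sum.inr c) := fun c => by
        simp only [η, c.2, dif_pos]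
        rfl
      obtain ⟨h1, h2⟩ := lim_inj S S' hkl φ η
        (fun c hc hb => by
          have hrow := congrFun hz (Sum.inl ⟨c, hc⟩)
          simp only [Matrix.mulVec, dotProduct, A0, Matrix.of_apply, Pi.zero_apply,
            Fintype.sum_sum_type, if_pos hb, zero_mul, sum_const_zero, add_zero] at hrow
          rw [← hrow, ← sum_coe_sort (S.fs k)]
          exact sum_congr rfl fun c' _ => by rw [hφ])
        (fun d hd => by
          have hrow := congrFun hz (Sum.inr (Sum.inl ⟨d, hd⟩))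
          simp only [Matrix.mulVec, dotProduct, A0, Matrix.of_apply, Pi.zero_apply,
            Fintype.sum_sum_type] at hrow
          have h3 := eq_neg_of_add_eq_zero_left hrow
          rw [← sum_coe_sort (S.fs k), ← sum_coe_sort (S'.fs l)]
          rw [show ∑ c : L, P0 S S' c.1 d * φ c.1 = ∑ c : L, P0 S S' c.1 d * z (Sum.inl c) from
            sum_congr rfl fun c' _ => by rw [hφ]]
          rw [h3, ← sum_neg_distrib]
          refine sum_congr rfl fun d' _ => ?_
          rw [hη]
          split_ifs <;> simp)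
        (fun d hd hb => by
          have hrow := congrFun hz (Sum.inr (Sum.inr ⟨d, hd⟩))
          have hb' : ¬ ∃ j, mlt v (-u) ci' d j ≠ 0 := by push Not; exact hb
          simp only [Matrix.mulVec, dotProduct, A0, Matrix.of_apply, Pi.zero_apply,
            Fintype.sum_sum_type, if_neg hb', zero_mul, sum_const_zero, zero_add] at hrow
          rw [sum_eq_single ⟨d, hd⟩, if_pos rfl, one_mul] at hrow
          · rw [show d = (⟨d, hd⟩ : L').1 from rfl, hη]
            exact hrow
          · intro c' _ hne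
            rw [if_neg (Ne.symm hne), zero_mul]
          · intro hn
            exact absurd (mem_univ _) hn)
      funext a
      rcases a with c | d
      · rw [← hφ]
        exact h1 c.1 c.2
      · rw [← hη]
        exact h2 d.1 d.2)
  refine ⟨D, hD, fun y hy φ η h1 h2 h3 c hc => ?_⟩
  have h4 := hD2 y hy (Sum.elim (fun c : L => φ c.1) (fun d : L' => η d.1)) (by
    funext a
    rcases a with c | d | d
    · simp only [Matrix.mulVec, dotProduct, Matrix.map_apply, Pi.zero_apply, A, Matrix.of_apply,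
        Fintype.sum_sum_type, Sum.elim_inl, Sum.elim_inr, map_zero, zero_mul, sum_const_zero,
        add_zero]
      by_cases h : ∃ j, mlt v u ci c.1 j ≠ 0
      · simp only [if_pos h]
        rw [← h1 c.1 c.2 h, ← S.row_sum c.2 h y φ, ← sum_coe_sort (S.fs k)]
      · simp only [if_neg h, map_zero, zero_mul, sum_const_zero]
    · simp only [Matrix.mulVec, dotProduct, Matrix.map_apply, Pi.zero_apply, A, Matrix.of_apply,
        Fintype.sum_sum_type, Sum.elim_inl, Sum.elim_inr]
      have h5 := h3 d.1 d.2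
      rw [← sum_coe_sort (S.fs k), ← sum_coe_sort (S'.fs l)] at h5
      rw [h5, ← sum_add_distrib]
      refine sum_eq_zero fun d' _ => ?_
      by_cases h : ∃ j, mlt v (-u) ci' d'.1 j ≠ 0
      · rw [if_pos h, map_neg]
        ring
      · rw [if_neg h]
        push Not at h
        rw [h2 d'.1 d'.2 h]
        simp
    · simp only [Matrix.mulVec, dotProduct, Matrix.map_apply, Pi.zero_apply, A, Matrix.of_apply,
        Fintype.sum_sum_type, Sum.elim_inl, Sum.elim_inr, map_zero, zero_mul, sum_const_zero,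
        zero_add]
      by_cases h : ∃ j, mlt v (-u) ci' d.1 j ≠ 0
      · simp only [if_pos h, map_zero, zero_mul, sum_const_zero]
      · simp only [if_neg h]
        push Not at h
        rw [sum_eq_single d]
        · rw [h2 d.1 d.2 h, mul_zero]
        · intro c' _ hne
          rw [if_neg (Ne.symm hne)]
          simp
        · intro hn
          exact absurd (mem_univ _) hn)
  exact congrFun h4 (Sum.inl ⟨c, hc⟩)

end Pool.Agent.J4.H13.GKZ
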