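import Mathlib
import Pool.Agent.J4.H13.GKZ.Gen2

set_option autoImplicit false

/-!
# Solutions at a point: freeness and lifting
-/

namespace Pool.Agent.J4.H13.GKZ

open Filter Topology Finset

variable {r n : ℕ}

/-- The space of finite combinations of lattice points. -/
abbrev US (r : ℕ) := (Fin r → ℤ) →₀ ℂ

/-- The basis vectors. -/
noncomputable def sg (c : Fin r → ℤ) : US r := Finsupp.single c 1

/-- The symbols of the relations. -/
noncomputable def Zo (v : Fin n → Fin r → ℤ) (y : Fin n → ℂ) (κ : Fin r) : Module.End ℂ (US r) :=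
  Finsupp.linearCombination ℂ fun c => ∑ i, ((v i κ : ℂ) * y i) • sg (c + v i)

/-- The relations. -/
noncomputable def Eo (v : Fin n → Fin r → ℤ) (y : Fin n → ℂ) (β : Fin r → ℂ) (κ : Fin r) :
    Module.End ℂ (US r) :=
  Finsupp.linearCombination ℂ fun c =>
    ((c κ : ℂ) - β κ) • sg c + ∑ i, ((v i κ : ℂ) * y i) • sg (c + v i)

theorem Zo_sg (v : Fin n → Fin r → ℤ) (y : Fin n → ℂ) (κ : Fin r) (c : Fin r → ℤ) :
    Zo v y κ (sg c) = ∑ i, ((v i κ : ℂ) * y i) • sg (c + v i) := by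
  unfold Zo sg
  rw [Finsupp.linearCombination_single, one_smul]

theorem Eo_sg (v : Fin n → Fin r → ℤ) (y : Fin n → ℂ) (β : Fin r → ℂ) (κ : Fin r)
    (c : Fin r → ℤ) : Eo v y β κ (sg c) =
      ((c κ : ℂ) - β κ) • sg c + ∑ i, ((v i κ : ℂ) * y i) • sg (c + v i) := by
  unfold Eo sg
  rw [Finsupp.linearCombination_single, one_smul]

theorem Zo_eq (v : Fin n → Fin r → ℤ) (y : Fin n → ℂ) (β : Fin r → ℂ) (κ : Fin r)
    (c : Fin r → ℤ) : Zo v y κ (sg c) = Eo v y β κ (sg c) - ((c κ : ℂ) - β κ) • sg c := by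
  rw [Zo_sg, Eo_sg]
  abel

theorem end_ext {f g : Module.End ℂ (US r)} (h : ∀ c, f (sg c) = g (sg c)) : f = g := by
  refine Finsupp.lhom_ext' fun c => LinearMap.ext_ring ?_
  exact h c

theorem Eo_comm (v : Fin n → Fin r → ℤ) (y : Fin n → ℂ) (β : Fin r → ℂ) (κ κ' : Fin r) :
    Eo v y β κ * Eo v y β κ' = Eo v y β κ' * Eo v y β κ := by
  refine end_ext fun c => ?_
  rw [Module.End.mul_apply, Module.End.mul_apply, Eo_sg, Eo_sg]
  simp only [map_add, map_smul, map_sum, Eo_sg, smul_add, smul_sum, smul_smul, Pi.add_apply,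
    Int.cast_add]
  have h1 : ∀ κ κ' : Fin r, ∑ i, ((v i κ' : ℂ) * y i * ((c κ : ℂ) + (v i κ : ℂ) - β κ)) •
      sg (c + v i) = ∑ i, ((v i κ' : ℂ) * y i * ((c κ : ℂ) - β κ)) • sg (c + v i) +
        ∑ i, ((v i κ' : ℂ) * (v i κ : ℂ) * y i) • sg (c + v i) := by
    intro κ κ'
    rw [← sum_add_distrib]
    refine sum_congr rfl fun i _ => ?_
    rw [← add_smul]
    congr 1
    ring
  have h2 : ∑ i, ∑ i', ((v i κ' : ℂ) * y i * ((v i' κ : ℂ) * y i')) • sg (c + v i + v i') =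
      ∑ i, ∑ i', ((v i κ : ℂ) * y i * ((v i' κ' : ℂ) * y i')) • sg (c + v i + v i') := by
    rw [sum_comm]
    refine sum_congr rfl fun i _ => sum_congr rfl fun i' _ => ?_
    rw [show c + v i' + v i = c + v i + v i' by abel]
    congr 1
    ring
  rw [sum_add_distrib, sum_add_distrib, h1, h1, h2]
  have h3 : ((c κ' : ℂ) - β κ') * ((c κ : ℂ) - β κ) = ((c κ : ℂ) - β κ) * ((c κ' : ℂ) - β κ') :=
    mul_comm _ _
  have h4 : ∑ i, ((v i κ' : ℂ) * (v i κ : ℂ) * y i) • sg (c + v i) =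
      ∑ i, ((v i κ : ℂ) * (v i κ' : ℂ) * y i) • sg (c + v i) := by
    refine sum_congr rfl fun i _ => ?_
    rw [mul_comm (v i κ' : ℂ)]
  have h5 : ∀ κ κ' : Fin r, ∑ i, ((v i κ' : ℂ) * y i * ((c κ : ℂ) - β κ)) • sg (c + v i) =
      ∑ i, (((c κ : ℂ) - β κ) * ((v i κ' : ℂ) * y i)) • sg (c + v i) := by
    intro κ κ'
    refine sum_congr rfl fun i _ => ?_
    rw [mul_comm]
  rw [h3, h4, h5, h5]
  abel

/-- The monomials in the relations. -/
noncomputable def Epow (v : Fin n → Fin r → ℤ) (y : Fin n → ℂ) (β : Fin r → ℂ) (m : Fin r → ℕ) :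
    Module.End ℂ (US r) :=
  univ.noncommProd (fun κ => Eo v y β κ ^ m κ) fun κ _ κ' _ _ =>
    (show Commute (Eo v y β κ) (Eo v y β κ') from Eo_comm v y β κ κ').pow_pow _ _

theorem Epow_zero (v : Fin n → Fin r → ℤ) (y : Fin n → ℂ) (β : Fin r → ℂ) {m : Fin r → ℕ}
    (hm : ∀ j, m j = 0) : Epow v y β m = 1 := by
  unfold Epow
  rw [Finset.noncommProd_eq_pow_card _ _ _ (1 : Module.End ℂ (US r)) (fun κ _ => by
    rw [hm κ, pow_zero]), one_pow]

theorem Epow_succ (v : Fin n → Fin r → ℤ) (y : Fin n → ℂ) (β : Fin r → ℂ) {m m' : Fin r → ℕ}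
    (κ : Fin r) (h1 : m' κ = m κ + 1) (h2 : ∀ j, j ≠ κ → m' j = m j) :
    Eo v y β κ * Epow v y β m = Epow v y β m' := by
  classical
  unfold Epow
  rw [← Finset.mul_noncommProd_erase univ (mem_univ κ) (fun κ => Eo v y β κ ^ m κ),
    ← Finset.mul_noncommProd_erase univ (mem_univ κ) (fun κ => Eo v y β κ ^ m' κ), ← mul_assoc,
    ← pow_succ', h1]
  congr 1
  refine Finset.noncommProd_congr rfl (fun j hj => ?_) _
  rw [h2 j (ne_of_mem_erase hj)]

variable {v : Fin n → Fin r → ℤ} {deg : (Fin r → ℤ) →+ ℤ} {w : Fin n → ℝ} {u : Fin r → ℝ}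
  {ci ci' : (Fin r → ℤ) → (Fin r ↪o Fin n)}

/-- The basis adapted to the relations. -/
noncomputable def eb (v : Fin n → Fin r → ℤ) (u : Fin r → ℝ)
    (ci : (Fin r → ℤ) → (Fin r ↪o Fin n)) (y : Fin n → ℂ) (β : Fin r → ℂ) (c : Fin r → ℤ) :
    US r := Epow v y β (mlt v u ci c) (sg (base v u ci c))

theorem eb_box (S : Setup v deg w u ci) (y : Fin n → ℂ) (β : Fin r → ℂ) {c : Fin r → ℤ}
    (hb : ∀ j, mlt v u ci c j = 0) : eb v u ci y β c = sg c := by
  unfold eb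
  rw [Epow_zero v y β hb]
  have : base v u ci c = c := by
    have := S.base_add c
    simpa [hb] using this
  rw [this]
  rfl

theorem Eo_eb (S : Setup v deg w u ci) (y : Fin n → ℂ) (β : Fin r → ℂ) {c : Fin r → ℤ}
    (hc : c ∈ Xs v u) (κ : Fin r) :
    Eo v y β κ (eb v u ci y β c) = eb v u ci y β (c + v (ci c κ)) := by
  classical
  have h0 : c + v (ci c κ) = c + ∑ k, (if k = κ then 1 else 0 : ℕ) • v (ci c k) := by
    rw [Setup.single_comb]
  unfold eb
  rw [← Module.End.mul_apply, Epow_succ (m' := mlt v u ci (c + v (ci c κ)))]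
  · rw [h0, S.up_base hc]
  · rw [h0, S.up_mlt hc]
    simp
  · intro j hj
    rw [h0, S.up_mlt hc]
    simp [hj]

/-- The hypothesis at the point `y`: boxes and rows span in low degrees. -/
def H1 (S : Setup v deg w u ci) (y : Fin n → ℂ) : Prop :=
  ∀ k : ℤ, 0 ≤ k → k ≤ r + 1 → ∀ φ : (Fin r → ℤ) → ℂ,
    (∀ c ∈ S.fs k, (∀ j, mlt v u ci c j = 0) → φ c = 0) →
    (∀ c ∈ S.fs k, (∃ j, mlt v u ci c j ≠ 0) →
      ∑ i, (cf v u ci c i : ℂ) * y i * φ (prev v u ci c + v i) = 0) →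
    ∀ c ∈ S.fs k, φ c = 0

/-- Rows are combinations of the symbols of the relations. -/
theorem row_of_rel (S : Setup v deg w u ci) {c : Fin r → ℤ} (hc : c ∈ Xs v u)
    (h : ∃ j, mlt v u ci c j ≠ 0) (y : Fin n → ℂ) (φ : (Fin r → ℤ) → ℂ)
    (hφ : ∀ κ, ∑ i, ((v i κ : ℂ) * y i) * φ (prev v u ci c + v i) = 0) :
    ∑ i, (cf v u ci c i : ℂ) * y i * φ (prev v u ci c + v i) = 0 := by
  obtain ⟨j, -, -, -, h4⟩ := S.prev_spec hc h
  have h5 : ∀ i, (cf v u ci c i : ℂ) = ∑ κ, (v i κ : ℂ) * (((mat v (ci c))⁻¹ κ j : ℝ) : ℂ) := by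
    intro i
    rw [h4 i]
    unfold co
    simp only [Matrix.vecMul, dotProduct, toR]
    push_cast
    rfl
  have h6 : ∑ i, (cf v u ci c i : ℂ) * y i * φ (prev v u ci c + v i) =
      ∑ κ, (((mat v (ci c))⁻¹ κ j : ℝ) : ℂ) *
        ∑ i, ((v i κ : ℂ) * y i) * φ (prev v u ci c + v i) := by
    simp only [mul_sum]
    rw [sum_comm]
    refine sum_congr rfl fun i _ => ?_
    rw [h5, sum_mul, sum_mul]
    refine sum_congr rfl fun κ _ => ?_
    ring
  rw [h6]
  refine sum_eq_zero fun κ _ => ?_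
  rw [hφ κ, mul_zero]

/-- The span of the boxes and of the symbols of the relations in degree `k`. -/
noncomputable def Wk (S : Setup v deg w u ci) (y : Fin n → ℂ) (k : ℤ) : Submodule ℂ (US r) :=
  Submodule.span ℂ ({x | ∃ c ∈ S.fs k, (∀ j, mlt v u ci c j = 0) ∧ x = sg c} ∪
    {x | ∃ c ∈ S.fs (k - 1), ∃ κ, x = Zo v y κ (sg c)})

theorem mem_fs_prev' (S : Setup v deg w u ci) {k : ℤ} {c : Fin r → ℤ} (hc : c ∈ S.fs k)
    (h : ∃ j, mlt v u ci c j ≠ 0) : prev v u ci c ∈ S.fs (k - 1) := by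
  obtain ⟨hX, hk⟩ := S.mem_fs.1 hc
  obtain ⟨j, h1, h2, -⟩ := S.prev_spec hX h
  refine S.mem_fs.2 ⟨h2, ?_⟩
  have h3 := congrArg deg h1
  rw [map_add, S.hdeg, hk] at h3
  omega

theorem sg_mem_low (S : Setup v deg w u ci) {y : Fin n → ℂ} (hy : H1 S y) {k : ℤ} (h0 : 0 ≤ k)
    (hk : k ≤ r + 1) {c : Fin r → ℤ} (hc : c ∈ S.fs k) : sg c ∈ Wk S y k := by
  by_contra hcon
  obtain ⟨f, hf, hker⟩ := Submodule.exists_le_ker_of_notMem hcon
  apply hf
  refine hy k h0 hk (fun c => f (sg c)) (fun b hb hbox => ?_) (fun d hd hnb => ?_) c hc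
  · exact hker (Submodule.subset_span (Or.inl ⟨b, hb, hbox, rfl⟩))
  · refine row_of_rel S (S.mem_fs.1 hd).1 hnb y (fun c => f (sg c)) fun κ => ?_
    have h1 : f (Zo v y κ (sg (prev v u ci d))) = 0 :=
      hker (Submodule.subset_span (Or.inr ⟨_, mem_fs_prev' S hd hnb, κ, rfl⟩))
    rw [Zo_sg, map_sum] at h1
    simpa only [map_smul, smul_eq_mul] using h1

/-- The shifts. -/
noncomputable def Sh (v : Fin n → Fin r → ℤ) (i : Fin n) : Module.End ℂ (US r) :=
  Finsupp.linearCombination ℂ fun c => sg (c + v i)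

theorem Sh_sg (v : Fin n → Fin r → ℤ) (i : Fin n) (c : Fin r → ℤ) :
    Sh v i (sg c) = sg (c + v i) := by
  unfold Sh
  rw [sg, Finsupp.linearCombination_single, one_smul]

theorem Sh_Zo (v : Fin n → Fin r → ℤ) (y : Fin n → ℂ) (i : Fin n) (κ : Fin r) (c : Fin r → ℤ) :
    Sh v i (Zo v y κ (sg c)) = Zo v y κ (sg (c + v i)) := by
  rw [Zo_sg, Zo_sg, map_sum]
  refine sum_congr rfl fun i' _ => ?_
  rw [map_smul, Sh_sg, add_right_comm]

theorem nonbox_of_deg (S : Setup v deg w u ci) {k : ℤ} (hk : (r : ℤ) < k) {c : Fin r → ℤ}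
    (hc : c ∈ S.fs k) : ∃ j, mlt v u ci c j ≠ 0 := by
  by_contra hcon
  push Not at hcon
  have := S.box_deg_le (S.mem_fs.1 hc).1 hcon
  rw [(S.mem_fs.1 hc).2] at this
  omega

theorem sg_mem (S : Setup v deg w u ci) {y : Fin n → ℂ} (hy : H1 S y) {k : ℤ}
    {c : Fin r → ℤ} (hc : c ∈ S.fs k) : sg c ∈ Wk S y k := by
  have h0 : 0 ≤ k := by
    rw [← (S.mem_fs.1 hc).2]
    exact S.deg_nonneg (S.mem_fs.1 hc).1
  rcases le_total k (r + 1) with h1 | h1
  · exact sg_mem_low S hy h0 h1 hc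
  · induction k, h1 using Int.leInduction generalizing c with
    | base => exact sg_mem_low S hy h0 le_rfl hc
    | succ k hk ih =>
      have hnb := nonbox_of_deg S (by omega) hc
      have hp := mem_fs_prev' S hc hnb
      rw [add_sub_cancel_right] at hp
      obtain ⟨j, h2, -⟩ := S.prev_spec (S.mem_fs.1 hc).1 hnb
      have h3 := ih hp (by omega)
      have h4 : Wk S y k ≤ (Wk S y (k + 1)).comap (Sh v (ci c j)) := by
        refine Submodule.span_le.2 ?_
        rintro x (⟨b, hb, hbox, rfl⟩ | ⟨d, hd, κ, rfl⟩)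
        · exfalso
          obtain ⟨j', hj'⟩ := nonbox_of_deg S (by omega) hb
          exact hj' (hbox j')
        · rw [SetLike.mem_coe, Submodule.mem_comap, Sh_Zo]
          refine Submodule.subset_span (Or.inr ⟨d + v (ci c j), ?_, κ, rfl⟩)
          rw [S.mem_fs] at hd ⊢
          refine ⟨Xs_add hd.1 _, ?_⟩
          rw [map_add, S.hdeg, hd.2]
          omega
      have h5 := h4 h3
      rw [Submodule.mem_comap, Sh_sg, h2] at h5
      exact h5

/-- The adapted vectors span. -/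
theorem sg_mem_eb (S : Setup v deg w u ci) {y : Fin n → ℂ} (hy : H1 S y) (β : Fin r → ℂ)
    (k : ℕ) {c : Fin r → ℤ} (hc : c ∈ Xs v u) (hk : deg c ≤ k) :
    sg c ∈ Submodule.span ℂ {x | ∃ c' ∈ Xs v u, deg c' ≤ k ∧ x = eb v u ci y β c'} := by
  induction k using Nat.strong_induction_on generalizing c with
  | _ k ih =>
    have h0 := S.deg_nonneg hc
    have h1 := sg_mem S hy (S.mem_fs.2 ⟨hc, rfl⟩)
    refine (Submodule.span_le.2 ?_) h1
    rintro x (⟨b, hb, hbox, rfl⟩ | ⟨d, hd, κ, rfl⟩)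
    · refine Submodule.subset_span ⟨b, (S.mem_fs.1 hb).1, ?_, (eb_box S y β hbox).symm⟩
      rw [(S.mem_fs.1 hb).2]
      exact hk
    · have hd' := S.mem_fs.1 hd
      have hd0 := S.deg_nonneg hd'.1
      have hkpos : 0 < k := by omega
      have h2 := ih (k - 1) (by omega) hd'.1 (by push_cast [Nat.cast_sub hkpos]; omega)
      rw [Zo_eq v y β]
      refine Submodule.sub_mem _ ?_ (Submodule.smul_mem _ _ ?_)
      · have h3 : Submodule.span ℂ {x | ∃ c' ∈ Xs v u, deg c' ≤ ((k - 1 : ℕ) : ℤ) ∧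
            x = eb v u ci y β c'} ≤ (Submodule.span ℂ {x | ∃ c' ∈ Xs v u, deg c' ≤ (k : ℤ) ∧
            x = eb v u ci y β c'}).comap (Eo v y β κ) := by
          refine Submodule.span_le.2 ?_
          rintro x ⟨c', hc', hdeg', rfl⟩
          rw [SetLike.mem_coe, Submodule.mem_comap, Eo_eb S y β hc']
          refine Submodule.subset_span ⟨_, Xs_add hc' _, ?_, rfl⟩
          rw [map_add, S.hdeg]
          omega
        exact h3 h2
      · refine Submodule.span_mono ?_ h2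
        rintro x ⟨c', hc', hdeg', rfl⟩
        exact ⟨c', hc', by omega, rfl⟩

end Pool.Agent.J4.H13.GKZ
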