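import Mathlib
import Pool.Agent.J4.H13.GKZ.Free

set_option autoImplicit false

/-!
# Lifting of symbols to solutions at a point, and the nondegeneracy at a point
-/

namespace Pool.Agent.J4.H13.GKZ

open Filter Topology Finset

variable {r n : ℕ}

variable {v : Fin n → Fin r → ℤ} {deg : (Fin r → ℤ) →+ ℤ} {w : Fin n → ℝ} {u : Fin r → ℝ}
  {ci ci' : (Fin r → ℤ) → (Fin r ↪o Fin n)}

/-- The finite set of the points of degree at most `K`. -/
noncomputable def fle (S : Setup v deg w u ci) (K : ℕ) : Finset (Fin r → ℤ) :=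
  (Finset.Icc (0 : ℤ) K).biUnion S.fs

theorem mem_fle (S : Setup v deg w u ci) {K : ℕ} {c : Fin r → ℤ} :
    c ∈ fle S K ↔ c ∈ Xs v u ∧ deg c ≤ K := by
  unfold fle
  rw [mem_biUnion]
  constructor
  · rintro ⟨k, hk, hc⟩
    have h1 := S.mem_fs.1 hc
    exact ⟨h1.1, by rw [h1.2]; exact (mem_Icc.1 hk).2⟩
  · rintro ⟨hc, hk⟩
    exact ⟨deg c, mem_Icc.2 ⟨S.deg_nonneg hc, hk⟩, S.mem_fs.2 ⟨hc, rfl⟩⟩

theorem li_sg {ι : Type} (f : ι → (Fin r → ℤ)) (hf : Function.Injective f) :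
    LinearIndependent ℂ fun i => sg (f i) := by
  have h := (Finsupp.basisSingleOne (R := ℂ) (ι := Fin r → ℤ)).linearIndependent
  rw [Finsupp.coe_basisSingleOne] at h
  exact h.comp f hf

theorem li_fle (S : Setup v deg w u ci) {y : Fin n → ℂ} (hy : H1 S y) (β : Fin r → ℂ) (K : ℕ) :
    LinearIndependent ℂ fun c : fle S K => eb v u ci y β c.1 := by
  rw [linearIndependent_iff_card_le_finrank_span]
  have h1 := li_sg (fun c : fle S K => c.1) Subtype.val_injective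
  have h2 := finrank_span_eq_card h1
  rw [← h2]
  unfold Set.finrank
  haveI : Module.Finite ℂ (Submodule.span ℂ (Set.range fun c : fle S K => eb v u ci y β c.1)) :=
    FiniteDimensional.span_of_finite ℂ (Set.finite_range _)
  refine Submodule.finrank_mono (Submodule.span_le.2 ?_)
  rintro x ⟨c, rfl⟩
  have h3 := (mem_fle S).1 c.2
  have h4 := sg_mem_eb S hy β K h3.1 h3.2
  refine (Submodule.span_mono ?_) h4
  rintro x ⟨c', hc', hd, rfl⟩
  exact ⟨⟨c', (mem_fle S).2 ⟨hc', hd⟩⟩, rfl⟩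

theorem li_eb (S : Setup v deg w u ci) {y : Fin n → ℂ} (hy : H1 S y) (β : Fin r → ℂ) :
    LinearIndepOn ℂ (eb v u ci y β) (Xs v u) := by
  refine linearIndepOn_of_finite _ fun t ht hfin => ?_
  obtain ⟨K, hK⟩ : ∃ K : ℕ, ∀ c ∈ t, deg c ≤ K := by
    obtain ⟨K, hK⟩ := (hfin.image deg).bddAbove
    refine ⟨K.toNat, fun c hc => (hK ⟨c, hc, rfl⟩).trans (Int.self_le_toNat K)⟩
  have h1 : LinearIndepOn ℂ (eb v u ci y β) (fle S K : Set (Fin r → ℤ)) := li_fle S hy β K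
  exact h1.mono fun c hc => (mem_fle S).2 ⟨ht hc, hK c hc⟩

theorem exists_functional (S : Setup v deg w u ci) {y : Fin n → ℂ} (hy : H1 S y)
    (β : Fin r → ℂ) (g : (Fin r → ℤ) → ℂ) :
    ∃ ψ : US r →ₗ[ℂ] ℂ, ∀ c ∈ Xs v u, ψ (eb v u ci y β c) = g c := by
  have hli : LinearIndependent ℂ fun c : Xs v u => eb v u ci y β c.1 := li_eb S hy β
  obtain ⟨ψ, hψ⟩ := LinearMap.exists_extend
    ((Finsupp.linearCombination ℂ (fun c : Xs v u => g c.1)).comp hli.repr)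
  refine ⟨ψ, fun c hc => ?_⟩
  have h1 : eb v u ci y β c ∈ Submodule.span ℂ (Set.range fun c : Xs v u => eb v u ci y β c.1) :=
    Submodule.subset_span ⟨⟨c, hc⟩, rfl⟩
  have h2 := LinearMap.congr_fun hψ ⟨_, h1⟩
  rw [LinearMap.comp_apply, LinearMap.comp_apply,
    hli.repr_eq_single ⟨c, hc⟩ ⟨_, h1⟩ rfl, Finsupp.linearCombination_single, one_smul] at h2
  exact h2

/-- The relations of the better-behaved GKZ system at the point `y`. -/
def Rel (v : Fin n → Fin r → ℤ) (y : Fin n → ℂ) (β : Fin r → ℂ) (X : Set (Fin r → ℤ))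
    (ψ : (Fin r → ℤ) → ℂ) : Prop :=
  ∀ c ∈ X, ∀ κ, ((c κ : ℂ) - β κ) * ψ c + ∑ i, ((v i κ : ℂ) * y i) * ψ (c + v i) = 0

/-- Symbols can be lifted. -/
theorem lift (S : Setup v deg w u ci) {y : Fin n → ℂ} (hy : H1 S y) (β : Fin r → ℂ) (l : ℤ)
    (g : (Fin r → ℤ) → ℂ) : ∃ ψ : (Fin r → ℤ) → ℂ, Rel v y β (Xs v u) ψ ∧
      (∀ c ∈ Xs v u, deg c < l → ψ c = 0) ∧
      ∀ c ∈ S.fs l, (∀ j, mlt v u ci c j = 0) → ψ c = g c := by
  classical
  obtain ⟨ψ, hψ⟩ := exists_functional S hy β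
    (fun c => if (∀ j, mlt v u ci c j = 0) ∧ deg c = l then g c else 0)
  refine ⟨fun c => ψ (sg c), fun c hc κ => ?_, fun c hc hlt => ?_, fun c hc hb => ?_⟩
  · have h1 : ψ (Eo v y β κ (sg c)) = 0 := by
      have h2 := sg_mem_eb S hy β (deg c).toNat hc (Int.self_le_toNat _)
      have h3 : Submodule.span ℂ {x | ∃ c' ∈ Xs v u, deg c' ≤ ((deg c).toNat : ℤ) ∧
          x = eb v u ci y β c'} ≤ LinearMap.ker (ψ.comp (Eo v y β κ)) := by
        refine Submodule.span_le.2 ?_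
        rintro x ⟨c', hc', -, rfl⟩
        rw [SetLike.mem_coe, LinearMap.mem_ker, LinearMap.comp_apply, Eo_eb S y β hc',
          hψ _ (Xs_add hc' _), if_neg]
        rintro ⟨h4, -⟩
        have h5 := h4 κ
        have h0 : c' + v (ci c' κ) = c' + ∑ k, (if k = κ then 1 else 0 : ℕ) • v (ci c' k) := by
          rw [Setup.single_comb]
        rw [h0, S.up_mlt hc'] at h5
        simp at h5
      exact h3 h2
    rw [Eo_sg, map_add, map_smul, map_sum] at h1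
    simpa only [map_smul, smul_eq_mul] using h1
  · have h2 := sg_mem_eb S hy β (deg c).toNat hc (Int.self_le_toNat _)
    have h3 : Submodule.span ℂ {x | ∃ c' ∈ Xs v u, deg c' ≤ ((deg c).toNat : ℤ) ∧
        x = eb v u ci y β c'} ≤ LinearMap.ker ψ := by
      refine Submodule.span_le.2 ?_
      rintro x ⟨c', hc', hd, rfl⟩
      rw [SetLike.mem_coe, LinearMap.mem_ker, hψ _ hc', if_neg]
      rintro ⟨-, h4⟩
      rw [Int.toNat_of_nonneg (S.deg_nonneg hc)] at hd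
      omega
    exact h3 h2
  · have hc' := S.mem_fs.1 hc
    show ψ (sg c) = g c
    rw [← eb_box S y β hb, hψ c hc'.1, if_pos ⟨hb, hc'.2⟩]

/-- Uniqueness in one degree. -/
theorem uniq_deg (S : Setup v deg w u ci) {y : Fin n → ℂ} (hy : H1 S y) {l : ℤ} (h0 : 0 ≤ l)
    (hl : l ≤ r + 1) {ψ1 ψ2 : (Fin r → ℤ) → ℂ}
    (hb : ∀ c ∈ S.fs l, (∀ j, mlt v u ci c j = 0) → ψ1 c = ψ2 c)
    (h1 : ∀ c ∈ S.fs l, (∃ j, mlt v u ci c j ≠ 0) →
      ∑ i, (cf v u ci c i : ℂ) * y i * ψ1 (prev v u ci c + v i) = 0)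
    (h2 : ∀ c ∈ S.fs l, (∃ j, mlt v u ci c j ≠ 0) →
      ∑ i, (cf v u ci c i : ℂ) * y i * ψ2 (prev v u ci c + v i) = 0) :
    ∀ c ∈ S.fs l, ψ1 c = ψ2 c := by
  intro c hc
  have := hy l h0 hl (fun c => ψ1 c - ψ2 c) (fun c hc hbox => by
    show ψ1 c - ψ2 c = 0
    rw [hb c hc hbox, sub_self]) (fun c hc hnb => by
    simp only [mul_sub, sum_sub_distrib]
    rw [h1 c hc hnb, h2 c hc hnb, sub_zero]) c hc
  exact sub_eq_zero.1 this

/-- The second hypothesis at the point `y`. -/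
def H2 (S : Setup v deg w u ci) (S' : Setup v deg w (-u) ci') (y : Fin n → ℂ) : Prop :=
  ∀ k l : ℤ, 0 ≤ k → 0 ≤ l → k + l = r → ∀ φ η : (Fin r → ℤ) → ℂ,
    (∀ c ∈ S.fs k, (∃ j, mlt v u ci c j ≠ 0) →
      ∑ i, (cf v u ci c i : ℂ) * y i * φ (prev v u ci c + v i) = 0) →
    (∀ d ∈ S'.fs l, (∀ j, mlt v (-u) ci' d j = 0) → η d = 0) →
    (∀ d ∈ S'.fs l, ∑ c ∈ S.fs k, MvPolynomial.eval y (Pp v u c d) * φ c =
      ∑ d' ∈ S'.fs l, η d' * MvPolynomial.eval y (S'.rowP d' d)) →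
    ∀ c ∈ S.fs k, φ c = 0

/-- **Nondegeneracy at a point.** -/
theorem nondeg_point (S : Setup v deg w u ci) (S' : Setup v deg w (-u) ci') {y : Fin n → ℂ}
    (hy : H1 S y) (hy' : H1 S' y) (h2 : H2 S S' y) {β β' : Fin r → ℂ} {φ : (Fin r → ℤ) → ℂ}
    (hφ : Rel v y β (Xs v u) φ) {c1 : Fin r → ℤ} (hc1 : c1 ∈ Xs v u) (hne : φ c1 ≠ 0) :
    ∃ (k l : ℤ) (ψ : (Fin r → ℤ) → ℂ), 0 ≤ k ∧ 0 ≤ l ∧ k + l = r ∧ Rel v y β' (Xs v (-u)) ψ ∧
      (∀ c ∈ Xs v u, deg c < k → φ c = 0) ∧ (∀ d ∈ Xs v (-u), deg d < l → ψ d = 0) ∧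
      ∑ d ∈ S'.fs l, (∑ c ∈ S.fs k, MvPolynomial.eval y (Pp v u c d) * φ c) * ψ d ≠ 0 := by
  classical
  -- the lowest degree
  obtain ⟨k, ⟨c2, hc2, hk2, hne2⟩, hmin⟩ : ∃ k : ℕ, (∃ c ∈ Xs v u, deg c = k ∧ φ c ≠ 0) ∧
      ∀ k' < k, ¬ ∃ c ∈ Xs v u, deg c = k' ∧ φ c ≠ 0 := by
    have hex : ∃ k : ℕ, ∃ c ∈ Xs v u, deg c = k ∧ φ c ≠ 0 :=
      ⟨(deg c1).toNat, c1, hc1, (Int.toNat_of_nonneg (S.deg_nonneg hc1)).symm, hne⟩
    exact ⟨Nat.find hex, Nat.find_spec hex, fun k' hk' => Nat.find_min hex hk'⟩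
  have hlow : ∀ c ∈ Xs v u, deg c < k → φ c = 0 := by
    intro c hc hlt
    by_contra hcon
    have h0 := S.deg_nonneg hc
    exact hmin (deg c).toNat (by omega) ⟨c, hc, (Int.toNat_of_nonneg h0).symm, hcon⟩
  have hZ : ∀ c ∈ S.fs (k - 1), ∀ κ, ∑ i, ((v i κ : ℂ) * y i) * φ (c + v i) = 0 := by
    intro c hc κ
    have hc' := S.mem_fs.1 hc
    have h3 := hφ c hc'.1 κ
    rw [hlow c hc'.1 (by omega), mul_zero, zero_add] at h3
    exact h3
  have hrow : ∀ c ∈ S.fs k, (∃ j, mlt v u ci c j ≠ 0) →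
      ∑ i, (cf v u ci c i : ℂ) * y i * φ (prev v u ci c + v i) = 0 := fun c hc hnb =>
    row_of_rel S (S.mem_fs.1 hc).1 hnb y φ (hZ _ (mem_fs_prev' S hc hnb))
  have hkr : (k : ℤ) ≤ r := by
    by_contra hcon
    push Not at hcon
    have h3 := sg_mem S hy (S.mem_fs.2 ⟨hc2, hk2⟩)
    have h4 : Wk S y k ≤ LinearMap.ker (Finsupp.linearCombination ℂ φ) := by
      refine Submodule.span_le.2 ?_
      rintro x (⟨b, hb, hbox, rfl⟩ | ⟨d, hd, κ, rfl⟩)
      · exfalso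
        obtain ⟨j', hj'⟩ := nonbox_of_deg S hcon hb
        exact hj' (hbox j')
      · rw [SetLike.mem_coe, LinearMap.mem_ker, Zo_sg, map_sum, ← hZ d hd κ]
        refine sum_congr rfl fun i _ => ?_
        rw [map_smul, sg, Finsupp.linearCombination_single, one_smul, smul_eq_mul]
    have h5 := h4 h3
    rw [LinearMap.mem_ker, sg, Finsupp.linearCombination_single, one_smul] at h5
    exact hne2 h5
  set l : ℤ := r - k with hl
  have hl0 : 0 ≤ l := by omega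
  let L' := {d // d ∈ S'.fs l}
  let θ : L' → ℂ := fun d => ∑ c ∈ S.fs k, MvPolynomial.eval y (Pp v u c d.1) * φ c
  let Rw : {d : L' // ∃ j, mlt v (-u) ci' d.1 j ≠ 0} → L' → ℂ := fun d' d =>
    MvPolynomial.eval y (S'.rowP d'.1.1 d.1)
  by_cases hθ : θ ∈ Submodule.span ℂ (Set.range Rw)
  · -- the system has only the zero solution
    exfalso
    obtain ⟨e, he⟩ := (Submodule.mem_span_range_iff_exists_fun ℂ).1 hθ
    let η : (Fin r → ℤ) → ℂ := fun d =>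
      if h : ∃ h : d ∈ S'.fs l, ∃ j, mlt v (-u) ci' d j ≠ 0 then e ⟨⟨d, h.1⟩, h.2⟩ else 0
    refine hne2 (h2 k l (by omega) hl0 (by omega) φ η hrow (fun d hd hb => ?_) (fun d hd => ?_)
      c2 (S.mem_fs.2 ⟨hc2, hk2⟩))
    · have : ¬ ∃ h : d ∈ S'.fs l, ∃ j, mlt v (-u) ci' d j ≠ 0 := by
        rintro ⟨-, j, hj⟩
        exact hj (hb j)
      simp only [η, dif_neg this]
    · have h3 := congrFun he ⟨d, hd⟩
      rw [Finset.sum_apply] at h3
      rw [show ∑ c ∈ S.fs k, MvPolynomial.eval y (Pp v u c d) * φ c = θ ⟨d, hd⟩ from rfl, ← h3]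
      rw [← sum_coe_sort (S'.fs l)]
      have h4 : ∀ d' : L', ¬ (∃ j, mlt v (-u) ci' d'.1 j ≠ 0) → η d'.1 = 0 := by
        intro d' hd'
        have : ¬ ∃ h : d'.1 ∈ S'.fs l, ∃ j, mlt v (-u) ci' d'.1 j ≠ 0 := by
          rintro ⟨-, h⟩
          exact hd' h
        simp only [η, dif_neg this]
      have h5 : ∑ d' : L', η d'.1 * MvPolynomial.eval y (S'.rowP d'.1 d) =
          ∑ d' ∈ univ.filter (fun d' : L' => ∃ j, mlt v (-u) ci' d'.1 j ≠ 0),
            η d'.1 * MvPolynomial.eval y (S'.rowP d'.1 d) := by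
        rw [sum_filter]
        refine sum_congr rfl fun d' _ => ?_
        split_ifs with h
        · rfl
        · rw [h4 d' h, zero_mul]
      have h6 : ∑ d' ∈ univ.filter (fun d' : L' => ∃ j, mlt v (-u) ci' d'.1 j ≠ 0),
            η d'.1 * MvPolynomial.eval y (S'.rowP d'.1 d) =
          ∑ a : {d : L' // ∃ j, mlt v (-u) ci' d.1 j ≠ 0},
            η a.1.1 * MvPolynomial.eval y (S'.rowP a.1.1 d) :=
        (Finset.sum_subtype _ (fun d' => by simp) _)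
      rw [show (∑ i : {x // x ∈ S'.fs l}, η i.1 * MvPolynomial.eval y (S'.rowP i.1 d)) =
        ∑ d' : L', η d'.1 * MvPolynomial.eval y (S'.rowP d'.1 d) from rfl, h5, h6]
      refine sum_congr rfl fun a _ => ?_
      rw [Pi.smul_apply, smul_eq_mul]
      have h7 : ∃ h : a.1.1 ∈ S'.fs l, ∃ j, mlt v (-u) ci' a.1.1 j ≠ 0 := ⟨a.1.2, a.2⟩
      have h8 : η a.1.1 = e a := by
        simp only [η, dif_pos h7]
        rfl
      rw [h8]
  · obtain ⟨f, hf, hker⟩ := Submodule.exists_le_ker_of_notMem hθ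
    let ψ0 : (Fin r → ℤ) → ℂ := fun d =>
      if h : d ∈ S'.fs l then f (Pi.single (⟨d, h⟩ : L') 1) else 0
    have hf2 : ∀ z : L' → ℂ, f z = ∑ d : L', z d * ψ0 d.1 := by
      intro z
      have h3 : z = ∑ d : L', z d • (Pi.single d (1 : ℂ) : L' → ℂ) := by
        funext a
        rw [Finset.sum_apply, Fintype.sum_eq_single a (fun d hd => by
          rw [Pi.smul_apply, Pi.single_eq_of_ne (Ne.symm hd), smul_zero]), Pi.smul_apply,
          Pi.single_eq_same, smul_eq_mul, mul_one]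
      conv_lhs => rw [h3]
      rw [map_sum]
      refine sum_congr rfl fun d _ => ?_
      rw [map_smul, smul_eq_mul]
      simp only [ψ0, d.2, dif_pos]
      rfl
    obtain ⟨ψ, h3, h4, h5⟩ := lift S' hy' β' l ψ0
    have hZ' : ∀ d ∈ S'.fs (l - 1), ∀ κ, ∑ i, ((v i κ : ℂ) * y i) * ψ (d + v i) = 0 := by
      intro d hd κ
      have hd' := S'.mem_fs.1 hd
      have h6 := h3 d hd'.1 κ
      rw [h4 d hd'.1 (by omega), mul_zero, zero_add] at h6
      exact h6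
    have h6 : ∀ d ∈ S'.fs l, ψ d = ψ0 d := by
      refine uniq_deg S' hy' hl0 (by omega) h5 (fun d hd hnb => ?_) (fun d hd hnb => ?_)
      · exact row_of_rel S' (S'.mem_fs.1 hd).1 hnb y ψ (hZ' _ (mem_fs_prev' S' hd hnb))
      · have h7 : f (Rw ⟨⟨d, hd⟩, hnb⟩) = 0 := hker (Submodule.subset_span ⟨_, rfl⟩)
        rw [hf2] at h7
        rw [← S'.row_sum hd hnb y ψ0, ← sum_coe_sort (S'.fs l), ← h7]
    refine ⟨k, l, ψ, by omega, hl0, by omega, h3, hlow, h4, ?_⟩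
    rw [sum_congr rfl fun d hd => by rw [h6 d hd], ← sum_coe_sort (S'.fs l)]
    rw [hf2] at hf
    exact hf

end Pool.Agent.J4.H13.GKZ
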