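import Mathlib
import Pool.Agent.J4.H13.GKZ.Lift

set_option autoImplicit false

/-!
# Growth of the solutions at a point
-/

namespace Pool.Agent.J4.H13.GKZ

open Filter Topology Finset

variable {r n : ℕ}

variable {v : Fin n → Fin r → ℤ} {deg : (Fin r → ℤ) →+ ℤ} {w : Fin n → ℝ} {u : Fin r → ℝ}
  {ci ci' : (Fin r → ℤ) → (Fin r ↪o Fin n)}

theorem coord_bound (S : Setup v deg w u ci) : ∃ B : ℝ, 0 ≤ B ∧ ∀ c ∈ Xs v u, ∀ κ,
    |(c κ : ℝ)| ≤ deg c * B := by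
  refine ⟨∑ i, ∑ κ, |(v i κ : ℝ)|, sum_nonneg fun i _ => sum_nonneg fun κ _ => abs_nonneg _,
    fun c hc κ => ?_⟩
  have hvB : ∀ i κ, |(v i κ : ℝ)| ≤ ∑ i, ∑ κ, |(v i κ : ℝ)| := fun i κ =>
    (single_le_sum (f := fun κ => |(v i κ : ℝ)|) (fun κ _ => abs_nonneg _) (mem_univ κ)).trans
      (single_le_sum (f := fun i => ∑ κ, |(v i κ : ℝ)|)
        (fun i _ => sum_nonneg fun κ _ => abs_nonneg _) (mem_univ i))
  have h3 : (c κ : ℝ) = ∑ j, co v (ci c) (toR c) j * (v (ci c j) κ : ℝ) := by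
    have := congrFun (sum_co (S.nd hc) (toR c)) κ
    rw [Finset.sum_apply] at this
    rw [show (c κ : ℝ) = toR c κ from rfl, ← this]
    rfl
  rw [h3]
  calc |∑ j, co v (ci c) (toR c) j * (v (ci c j) κ : ℝ)|
      ≤ ∑ j, |co v (ci c) (toR c) j * (v (ci c j) κ : ℝ)| := abs_sum_le_sum_abs _ _
    _ ≤ ∑ j, co v (ci c) (toR c) j * (∑ i, ∑ κ, |(v i κ : ℝ)|) := by
        refine sum_le_sum fun j _ => ?_
        rw [abs_mul, abs_of_nonneg (S.ho c hc j).nonneg]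
        exact mul_le_mul_of_nonneg_left (hvB (ci c j) κ) (S.ho c hc j).nonneg
    _ = deg c * (∑ i, ∑ κ, |(v i κ : ℝ)|) := by rw [← sum_mul, S.sum_co_eq hc]

/-- Points of large degree are shifts of points of degree `r + 1`. -/
theorem exists_shift (S : Setup v deg w u ci) {k : ℤ} (hk : (r : ℤ) + 1 ≤ k) {c : Fin r → ℤ}
    (hc : c ∈ S.fs k) : ∃ c0 ∈ S.fs (r + 1), ∃ e : Fin r → ℤ, c = c0 + e ∧ deg e = k - (r + 1) ∧
      ∀ d ∈ Xs v u, d + e ∈ Xs v u := by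
  induction k, hk using Int.leInduction generalizing c with
  | base => exact ⟨c, hc, 0, by simp, by simp, fun d hd => by simpa using hd⟩
  | succ k hk ih =>
    have hnb := nonbox_of_deg S (by omega) hc
    have hp := mem_fs_prev' S hc hnb
    rw [add_sub_cancel_right] at hp
    obtain ⟨j, h2, -⟩ := S.prev_spec (S.mem_fs.1 hc).1 hnb
    obtain ⟨c0, h3, e, h4, h5, h6⟩ := ih hp
    refine ⟨c0, h3, e + v (ci c j), ?_, ?_, fun d hd => ?_⟩
    · rw [← add_assoc, ← h4, h2]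
    · rw [map_add, S.hdeg, h5]
      ring
    · rw [← add_assoc]
      exact Xs_add (h6 d hd) _

/-- The value at a point of large degree in terms of the values in the previous degree. -/
theorem exists_const (S : Setup v deg w u ci) {y : Fin n → ℂ} (hy : H1 S y) (β : Fin r → ℂ) :
    ∃ K : ℝ, 1 ≤ K ∧ ∀ φ : (Fin r → ℤ) → ℂ, Rel v y β (Xs v u) φ → ∀ k : ℕ, r ≤ k → ∀ M : ℝ,
      (∀ c ∈ S.fs k, ‖φ c‖ ≤ M) → ∀ c ∈ S.fs (k + 1), ‖φ c‖ ≤ K * (k + 1) * M := by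
  classical
  obtain ⟨B, hB, hB2⟩ := coord_bound S
  set b : ℝ := ∑ κ, ‖β κ‖ with hb
  have hb0 : 0 ≤ b := sum_nonneg fun κ _ => norm_nonneg _
  have hbκ : ∀ κ, ‖β κ‖ ≤ b := fun κ => single_le_sum (f := fun κ => ‖β κ‖)
    (fun κ _ => norm_nonneg _) (mem_univ κ)
  let F : {d // d ∈ S.fs r} × Fin r → US r := fun p => Zo v y p.2 (sg p.1.1)
  have h1 : ∀ c : {c // c ∈ S.fs (r + 1)}, ∃ a : {d // d ∈ S.fs r} × Fin r → ℂ,
      ∑ p, a p • F p = sg c.1 := by
    intro c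
    have h2 := sg_mem S hy c.2
    refine (Submodule.mem_span_range_iff_exists_fun ℂ).1 (Submodule.span_mono ?_ h2)
    rintro x (⟨b, hb, hbox, rfl⟩ | ⟨d, hd, κ, rfl⟩)
    · exfalso
      obtain ⟨j', hj'⟩ := nonbox_of_deg S (by omega) hb
      exact hj' (hbox j')
    · rw [add_sub_cancel_right] at hd
      exact ⟨(⟨d, hd⟩, κ), rfl⟩
  choose a ha using h1
  set G : ℝ := ∑ c, ∑ p, ‖a c p‖ with hG
  have hG0 : 0 ≤ G := sum_nonneg fun c _ => sum_nonneg fun p _ => norm_nonneg _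
  have haG : ∀ c, ∑ p, ‖a c p‖ ≤ G := fun c => single_le_sum (f := fun c => ∑ p, ‖a c p‖)
    (fun c _ => sum_nonneg fun p _ => norm_nonneg _) (mem_univ c)
  refine ⟨G * (B + b) + 1, by nlinarith [mul_nonneg hG0 (add_nonneg hB hb0)],
    fun φ hφ k hk M hM c hc => ?_⟩
  obtain ⟨c0, hc0, e, hce, hde, hXe⟩ := exists_shift S (k := (k : ℤ) + 1) (by omega) hc
  -- shift the representation
  have h3 : φ c = ∑ p, a ⟨c0, hc0⟩ p *
      (-((((p.1.1 + e) p.2 : ℤ) : ℂ) - β p.2) * φ (p.1.1 + e)) := by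
    let f : US r →ₗ[ℂ] ℂ := Finsupp.linearCombination ℂ fun d => φ (d + e)
    have hf : ∀ d, f (sg d) = φ (d + e) := fun d => by
      simp only [f, sg]
      rw [Finsupp.linearCombination_single, one_smul]
    have h4 := congrArg f (ha ⟨c0, hc0⟩)
    rw [hf, map_sum, ← hce] at h4
    rw [← h4]
    refine sum_congr rfl fun p _ => ?_
    rw [map_smul, smul_eq_mul]
    congr 1
    show f (Zo v y p.2 (sg p.1.1)) = _
    rw [Zo_sg, map_sum]
    have h5 := hφ (p.1.1 + e) (hXe _ (S.mem_fs.1 p.1.2).1) p.2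
    have h6 : ∑ i, f (((v i p.2 : ℂ) * y i) • sg (p.1.1 + v i)) =
        ∑ i, ((v i p.2 : ℂ) * y i) * φ (p.1.1 + e + v i) := by
      refine sum_congr rfl fun i _ => ?_
      rw [map_smul, hf, smul_eq_mul, add_right_comm]
    rw [h6]
    linear_combination h5
  have hM0 : 0 ≤ M ∨ ∀ d, d ∉ S.fs k := by
    by_cases h : ∃ d, d ∈ S.fs k
    · obtain ⟨d, hd⟩ := h
      exact Or.inl ((norm_nonneg _).trans (hM d hd))
    · push Not at h
      exact Or.inr h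
  have hdk : ∀ p : {d // d ∈ S.fs r} × Fin r, p.1.1 + e ∈ S.fs k := by
    intro p
    have h4 := S.mem_fs.1 p.1.2
    refine S.mem_fs.2 ⟨hXe _ h4.1, ?_⟩
    rw [map_add, h4.2, hde]
    ring
  rcases hM0 with hM0 | hM0
  · rw [h3]
    have hterm : ∀ p : {d // d ∈ S.fs r} × Fin r, ‖a ⟨c0, hc0⟩ p *
        (-((((p.1.1 + e) p.2 : ℤ) : ℂ) - β p.2) * φ (p.1.1 + e))‖ ≤
          ‖a ⟨c0, hc0⟩ p‖ * ((B + b) * (k + 1) * M) := by
      intro p
      rw [norm_mul]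
      refine mul_le_mul_of_nonneg_left ?_ (norm_nonneg _)
      rw [norm_mul, norm_neg]
      refine mul_le_mul ?_ (hM _ (hdk p)) (norm_nonneg _)
        (mul_nonneg (add_nonneg hB hb0) (by positivity))
      have h7 := hB2 _ (S.mem_fs.1 (hdk p)).1 p.2
      rw [(S.mem_fs.1 (hdk p)).2] at h7
      calc ‖(((p.1.1 + e) p.2 : ℤ) : ℂ) - β p.2‖
          ≤ ‖(((p.1.1 + e) p.2 : ℤ) : ℂ)‖ + ‖β p.2‖ := norm_sub_le _ _
        _ ≤ k * B + b := by
            refine add_le_add ?_ (hbκ _)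
            rw [Complex.norm_intCast]
            exact_mod_cast h7
        _ ≤ (B + b) * (k + 1) := by
            have : (0 : ℝ) ≤ k := Nat.cast_nonneg k
            nlinarith
    calc ‖∑ p, a ⟨c0, hc0⟩ p * (-((((p.1.1 + e) p.2 : ℤ) : ℂ) - β p.2) * φ (p.1.1 + e))‖
        ≤ ∑ p, ‖a ⟨c0, hc0⟩ p‖ * ((B + b) * (k + 1) * M) :=
          (norm_sum_le _ _).trans (sum_le_sum fun p _ => hterm p)
      _ = (∑ p, ‖a ⟨c0, hc0⟩ p‖) * ((B + b) * (k + 1) * M) := by rw [sum_mul]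
      _ ≤ G * ((B + b) * (k + 1) * M) := by
          refine mul_le_mul_of_nonneg_right (haG _) ?_
          have := add_nonneg hB hb0
          positivity
      _ ≤ (G * (B + b) + 1) * (k + 1) * M := by
          have : 0 ≤ ((k : ℝ) + 1) * M := by positivity
          nlinarith
  · have h8 : IsEmpty ({d // d ∈ S.fs r} × Fin r) := ⟨fun p => hM0 _ (hdk p)⟩
    rw [h3]
    simp only [univ_eq_empty, sum_empty, norm_zero]
    -- no points in degree `k`: then `c - v` would be one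
    exfalso
    have hc' : c ∈ S.fs ((k : ℤ) + 1) := hc
    have hnb := nonbox_of_deg S (by omega) hc'
    have := mem_fs_prev' S hc' hnb
    rw [add_sub_cancel_right] at this
    exact hM0 _ this

/-- **Growth.** -/
theorem growth (S : Setup v deg w u ci) {y : Fin n → ℂ} (hy : H1 S y) (β : Fin r → ℂ) :
    ∃ K : ℝ, 1 ≤ K ∧ ∀ φ : (Fin r → ℤ) → ℂ, Rel v y β (Xs v u) φ → ∃ A : ℝ, 0 ≤ A ∧
      ∀ k : ℕ, ∀ c ∈ S.fs k, ‖φ c‖ ≤ A * K ^ k * (k.factorial : ℝ) := by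
  obtain ⟨K, hK, hK2⟩ := exists_const S hy β
  refine ⟨K, hK, fun φ hφ => ?_⟩
  set A : ℝ := ∑ k ∈ range (r + 1), ∑ c ∈ S.fs k, ‖φ c‖ with hA
  have hA0 : 0 ≤ A := sum_nonneg fun k _ => sum_nonneg fun c _ => norm_nonneg _
  refine ⟨A, hA0, fun k => ?_⟩
  have hone : ∀ k : ℕ, 1 ≤ K ^ k * (k.factorial : ℝ) := fun k =>
    one_le_mul_of_one_le_of_one_le (one_le_pow₀ hK) (by exact_mod_cast Nat.factorial_pos k)
  have hlow : ∀ k : ℕ, k ≤ r → ∀ c ∈ S.fs k, ‖φ c‖ ≤ A * K ^ k * (k.factorial : ℝ) := by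
    intro k hk c hc
    have h1 : ‖φ c‖ ≤ A := (single_le_sum (f := fun c => ‖φ c‖) (fun c _ => norm_nonneg _) hc).trans
      (single_le_sum (f := fun k : ℕ => ∑ c ∈ S.fs k, ‖φ c‖)
        (fun k _ => sum_nonneg fun c _ => norm_nonneg _) (mem_range.2 (by omega)))
    rw [mul_assoc]
    exact h1.trans (le_mul_of_one_le_right hA0 (hone k))
  rcases le_total k r with hk | hk
  · exact hlow k hk
  · induction k, hk using Nat.le_induction with
    | base => exact hlow r le_rfl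
    | succ k hk ih =>
      intro c hc
      have h1 := hK2 φ hφ k hk _ ih c (by push_cast at hc; exact hc)
      refine h1.trans (le_of_eq ?_)
      rw [Nat.factorial_succ]
      push_cast
      ring

end Pool.Agent.J4.H13.GKZ
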