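import Mathlib
import Pool.Agent.J4.H13.GKZ.Growth

set_option autoImplicit false

/-!
# Solutions at a point and local holomorphic solutions
-/

namespace Pool.Agent.J4.H13.GKZ

open Filter Topology Finset

variable {r n : ℕ}

/-- The homogeneous parts of the Taylor series. -/
noncomputable def Tp (v : Fin n → Fin r → ℤ) (h : Fin n → ℂ) :
    ℕ → ((Fin r → ℤ) → ℂ) → (Fin r → ℤ) → ℂ
  | 0, φ, c => φ c
  | k + 1, φ, c => ∑ i, h i * Tp v h k φ (c + v i)

theorem Tp_succ (v : Fin n → Fin r → ℤ) (h : Fin n → ℂ) (k : ℕ) (φ : (Fin r → ℤ) → ℂ)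
    (c : Fin r → ℤ) : Tp v h (k + 1) φ c = ∑ i, h i * Tp v h k φ (c + v i) := rfl

theorem Tp_zero' (v : Fin n → Fin r → ℤ) (h : Fin n → ℂ) (k : ℕ) (X : Set (Fin r → ℤ))
    (hX : ∀ c ∈ X, ∀ i, c + v i ∈ X) (φ : (Fin r → ℤ) → ℂ) (hφ : ∀ c ∈ X, φ c = 0) :
    ∀ c ∈ X, Tp v h k φ c = 0 := by
  induction k with
  | zero => exact hφ
  | succ k ih =>
    intro c hc
    rw [Tp_succ]
    refine sum_eq_zero fun i _ => ?_
    rw [ih _ (hX c hc i), mul_zero]

/-- The derivative of the homogeneous parts. -/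
theorem Tp_hasFDerivAt (v : Fin n → Fin r → ℤ) (φ : (Fin r → ℤ) → ℂ) (k : ℕ) :
    ∀ (c : Fin r → ℤ) (h : Fin n → ℂ), HasFDerivAt (fun h => Tp v h (k + 1) φ c)
      (∑ i, (((k : ℂ) + 1) * Tp v h k φ (c + v i)) •
        (ContinuousLinearMap.proj i : (Fin n → ℂ) →L[ℂ] ℂ)) h := by
  induction k with
  | zero =>
    intro c h
    simp only [Tp_succ, Tp]
    have h1 : HasFDerivAt (fun h : Fin n → ℂ => ∑ i, h i * φ (c + v i))
        (∑ i, φ (c + v i) • (ContinuousLinearMap.proj i : (Fin n → ℂ) →L[ℂ] ℂ)) h := by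
      refine HasFDerivAt.fun_sum fun i _ => ?_
      exact (ContinuousLinearMap.proj (R := ℂ) (φ := fun _ : Fin n => ℂ) i).hasFDerivAt.mul_const _
    simpa using h1
  | succ k ih =>
    intro c h
    have h1 : HasFDerivAt (fun h : Fin n → ℂ => ∑ i, h i * Tp v h (k + 1) φ (c + v i))
        (∑ i, (h i • (∑ l, (((k : ℂ) + 1) * Tp v h k φ (c + v i + v l)) •
          (ContinuousLinearMap.proj l : (Fin n → ℂ) →L[ℂ] ℂ)) + Tp v h (k + 1) φ (c + v i) •
            (ContinuousLinearMap.proj i : (Fin n → ℂ) →L[ℂ] ℂ))) h := by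
      refine HasFDerivAt.fun_sum fun i _ => ?_
      exact (ContinuousLinearMap.proj (R := ℂ) (φ := fun _ : Fin n => ℂ) i).hasFDerivAt.mul
        (ih (c + v i) h)
    refine h1.congr_fderiv ?_
    ext g
    simp only [ContinuousLinearMap.sum_apply, ContinuousLinearMap.add_apply,
      ContinuousLinearMap.smul_apply, ContinuousLinearMap.proj_apply, smul_eq_mul, mul_sum,
      sum_add_distrib]
    rw [sum_comm]
    rw [← sum_add_distrib]
    refine sum_congr rfl fun i _ => ?_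
    have h2 : ∑ l, h l * (((k : ℂ) + 1) * Tp v h k φ (c + v l + v i) * g i) =
        ((k : ℂ) + 1) * Tp v h (k + 1) φ (c + v i) * g i := by
      rw [Tp_succ, mul_sum, sum_mul]
      refine sum_congr rfl fun l _ => ?_
      rw [add_right_comm c (v l) (v i)]
      ring
    rw [h2]
    push_cast
    ring

/-- The relation for the homogeneous parts. -/
theorem Tp_rel (v : Fin n → Fin r → ℤ) (x : Fin n → ℂ) (β : Fin r → ℂ) (X : Set (Fin r → ℤ))
    (hX : ∀ c ∈ X, ∀ i, c + v i ∈ X) (φ : (Fin r → ℤ) → ℂ) (hφ : Rel v x β X φ) (h : Fin n → ℂ)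
    (κ : Fin r) (k : ℕ) : ∀ c ∈ X, ((c κ : ℂ) - β κ) * Tp v h k φ c +
      ∑ i, ((v i κ : ℂ) * x i) * Tp v h k φ (c + v i) +
      (k : ℂ) * ∑ i, ((v i κ : ℂ) * h i) * Tp v h (k - 1) φ (c + v i) = 0 := by
  induction k with
  | zero =>
    intro c hc
    simpa [Tp] using hφ c hc κ
  | succ k ih =>
    intro c hc
    simp only [Nat.add_sub_cancel]
    have h1 : ∀ l, h l * (((c κ : ℂ) - β κ) * Tp v h k φ (c + v l) +
        ∑ i, ((v i κ : ℂ) * x i) * Tp v h k φ (c + v l + v i)) =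
        -(((v l κ : ℂ) * h l) * Tp v h k φ (c + v l)) -
          h l * ((k : ℂ) * ∑ i, ((v i κ : ℂ) * h i) * Tp v h (k - 1) φ (c + v l + v i)) := by
      intro l
      have h2 := ih (c + v l) (hX c hc l)
      have h3 : (((c + v l) κ : ℤ) : ℂ) = (c κ : ℂ) + (v l κ : ℂ) := by
        rw [Pi.add_apply]; push_cast; rfl
      rw [h3] at h2
      linear_combination h l * h2
    have h4 : ((c κ : ℂ) - β κ) * Tp v h (k + 1) φ c +
        ∑ i, ((v i κ : ℂ) * x i) * Tp v h (k + 1) φ (c + v i) =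
        ∑ l, h l * (((c κ : ℂ) - β κ) * Tp v h k φ (c + v l) +
        ∑ i, ((v i κ : ℂ) * x i) * Tp v h k φ (c + v l + v i)) := by
      simp only [Tp_succ, mul_sum, mul_add, sum_add_distrib]
      congr 1
      · exact sum_congr rfl fun l _ => by ring
      · rw [sum_comm]
        refine sum_congr rfl fun l _ => sum_congr rfl fun i _ => ?_
        rw [add_right_comm c (v i) (v l)]
        ring
    rw [h4, sum_congr rfl fun l _ => h1 l, sum_sub_distrib]
    have h5 : ∑ l, h l * ((k : ℂ) * ∑ i, ((v i κ : ℂ) * h i) *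
        Tp v h (k - 1) φ (c + v l + v i)) =
        (k : ℂ) * ∑ i, ((v i κ : ℂ) * h i) * Tp v h k φ (c + v i) := by
      rcases k with _ | k
      · simp
      · simp only [Nat.add_sub_cancel, Tp_succ, mul_sum]
        rw [sum_comm]
        refine sum_congr rfl fun i _ => sum_congr rfl fun l _ => ?_
        rw [add_right_comm c (v l) (v i)]
        ring
    rw [h5, sum_neg_distrib]
    push_cast
    ring

variable {v : Fin n → Fin r → ℤ} {deg : (Fin r → ℤ) →+ ℤ} {w : Fin n → ℝ} {u : Fin r → ℝ}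
  {ci ci' : (Fin r → ℤ) → (Fin r ↪o Fin n)}

theorem Tp_bound (S : Setup v deg w u ci) {A K : ℝ} {φ : (Fin r → ℤ) → ℂ}
    (hφ : ∀ k : ℕ, ∀ c ∈ S.fs k, ‖φ c‖ ≤ A * K ^ k * (k.factorial : ℝ)) (h : Fin n → ℂ) (k : ℕ) :
    ∀ N : ℕ, ∀ c ∈ S.fs N, ‖Tp v h k φ c‖ ≤
      (∑ i, ‖h i‖) ^ k * (A * K ^ (N + k) * ((N + k).factorial : ℝ)) := by
  induction k with
  | zero =>
    intro N c hc
    simpa [Tp] using hφ N c hc
  | succ k ih =>
    intro N c hc
    rw [Tp_succ]
    have h1 : ∀ i, ‖Tp v h k φ (c + v i)‖ ≤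
        (∑ i, ‖h i‖) ^ k * (A * K ^ (N + (k + 1)) * ((N + (k + 1)).factorial : ℝ)) := by
      intro i
      have h2 := ih (N + 1) (c + v i) (by
        have h3 := S.mem_fs.1 hc
        refine S.mem_fs.2 ⟨Xs_add h3.1 i, ?_⟩
        rw [map_add, S.hdeg, h3.2]
        push_cast
        rfl)
      rwa [show N + 1 + k = N + (k + 1) by ring] at h2
    calc ‖∑ i, h i * Tp v h k φ (c + v i)‖ ≤ ∑ i, ‖h i * Tp v h k φ (c + v i)‖ := norm_sum_le _ _
      _ ≤ ∑ i, ‖h i‖ * ((∑ i, ‖h i‖) ^ k *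
          (A * K ^ (N + (k + 1)) * ((N + (k + 1)).factorial : ℝ))) := by
          refine sum_le_sum fun i _ => ?_
          rw [norm_mul]
          exact mul_le_mul_of_nonneg_left (h1 i) (norm_nonneg _)
      _ = _ := by rw [← sum_mul, pow_succ]; ring

theorem fact_le (N k : ℕ) : ((N + k).factorial : ℝ) ≤ 2 ^ (N + k) * (N.factorial : ℝ) *
    (k.factorial : ℝ) := by
  have h1 : (N + k).factorial = (N + k).choose k * N.factorial * k.factorial :=
    (Nat.add_choose_mul_factorial_mul_factorial N k).symm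
  rw [h1]
  push_cast
  refine mul_le_mul_of_nonneg_right (mul_le_mul_of_nonneg_right ?_ (by positivity)) (by positivity)
  exact_mod_cast Nat.choose_le_two_pow (N + k) k

/-- The terms of the Taylor series are bounded by a geometric series. -/
theorem term_bound (S : Setup v deg w u ci) {A K : ℝ} (hA : 0 ≤ A) (hK : 1 ≤ K)
    {φ : (Fin r → ℤ) → ℂ}
    (hφ : ∀ k : ℕ, ∀ c ∈ S.fs k, ‖φ c‖ ≤ A * K ^ k * (k.factorial : ℝ)) {h : Fin n → ℂ}
    (hh : ∑ i, ‖h i‖ ≤ (4 * K)⁻¹) (k N : ℕ) {c : Fin r → ℤ} (hc : c ∈ S.fs N) :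
    ‖((k.factorial : ℂ)⁻¹ * Tp v h k φ c)‖ ≤
      A * (2 * K) ^ N * (N.factorial : ℝ) * (1 / 2) ^ k := by
  have h0 : 0 ≤ ∑ i, ‖h i‖ := sum_nonneg fun i _ => norm_nonneg _
  have h1 := Tp_bound S hφ h k N c hc
  have h2 := fact_le N k
  have hk : (0 : ℝ) < (k.factorial : ℝ) := by exact_mod_cast Nat.factorial_pos k
  have hK0 : 0 < K := by linarith
  rw [norm_mul, norm_inv, Complex.norm_natCast]
  rw [inv_mul_le_iff₀ hk]
  calc ‖Tp v h k φ c‖ ≤ (∑ i, ‖h i‖) ^ k * (A * K ^ (N + k) * ((N + k).factorial : ℝ)) := h1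
    _ ≤ ((4 * K)⁻¹) ^ k * (A * K ^ (N + k) *
        (2 ^ (N + k) * (N.factorial : ℝ) * (k.factorial : ℝ))) := by
        refine mul_le_mul (pow_le_pow_left₀ h0 hh k) ?_ (by positivity) (by positivity)
        exact mul_le_mul_of_nonneg_left h2 (by positivity)
    _ = (k.factorial : ℝ) * (A * (2 * K) ^ N * (N.factorial : ℝ) * (1 / 2) ^ k) := by
        have h3 : ((4 * K)⁻¹) ^ k * K ^ k * 2 ^ k = (1 / 2 : ℝ) ^ k := by
          rw [← mul_pow, ← mul_pow]
          congr 1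
          field_simp
          norm_num
        rw [← h3, pow_add, pow_add, mul_pow]
        ring

end Pool.Agent.J4.H13.GKZ
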