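import Mathlib
import Pool.Agent.J4.H13.GKZ.Series

set_option autoImplicit false

/-!
# Existence of local holomorphic solutions with given values at the point
-/

namespace Pool.Agent.J4.H13.GKZ

open Filter Topology Finset

variable {r n : ℕ}
variable {v : Fin n → Fin r → ℤ} {deg : (Fin r → ℤ) →+ ℤ} {w : Fin n → ℝ} {u : Fin r → ℝ}
  {ci ci' : (Fin r → ℤ) → (Fin r ↪o Fin n)}

/-- The Taylor series. -/
noncomputable def Ph (v : Fin n → Fin r → ℤ) (x : Fin n → ℂ) (ψ : (Fin r → ℤ) → ℂ)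
    (c : Fin r → ℤ) (y : Fin n → ℂ) : ℂ :=
  ∑' k : ℕ, (k.factorial : ℂ)⁻¹ * Tp v (y - x) k ψ c

theorem Ph_self (v : Fin n → Fin r → ℤ) (x : Fin n → ℂ) (ψ : (Fin r → ℤ) → ℂ)
    (c : Fin r → ℤ) : Ph v x ψ c x = ψ c := by
  unfold Ph
  rw [tsum_eq_single 0]
  · simp [Tp]
  · intro k hk
    obtain ⟨k, rfl⟩ := Nat.exists_eq_succ_of_ne_zero hk
    rw [Nat.succ_eq_add_one, Tp_succ]
    simp

theorem norm_proj_le (i : Fin n) :
    ‖(ContinuousLinearMap.proj i : (Fin n → ℂ) →L[ℂ] ℂ)‖ ≤ 1 := by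
  refine ContinuousLinearMap.opNorm_le_bound _ zero_le_one fun x => ?_
  rw [one_mul]
  exact norm_le_pi_norm x i

theorem mem_fs_toNat (S : Setup v deg w u ci) {c : Fin r → ℤ} (hc : c ∈ Xs v u) :
    c ∈ S.fs ((deg c).toNat : ℤ) :=
  S.mem_fs.2 ⟨hc, (Int.toNat_of_nonneg (S.deg_nonneg hc)).symm⟩

/-- The derivatives of the terms. -/
noncomputable def fd (v : Fin n → Fin r → ℤ) (x : Fin n → ℂ) (ψ : (Fin r → ℤ) → ℂ)
    (c : Fin r → ℤ) : ℕ → (Fin n → ℂ) → ((Fin n → ℂ) →L[ℂ] ℂ)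
  | 0, _ => 0
  | k + 1, y => ∑ i, ((k.factorial : ℂ)⁻¹ * Tp v (y - x) k ψ (c + v i)) •
      (ContinuousLinearMap.proj i : (Fin n → ℂ) →L[ℂ] ℂ)

theorem fd_hasFDerivAt (x : Fin n → ℂ) (ψ : (Fin r → ℤ) → ℂ) (c : Fin r → ℤ) (k : ℕ)
    (y : Fin n → ℂ) : HasFDerivAt (fun y => (k.factorial : ℂ)⁻¹ * Tp v (y - x) k ψ c)
      (fd v x ψ c k y) y := by
  rcases k with _ | k
  · simp only [Tp, fd]
    exact hasFDerivAt_const _ _
  · have h1 := (Tp_hasFDerivAt v ψ k c (y - x)).comp y ((hasFDerivAt_id y).sub_const x)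
    have h2 := h1.const_mul (((k + 1).factorial : ℂ)⁻¹)
    refine h2.congr_fderiv ?_
    simp only [fd]
    ext g
    simp only [ContinuousLinearMap.smul_apply, ContinuousLinearMap.comp_apply,
      ContinuousLinearMap.sum_apply, ContinuousLinearMap.proj_apply, smul_eq_mul, mul_sum,
      ContinuousLinearMap.id_apply, id]
    refine sum_congr rfl fun i _ => ?_
    have h3 : ((k + 1).factorial : ℂ)⁻¹ * ((k : ℂ) + 1) = (k.factorial : ℂ)⁻¹ := by
      rw [Nat.factorial_succ]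
      push_cast
      have h4 : (k : ℂ) + 1 ≠ 0 := by exact_mod_cast Nat.succ_ne_zero k
      have h5 : (k.factorial : ℂ) ≠ 0 := by exact_mod_cast Nat.factorial_ne_zero k
      field_simp
    rw [← h3]
    ring

/-- **Existence of solutions.** -/
theorem exists_solution (S : Setup v deg w u ci) {x : Fin n → ℂ} (hx : H1 S x) (β : Fin r → ℂ)
    {ψ : (Fin r → ℤ) → ℂ} (hψ : Rel v x β (Xs v u) ψ) :
    ∃ Φ, IsSolution v (Xs v u) β x Φ ∧ ∀ c, Φ c x = ψ c := by
  obtain ⟨K, hK, hK2⟩ := growth S hx β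
  obtain ⟨A, hA, hA2⟩ := hK2 ψ hψ
  have hK0 : 0 < K := by linarith
  set ε : ℝ := (4 * K)⁻¹ / (n + 1) with hε
  have hε0 : 0 < ε := by positivity
  have hball : ∀ y ∈ Metric.ball x ε, ∑ i, ‖(y - x) i‖ ≤ (4 * K)⁻¹ := by
    intro y hy
    rw [mem_ball_iff_norm] at hy
    calc ∑ i, ‖(y - x) i‖ ≤ ∑ _i : Fin n, ε :=
          sum_le_sum fun i _ => (norm_le_pi_norm (y - x) i).trans hy.le
      _ = n * ε := by simp
      _ ≤ (n + 1) * ε := by nlinarith
      _ = (4 * K)⁻¹ := by rw [hε]; field_simp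
  -- bounds
  have hbd : ∀ c ∈ Xs v u, ∀ y ∈ Metric.ball x ε, ∀ k : ℕ,
      ‖(k.factorial : ℂ)⁻¹ * Tp v (y - x) k ψ c‖ ≤
        A * (2 * K) ^ (deg c).toNat * ((deg c).toNat.factorial : ℝ) * (1 / 2) ^ k :=
    fun c hc y hy k => term_bound S hA hK hA2 (hball y hy) k _ (mem_fs_toNat S hc)
  have hgeo : ∀ C : ℝ, Summable fun k : ℕ => C * (1 / 2 : ℝ) ^ k := fun C =>
    (summable_geometric_of_lt_one (by norm_num) (by norm_num)).mul_left C
  have hsum : ∀ c ∈ Xs v u, ∀ y ∈ Metric.ball x ε,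
      Summable fun k : ℕ => (k.factorial : ℂ)⁻¹ * Tp v (y - x) k ψ c := fun c hc y hy =>
    Summable.of_norm_bounded (hgeo _) (hbd c hc y hy)
  have hder : ∀ c ∈ Xs v u, ∀ y ∈ Metric.ball x ε,
      HasFDerivAt (Ph v x ψ c) (∑' k, fd v x ψ c k y) y ∧ Summable fun k => fd v x ψ c k y := by
    intro c hc
    set C : ℝ := ∑ i : Fin n, A * (2 * K) ^ (deg (c + v i)).toNat *
      ((deg (c + v i)).toNat.factorial : ℝ) with hC
    let bd : ℕ → ℝ := fun k => Nat.casesOn k 0 fun k => C * (1 / 2) ^ k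
    have hbds : Summable bd := by
      rw [← summable_nat_add_iff 1]
      exact hgeo C
    have hle : ∀ k, ∀ y ∈ Metric.ball x ε, ‖fd v x ψ c k y‖ ≤ bd k := by
      intro k y hy
      rcases k with _ | k
      · simp [fd, bd]
      · simp only [fd, bd]
        refine (norm_sum_le _ _).trans ?_
        rw [hC, sum_mul]
        refine sum_le_sum fun i _ => ?_
        rw [norm_smul]
        calc _ ≤ ‖(k.factorial : ℂ)⁻¹ * Tp v (y - x) k ψ (c + v i)‖ * 1 :=
              mul_le_mul_of_nonneg_left (norm_proj_le i) (norm_nonneg _)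
          _ ≤ _ := by
              rw [mul_one]
              exact hbd _ (Xs_add hc i) y hy k
    intro y hy
    refine ⟨?_, Summable.of_norm_bounded hbds fun k => hle k y hy⟩
    exact hasFDerivAt_tsum_of_isPreconnected hbds Metric.isOpen_ball
      (convex_ball x ε).isPreconnected (fun k y _ => fd_hasFDerivAt x ψ c k y) hle
      (Metric.mem_ball_self hε0) (hsum c hc x (Metric.mem_ball_self hε0)) hy
  have hpd : ∀ c ∈ Xs v u, ∀ y ∈ Metric.ball x ε, ∀ i,
      fderiv ℂ (Ph v x ψ c) y (Pi.single i 1) = Ph v x ψ (c + v i) y := by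
    intro c hc y hy i
    obtain ⟨h1, h2⟩ := hder c hc y hy
    rw [h1.fderiv]
    have h3 : (∑' k, fd v x ψ c k y) (Pi.single i 1) = ∑' k, (fd v x ψ c k y) (Pi.single i 1) :=
      (ContinuousLinearMap.apply ℂ ℂ (Pi.single i (1 : ℂ) : Fin n → ℂ)).map_tsum h2
    have h4 : Summable fun k => (fd v x ψ c k y) (Pi.single i 1) :=
      (ContinuousLinearMap.apply ℂ ℂ (Pi.single i (1 : ℂ) : Fin n → ℂ)).summable h2
    rw [h3, h4.tsum_eq_zero_add]
    simp only [fd, ContinuousLinearMap.zero_apply, zero_add]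
    unfold Ph
    refine tsum_congr fun k => ?_
    rw [ContinuousLinearMap.sum_apply, Fintype.sum_eq_single i]
    · simp
    · intro l hl
      simp [Pi.single_eq_of_ne hl]
  -- the linear relations
  have hrel : ∀ c ∈ Xs v u, ∀ y ∈ Metric.ball x ε, ∀ κ,
      ((c κ : ℂ) - β κ) * Ph v x ψ c y + ∑ i, (v i κ : ℂ) * y i * Ph v x ψ (c + v i) y = 0 := by
    intro c hc y hy κ
    set a : ℕ → ℂ := fun k => (k.factorial : ℂ)⁻¹ * Tp v (y - x) k ψ c with ha
    set b : Fin n → ℕ → ℂ := fun i k => (k.factorial : ℂ)⁻¹ * Tp v (y - x) k ψ (c + v i) with hb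
    have hsa : Summable a := hsum c hc y hy
    have hsb : ∀ i, Summable (b i) := fun i => hsum _ (Xs_add hc i) y hy
    have hPa : Ph v x ψ c y = ∑' k, a k := rfl
    have hPb : ∀ i, Ph v x ψ (c + v i) y = ∑' k, b i k := fun i => rfl
    set s : ℕ → ℂ := fun k => ((c κ : ℂ) - β κ) * a k + ∑ i, ((v i κ : ℂ) * x i) * b i k with hs
    have hss : Summable s := (hsa.mul_left _).add (summable_sum fun i _ => (hsb i).mul_left _)
    have h1 : ∑' k, s k = ((c κ : ℂ) - β κ) * Ph v x ψ c y +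
        ∑ i, ((v i κ : ℂ) * x i) * Ph v x ψ (c + v i) y := by
      rw [(hsa.mul_left _).tsum_add (summable_sum fun i _ => (hsb i).mul_left _), tsum_mul_left,
        ← hPa, Summable.tsum_finsetSum fun i _ => (hsb i).mul_left _]
      congr 1
      refine sum_congr rfl fun i _ => ?_
      rw [tsum_mul_left, ← hPb]
    have h2 : ∀ k, s k = -((k : ℂ) * (k.factorial : ℂ)⁻¹ *
        ∑ i, ((v i κ : ℂ) * (y - x) i) * Tp v (y - x) (k - 1) ψ (c + v i)) := by
      intro k
      have h3 := Tp_rel v x β (Xs v u) (fun c hc i => Xs_add hc i) ψ hψ (y - x) κ k c hc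
      have h4 : s k = (k.factorial : ℂ)⁻¹ * (((c κ : ℂ) - β κ) * Tp v (y - x) k ψ c +
          ∑ i, ((v i κ : ℂ) * x i) * Tp v (y - x) k ψ (c + v i)) := by
        simp only [hs, ha, hb, mul_add, mul_sum]
        congr 1
        · ring
        · exact sum_congr rfl fun i _ => by ring
      rw [h4]
      linear_combination (k.factorial : ℂ)⁻¹ * h3
    have h5 : ∀ k, s (k + 1) = -∑ i, ((v i κ : ℂ) * (y - x) i) * b i k := by
      intro k
      rw [h2]
      have h6 : (((k + 1 : ℕ) : ℂ)) * ((k + 1).factorial : ℂ)⁻¹ = (k.factorial : ℂ)⁻¹ := by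
        rw [Nat.factorial_succ]
        push_cast
        have h4 : (k : ℂ) + 1 ≠ 0 := by exact_mod_cast Nat.succ_ne_zero k
        have h5 : (k.factorial : ℂ) ≠ 0 := by exact_mod_cast Nat.factorial_ne_zero k
        field_simp
      rw [h6, Nat.add_sub_cancel, mul_sum]
      congr 1
      refine sum_congr rfl fun i _ => ?_
      simp only [hb]
      ring
    have h7 : s 0 = 0 := by
      rw [h2]
      simp
    have h8 : ∑' k, s k = -∑ i, ((v i κ : ℂ) * (y - x) i) * Ph v x ψ (c + v i) y := by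
      rw [hss.tsum_eq_zero_add, h7, zero_add]
      simp only [h5]
      rw [tsum_neg, Summable.tsum_finsetSum fun i _ => (hsb i).mul_left _]
      congr 1
      refine sum_congr rfl fun i _ => ?_
      rw [tsum_mul_left, ← hPb]
    rw [h8] at h1
    have h9 : ∑ i, (v i κ : ℂ) * y i * Ph v x ψ (c + v i) y =
        ∑ i, ((v i κ : ℂ) * x i) * Ph v x ψ (c + v i) y +
        ∑ i, ((v i κ : ℂ) * (y - x) i) * Ph v x ψ (c + v i) y := by
      rw [← sum_add_distrib]
      refine sum_congr rfl fun i _ => ?_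
      rw [Pi.sub_apply]
      ring
    rw [h9]
    linear_combination -h1
  refine ⟨Ph v x ψ, ⟨Metric.ball x ε, Metric.isOpen_ball, Metric.mem_ball_self hε0,
    fun c hc => ⟨fun y hy => (hder c hc y hy).1.differentiableAt.differentiableWithinAt,
      fun y hy => ⟨hpd c hc y hy, fun μ => ?_⟩⟩⟩, Ph_self v x ψ⟩
  have h1 : (∑ k, (μ k : ℂ) * ((c k : ℂ) - β k)) * Ph v x ψ c y +
      ∑ i, (∑ k, (μ k : ℂ) * (v i k : ℂ)) * y i * fderiv ℂ (Ph v x ψ c) y (Pi.single i 1) =
      ∑ κ, (μ κ : ℂ) * (((c κ : ℂ) - β κ) * Ph v x ψ c y +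
        ∑ i, (v i κ : ℂ) * y i * Ph v x ψ (c + v i) y) := by
    simp only [mul_add, sum_add_distrib, sum_mul, mul_sum]
    congr 1
    · exact sum_congr rfl fun κ _ => by ring
    · rw [sum_comm]
      refine sum_congr rfl fun κ _ => sum_congr rfl fun i _ => ?_
      rw [hpd c hc y hy i]
      ring
  rw [h1]
  exact sum_eq_zero fun κ _ => by rw [hrel c hc y hy κ, mul_zero]

end Pool.Agent.J4.H13.GKZ
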