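import Mathlib
import Pool.Agent.J4.H13.GKZ.Exist

set_option autoImplicit false

/-!
# A local solution which vanishes at the point is zero
-/

namespace Pool.Agent.J4.H13.GKZ

open Filter Topology Finset

variable {r n : ℕ}

/-- The values of a solution at the point satisfy the relations. -/
theorem rel_of_solution {v : Fin n → Fin r → ℤ} {X : Set (Fin r → ℤ)} {β : Fin r → ℂ}
    {x : Fin n → ℂ} {Φ : (Fin r → ℤ) → (Fin n → ℂ) → ℂ} (h : IsSolution v X β x Φ) :
    Rel v x β X fun c => Φ c x := by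
  classical
  obtain ⟨W, -, hxW, hW⟩ := h
  intro c hc κ
  obtain ⟨-, h1⟩ := hW c hc
  obtain ⟨h2, h3⟩ := h1 x hxW
  have h4 := h3 (Pi.single κ 1)
  simp only [h2] at h4
  have h5 : ∀ f : Fin r → ℂ, ∑ k, (((Pi.single κ 1 : Fin r → ℤ) k : ℤ) : ℂ) * f k = f κ := by
    intro f
    rw [Fintype.sum_eq_single κ (fun k hk => by rw [Pi.single_eq_of_ne hk]; simp)]
    simp
  rw [h5 fun k => (c k : ℂ) - β k] at h4
  rw [← h4]
  congr 1
  refine sum_congr rfl fun i _ => ?_
  rw [h5 fun k => (v i k : ℂ)]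

/-- The derivative of the combinations along a line. -/
theorem Tp_line {v : Fin n → Fin r → ℤ} {X : Set (Fin r → ℤ)} (hX : ∀ c ∈ X, ∀ i, c + v i ∈ X)
    {h : Fin n → ℂ} {φ : ℂ → (Fin r → ℤ) → ℂ} {t : ℂ}
    (hφ : ∀ c ∈ X, HasDerivAt (fun t => φ t c) (∑ i, h i * φ t (c + v i)) t) (k : ℕ) :
    ∀ c ∈ X, HasDerivAt (fun t => Tp v h k (φ t) c) (Tp v h (k + 1) (φ t) c) t := by
  induction k with
  | zero => exact hφ
  | succ k ih =>
    intro c hc
    simp only [Tp_succ]
    refine HasDerivAt.fun_sum fun i _ => ?_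
    exact (ih (c + v i) (hX c hc i)).const_mul (h i)

/-- **Uniqueness.** -/
theorem isZero_of_values {v : Fin n → Fin r → ℤ} {X : Set (Fin r → ℤ)}
    (hX : ∀ c ∈ X, ∀ i, c + v i ∈ X) {β : Fin r → ℂ}
    {x : Fin n → ℂ} {Φ : (Fin r → ℤ) → (Fin n → ℂ) → ℂ} (h : IsSolution v X β x Φ)
    (h0 : ∀ c ∈ X, Φ c x = 0) : IsZero X x Φ := by
  obtain ⟨W, hWo, hxW, hW⟩ := h
  obtain ⟨ε, hε, hball⟩ := Metric.isOpen_iff.1 hWo x hxW
  intro c hc
  filter_upwards [Metric.ball_mem_nhds x (half_pos hε)] with y hy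
  set g : Fin n → ℂ := y - x with hg
  have hgε : ‖g‖ < ε / 2 := by rwa [mem_ball_iff_norm] at hy
  have hmem : ∀ t ∈ Metric.ball (0 : ℂ) 2, x + t • g ∈ W := by
    intro t ht
    apply hball
    rw [mem_ball_iff_norm, add_sub_cancel_left, norm_smul]
    rw [mem_ball_zero_iff] at ht
    have h1 : ‖t‖ * ‖g‖ ≤ 2 * ‖g‖ := mul_le_mul_of_nonneg_right ht.le (norm_nonneg _)
    linarith
  have hder : ∀ t ∈ Metric.ball (0 : ℂ) 2, ∀ c ∈ X,
      HasDerivAt (fun t : ℂ => Φ c (x + t • g)) (∑ i, g i * Φ (c + v i) (x + t • g)) t := by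
    intro t ht c hc
    obtain ⟨h1, h2⟩ := hW c hc
    have h3 : DifferentiableAt ℂ (Φ c) (x + t • g) :=
      (h1 _ (hmem t ht)).differentiableAt (hWo.mem_nhds (hmem t ht))
    have h4 : HasDerivAt (fun t : ℂ => x + t • g) g t := by
      have := ((hasDerivAt_id t).smul_const g).const_add x
      simpa using this
    have h5 := h3.hasFDerivAt.comp_hasDerivAt t h4
    have h6 : (fderiv ℂ (Φ c) (x + t • g)) g = ∑ i, g i * Φ (c + v i) (x + t • g) := by
      have h7 : g = ∑ i, g i • (Pi.single i (1 : ℂ) : Fin n → ℂ) := by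
        funext a
        rw [Finset.sum_apply, Fintype.sum_eq_single a (fun d hd => by
          rw [Pi.smul_apply, Pi.single_eq_of_ne (Ne.symm hd), smul_zero]), Pi.smul_apply,
          Pi.single_eq_same, smul_eq_mul, mul_one]
      have h8 := congrArg (fderiv ℂ (Φ c) (x + t • g)) h7
      rw [h8, map_sum]
      refine sum_congr rfl fun i _ => ?_
      rw [map_smul, (h2 _ (hmem t ht)).1 i, smul_eq_mul]
    rw [h6] at h5
    exact h5
  have hiter : ∀ k : ℕ, ∀ t ∈ Metric.ball (0 : ℂ) 2,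
      iteratedDeriv k (fun t : ℂ => Φ c (x + t • g)) t =
        Tp v g k (fun c => Φ c (x + t • g)) c := by
    intro k
    induction k with
    | zero =>
      intro t _
      rw [iteratedDeriv_zero]
      rfl
    | succ k ih =>
      intro t ht
      rw [iteratedDeriv_succ]
      have h1 : iteratedDeriv k (fun t : ℂ => Φ c (x + t • g)) =ᶠ[𝓝 t]
          fun t => Tp v g k (fun c => Φ c (x + t • g)) c := by
        filter_upwards [Metric.isOpen_ball.mem_nhds ht] with s hs
        exact ih s hs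
      rw [h1.deriv_eq]
      exact (Tp_line hX (φ := fun t c => Φ c (x + t • g)) (fun c hc => hder t ht c hc) k c
        hc).deriv
  have hdiff : DifferentiableOn ℂ (fun t : ℂ => Φ c (x + t • g)) (Metric.ball 0 2) :=
    fun t ht => (hder t ht c hc).differentiableAt.differentiableWithinAt
  have h1mem : (1 : ℂ) ∈ Metric.ball (0 : ℂ) 2 := by
    rw [mem_ball_zero_iff]
    simp
  have h8 := Complex.taylorSeries_eq_on_ball hdiff h1mem
  have h9 : ∀ k : ℕ, iteratedDeriv k (fun t : ℂ => Φ c (x + t • g)) 0 = 0 := by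
    intro k
    rw [hiter k 0 (Metric.mem_ball_self (by norm_num))]
    refine Tp_zero' v g k X hX _ (fun c hc => ?_) c hc
    rw [zero_smul, add_zero]
    exact h0 c hc
  simp only [h9, smul_zero, tsum_zero, one_smul] at h8
  rw [hg, add_sub_cancel] at h8
  exact h8.symm

end Pool.Agent.J4.H13.GKZ
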