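import Mathlib
import Pool.Agent.J4.H13.GKZ.Uniq

set_option autoImplicit false

/-!
# Assembly
-/

namespace Pool.Agent.J4.H13.GKZ

open Filter Topology Finset

variable {r n : ℕ}

theorem continuous_co (v : Fin n → Fin r → ℤ) (I : Fin r ↪o Fin n) (j : Fin r) :
    Continuous fun y : Fin r → ℝ => co v I y j := by
  unfold co
  simp only [Matrix.vecMul, dotProduct]
  fun_prop

theorem interior_move {s : Set (Fin r → ℝ)} {y e : Fin r → ℝ} (hy : y ∈ interior s) :
    ∀ᶠ δ in 𝓝[>] (0 : ℝ), y + δ • e ∈ s := by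
  have h1 : Tendsto (fun δ : ℝ => y + δ • e) (𝓝[>] 0) (𝓝 (y + (0 : ℝ) • e)) :=
    (Continuous.tendsto (by fun_prop) 0).mono_left nhdsWithin_le_nhds
  rw [zero_smul, add_zero] at h1
  filter_upwards [h1.eventually (isOpen_interior.mem_nhds hy)] with δ hδ
  exact interior_subset hδ

/-- The interior of the cone over a simplex. -/
theorem mem_interior_simplex (v : Fin n → Fin r → ℤ) (I : Fin r ↪o Fin n) (y : Fin r → ℝ) :
    y ∈ interior (cone fun j => v (I j)) ↔ Nd v I ∧ ∀ j, 0 < co v I y j := by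
  constructor
  · intro hy
    have hnd : Nd v I := by
      have h1 : (Submodule.span ℝ (Set.range fun j => toR (v (I j)))) = ⊤ := by
        refine Submodule.eq_top_of_nonempty_interior' _ ⟨y, ?_⟩
        refine interior_mono ?_ hy
        rintro z ⟨a, -, rfl⟩
        exact Submodule.sum_mem _ fun j _ => Submodule.smul_mem _ _
          (Submodule.subset_span ⟨j, rfl⟩)
      have h2 : LinearIndependent ℝ fun j => toR (v (I j)) := by
        rw [linearIndependent_iff_card_eq_finrank_span]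
        unfold Set.finrank
        rw [h1]
        simp
      have h3 := (Matrix.linearIndependent_rows_iff_isUnit (A := mat v I)).1 h2
      exact ((Matrix.isUnit_iff_isUnit_det _).1 h3).ne_zero
    refine ⟨hnd, fun j => ?_⟩
    obtain ⟨δ, h1, h2⟩ := ((interior_move (e := -toR (v (I j))) hy).and
      (eventually_mem_nhdsWithin (a := (0 : ℝ)) (s := Set.Ioi 0))).exists
    obtain ⟨a, ha, h3⟩ := h1
    have h4 := congrArg (fun z => co v I z j) h3
    simp only [co_add, co_smul, co_neg, co_self hnd, co_sum hnd] at h4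
    simp only [Pi.add_apply, Pi.smul_apply, Pi.neg_apply, Pi.single_eq_same, smul_eq_mul] at h4
    have h5 := ha j
    have h6 : (0 : ℝ) < δ := h2
    linarith
  · rintro ⟨hnd, hpos⟩
    have h1 : IsOpen {z : Fin r → ℝ | ∀ j, 0 < co v I z j} := by
      rw [Set.setOf_forall]
      exact isOpen_iInter_of_finite fun j => isOpen_lt continuous_const (continuous_co v I j)
    refine interior_maximal ?_ h1 hpos
    intro z hz
    exact ⟨co v I z, fun j => (hz j).le, (sum_co hnd z).symm⟩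

theorem ho_iff_interior (v : Fin n → Fin r → ℤ) (I : Fin r ↪o Fin n) (u : Fin r → ℝ)
    (c : Fin r → ℤ) :
    (∀ᶠ ε in 𝓝[>] (0 : ℝ), toR c + ε • u ∈ interior (cone fun j => v (I j))) ↔
      Nd v I ∧ Ho v I u c := by
  simp only [mem_interior_simplex]
  rw [Ho_iff]
  constructor
  · intro h
    exact ⟨h.exists.choose_spec.1, h.mono fun ε h => h.2⟩
  · rintro ⟨h1, h2⟩
    exact h2.mono fun ε h => ⟨h1, h⟩

open Classical in
theorem xi_eq (v : Fin n → Fin r → ℤ) (deg : (Fin r → ℤ) →+ ℤ) (v0 : Fin r → ℝ)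
    (I : Fin r ↪o Fin n) (c d : Fin r → ℤ) : xi v deg v0 I c d =
      if Nd v I ∧ Ho v I v0 c ∧ Ho v I (-v0) d then (-1) ^ deg c else 0 := by
  unfold xi
  refine if_congr ?_ rfl rfl
  have h1 : ∀ ε : ℝ, toR d - ε • v0 = toR d + ε • (-v0) := fun ε => by
    rw [smul_neg, sub_eq_add_neg]
  simp only [h1]
  rw [eventually_and, ho_iff_interior, ho_iff_interior]
  tauto

variable {v : Fin n → Fin r → ℤ} {deg : (Fin r → ℤ) →+ ℤ} {w : Fin n → ℝ} {v0 u : Fin r → ℝ}
  {ci ci' : (Fin r → ℤ) → (Fin r ↪o Fin n)}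

theorem latC_eq (S : Setup v deg w v0 ci) (hv0 : v0 ∈ interior (cone v)) :
    latC v = Xs v v0 := by
  ext c
  constructor
  · intro hc
    show ∀ᶠ ε in 𝓝[>] (0 : ℝ), toR c + ε • v0 ∈ cone v
    filter_upwards [self_mem_nhdsWithin] with ε hε
    exact cone_add hc (cone_smul (interior_subset hv0) (le_of_lt hε))
  · intro hc
    show toR c ∈ cone v
    refine ⟨sp (ci c) (co v (ci c) (toR c)), sp_nonneg _ fun j => (S.ho c hc j).nonneg, ?_⟩
    rw [sp_sum (ci c) _ (fun i => toR (v i)), sum_co (S.nd hc)]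

theorem latInt_eq (hv0 : v0 ∈ interior (cone v)) : latInt v = Xs v (-v0) := by
  ext c
  constructor
  · intro hc
    exact interior_move hc
  · intro hc
    have hc' : ∀ᶠ ε in 𝓝[>] (0 : ℝ), toR c + ε • (-v0) ∈ cone v := hc
    obtain ⟨ε, h1, h2⟩ := (hc'.and
      (eventually_mem_nhdsWithin (a := (0 : ℝ)) (s := Set.Ioi 0))).exists
    have h3 : (0 : ℝ) < ε := h2
    show toR c ∈ interior (cone v)
    set z := toR c + ε • (-v0) with hz
    let f : (Fin r → ℝ) → (Fin r → ℝ) := fun p => ε⁻¹ • (p - z)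
    have hf : Continuous f := by fun_prop
    refine interior_maximal (s := cone v) (t := f ⁻¹' interior (cone v)) ?_
      (isOpen_interior.preimage hf) ?_
    · intro p hp
      have h4 : p = z + ε • f p := by
        simp only [f]
        rw [smul_smul, mul_inv_cancel₀ h3.ne', one_smul]
        abel
      rw [h4]
      exact cone_add h1 (cone_smul (interior_subset hp) h3.le)
    · show f (toR c) ∈ interior (cone v)
      have h4 : f (toR c) = v0 := by
        simp only [f, hz]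
        rw [show toR c - (toR c + ε • (-v0)) = ε • v0 by rw [smul_neg]; abel, smul_smul,
          inv_mul_cancel₀ h3.ne', one_smul]
      rw [h4]
      exact hv0

/-- The pairing for solutions which vanish in low degrees. -/
theorem pairing_eq (S : Setup v deg w v0 ci) (S' : Setup v deg w (-v0) ci')
    (hv0 : v0 ∈ interior (cone v)) {k l : ℤ} (hkl : k + l = r)
    {Φ Ψ : (Fin r → ℤ) → (Fin n → ℂ) → ℂ} {x : Fin n → ℂ}
    (hΦ : ∀ c ∈ Xs v v0, deg c < k → Φ c x = 0) (hΨ : ∀ d ∈ Xs v (-v0), deg d < l → Ψ d x = 0) :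
    pairing v deg v0 Φ Ψ x = (-1) ^ k *
      ∑ c ∈ S.fs k, ∑ d ∈ S'.fs l, MvPolynomial.eval x (Pp v v0 c d) * Φ c x * Ψ d x := by
  classical
  unfold pairing
  rw [latC_eq S hv0, latInt_eq hv0]
  have hterm : ∀ I : Fin r ↪o Fin n,
      ∑ᶠ c ∈ {c | c ∈ Xs v v0 ∧ (∑ j, v (I j)) - c ∈ Xs v (-v0)},
        xi v deg v0 I c ((∑ j, v (I j)) - c) * (vol v I : ℂ) * (∏ j, x (I j)) *
          Φ c x * Ψ ((∑ j, v (I j)) - c) x =
      (-1) ^ k * ∑ c ∈ S.fs k, ∑ d ∈ S'.fs l,
        (if Nd v I ∧ Ho v I v0 c ∧ Ho v I (-v0) d ∧ c + d = ∑ j, v (I j) then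
          (vol v I : ℂ) * ∏ j, x (I j) else 0) * Φ c x * Ψ d x := by
    intro I
    have hdegI : deg (∑ j, v (I j)) = r := by
      rw [map_sum]
      simp [S.hdeg]
    rw [finsum_mem_eq_sum_of_subset (t := (S.fs k).filter
      fun c => (∑ j, v (I j)) - c ∈ Xs v (-v0))]
    · rw [sum_filter, mul_sum]
      refine sum_congr rfl fun c hc => ?_
      have hc' := S.mem_fs.1 hc
      rw [sum_eq_single ((∑ j, v (I j)) - c)]
      · by_cases h1 : (∑ j, v (I j)) - c ∈ Xs v (-v0)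
        · rw [if_pos h1, xi_eq]
          by_cases h2 : Nd v I ∧ Ho v I v0 c ∧ Ho v I (-v0) ((∑ j, v (I j)) - c)
          · rw [if_pos h2, if_pos ⟨h2.1, h2.2.1, h2.2.2, by abel⟩, hc'.2]
            ring
          · rw [if_neg h2, if_neg (fun h => h2 ⟨h.1, h.2.1, h.2.2.1⟩)]
            ring
        · rw [if_neg h1, if_neg (fun h => h1 (h.2.2.1.mem_Xs h.1))]
          ring
      · intro d _ hd
        rw [if_neg]
        · ring
        · rintro ⟨-, -, -, h⟩
          apply hd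
          rw [← h]
          abel
      · intro hn
        rw [if_neg]
        · ring
        · rintro ⟨h1, h2, h3, h4⟩
          apply hn
          refine S'.mem_fs.2 ⟨h3.mem_Xs h1, ?_⟩
          rw [map_sub, hdegI, hc'.2]
          omega
    · rintro c ⟨⟨hc1, hc2⟩, hc3⟩
      rw [Function.mem_support] at hc3
      rw [mem_coe, mem_filter]
      refine ⟨S.mem_fs.2 ⟨hc1, ?_⟩, hc2⟩
      have h1 : k ≤ deg c := by
        by_contra hcon
        push Not at hcon
        apply hc3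
        rw [hΦ c hc1 hcon]
        ring
      have h2 : l ≤ deg ((∑ j, v (I j)) - c) := by
        by_contra hcon
        push Not at hcon
        apply hc3
        rw [hΨ _ hc2 hcon]
        ring
      rw [map_sub, hdegI] at h2
      omega
    · intro c hc
      rw [mem_coe, mem_filter] at hc
      exact ⟨(S.mem_fs.1 hc.1).1, hc.2⟩
  rw [sum_congr rfl fun I _ => hterm I, ← mul_sum]
  congr 1
  rw [sum_comm]
  refine sum_congr rfl fun c _ => ?_
  rw [sum_comm]
  refine sum_congr rfl fun d _ => ?_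
  unfold Pp
  rw [map_sum, sum_mul, sum_mul]
  refine sum_congr rfl fun I _ => ?_
  by_cases h : Nd v I ∧ Ho v I v0 c ∧ Ho v I (-v0) d ∧ c + d = ∑ j, v (I j)
  · rw [if_pos h, if_pos h, map_mul, MvPolynomial.eval_C, map_prod]
    simp only [MvPolynomial.eval_X]
  · rw [if_neg h, if_neg h, map_zero]

/-- The first hypothesis holds generically. -/
theorem h1_generic (S : Setup v deg w u ci) : ∃ D : MvPolynomial (Fin n) ℂ, D ≠ 0 ∧
    ∀ y, MvPolynomial.eval y D ≠ 0 → H1 S y := by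
  choose D hD hD2 using S.gi1
  refine ⟨∏ k ∈ range (r + 2), D k, prod_ne_zero_iff.2 fun k _ => hD k, fun y hy k h0 hk => ?_⟩
  rw [map_prod] at hy
  have h1 := prod_ne_zero_iff.1 hy k.toNat (mem_range.2 (by omega))
  rw [Int.toNat_of_nonneg h0] at h1
  exact hD2 k y h1

/-- The second hypothesis holds generically. -/
theorem h2_generic (S : Setup v deg w u ci) (S' : Setup v deg w (-u) ci') :
    ∃ D : MvPolynomial (Fin n) ℂ, D ≠ 0 ∧ ∀ y, MvPolynomial.eval y D ≠ 0 → H2 S S' y := by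
  have h : ∀ k : ℤ, ∃ D : MvPolynomial (Fin n) ℂ, D ≠ 0 ∧ ∀ y, MvPolynomial.eval y D ≠ 0 →
      ∀ φ η : (Fin r → ℤ) → ℂ,
      (∀ c ∈ S.fs k, (∃ j, mlt v u ci c j ≠ 0) →
        ∑ i, (cf v u ci c i : ℂ) * y i * φ (prev v u ci c + v i) = 0) →
      (∀ d ∈ S'.fs (r - k), (∀ j, mlt v (-u) ci' d j = 0) → η d = 0) →
      (∀ d ∈ S'.fs (r - k), ∑ c ∈ S.fs k, MvPolynomial.eval y (Pp v u c d) * φ c =
        ∑ d' ∈ S'.fs (r - k), η d' * MvPolynomial.eval y (S'.rowP d' d)) →
      ∀ c ∈ S.fs k, φ c = 0 := fun k => gi2 S S' (by ring)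
  choose D hD hD2 using h
  refine ⟨∏ k ∈ range (r + 1), D k, prod_ne_zero_iff.2 fun k _ => hD k,
    fun y hy k l h0 hl hkl => ?_⟩
  rw [map_prod] at hy
  have h1 := prod_ne_zero_iff.1 hy k.toNat (mem_range.2 (by omega))
  rw [Int.toNat_of_nonneg h0] at h1
  obtain rfl : l = r - k := by omega
  exact hD2 k y h1

/-- **The pairing is nondegenerate for all parameters.** -/
theorem main (v : Fin n → Fin r → ℤ) (deg : (Fin r → ℤ) →+ ℤ)
    (hdeg : ∀ i, deg (v i) = 1) (v0 : Fin r → ℝ) (hv0 : v0 ∈ interior (cone v))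
    (hgp : GeneralPosition v v0) :
    ∃ D : MvPolynomial (Fin n) ℂ, D ≠ 0 ∧ ∀ x : Fin n → ℂ, MvPolynomial.eval x D ≠ 0 →
      ∀ β : Fin r → ℂ,
        (∀ Φ, IsSolution v (latC v) β x Φ → ¬ IsZero (latC v) x Φ →
          ∃ Ψ, IsSolution v (latInt v) (-β) x Ψ ∧ pairing v deg v0 Φ Ψ x ≠ 0) ∧
        (∀ Ψ, IsSolution v (latInt v) (-β) x Ψ → ¬ IsZero (latInt v) x Ψ →
          ∃ Φ, IsSolution v (latC v) β x Φ ∧ pairing v deg v0 Φ Ψ x ≠ 0) := by
  classical
  obtain ⟨w, hw⟩ := exists_gw v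
  obtain ⟨I0, -⟩ := exists_tri hdeg hw hgp (interior_subset hv0)
  haveI : Nonempty (Fin r ↪o Fin n) := ⟨I0⟩
  obtain ⟨ci, S⟩ := exists_setup hdeg hw hgp
  obtain ⟨ci', S'⟩ := exists_setup hdeg hw (gp_neg hgp)
  have hnn : -(-v0) = v0 := neg_neg v0
  have S2 : Setup v deg w (-(-v0)) ci := by rw [hnn]; exact S
  obtain ⟨D1, hD1, hD1'⟩ := h1_generic S
  obtain ⟨D2, hD2, hD2'⟩ := h1_generic S'
  obtain ⟨D3, hD3, hD3'⟩ := h1_generic S2
  obtain ⟨D4, hD4, hD4'⟩ := h2_generic S S'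
  obtain ⟨D5, hD5, hD5'⟩ := h2_generic S' S2
  refine ⟨D1 * D2 * D3 * D4 * D5, mul_ne_zero (mul_ne_zero (mul_ne_zero (mul_ne_zero hD1 hD2)
    hD3) hD4) hD5, fun x hx β => ?_⟩
  simp only [map_mul, ne_eq, mul_eq_zero, not_or] at hx
  obtain ⟨⟨⟨⟨hx1, hx2⟩, hx3⟩, hx4⟩, hx5⟩ := hx
  have hC := latC_eq S hv0
  have hI := latInt_eq hv0
  constructor
  · intro Φ hΦ hne
    rw [hC] at hΦ hne
    have hex : ∃ c ∈ Xs v v0, Φ c x ≠ 0 := by
      by_contra hcon
      push Not at hcon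
      exact hne (isZero_of_values (fun c hc i => Xs_add hc i) hΦ hcon)
    obtain ⟨c1, hc1, hc2⟩ := hex
    obtain ⟨k, l, ψ, hk, hl, hkl, h1, h2, h3, h4⟩ := nondeg_point S S' (hD1' x hx1) (hD2' x hx2)
      (hD4' x hx4) (β' := -β) (rel_of_solution hΦ) hc1 hc2
    obtain ⟨Ψ, h5, h6⟩ := exists_solution S' (hD2' x hx2) (-β) h1
    refine ⟨Ψ, by rw [hI]; exact h5, ?_⟩
    rw [pairing_eq S S' hv0 hkl h2 (fun d hd hlt => by rw [h6]; exact h3 d hd hlt)]
    refine mul_ne_zero (zpow_ne_zero _ (by norm_num)) ?_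
    convert h4 using 1
    rw [sum_comm]
    refine sum_congr rfl fun d _ => ?_
    rw [sum_mul, h6]
  · intro Ψ hΨ hne
    rw [hI] at hΨ hne
    have hex : ∃ c ∈ Xs v (-v0), Ψ c x ≠ 0 := by
      by_contra hcon
      push Not at hcon
      exact hne (isZero_of_values (fun c hc i => Xs_add hc i) hΨ hcon)
    obtain ⟨c1, hc1, hc2⟩ := hex
    obtain ⟨k, l, φ, hk, hl, hkl, h1, h2, h3, h4⟩ := nondeg_point S' S2 (hD2' x hx2) (hD3' x hx3)
      (hD5' x hx5) (β' := β) (rel_of_solution hΨ) hc1 hc2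
    rw [hnn] at h1 h3
    obtain ⟨Φ, h5, h6⟩ := exists_solution S (hD1' x hx1) β h1
    refine ⟨Φ, by rw [hC]; exact h5, ?_⟩
    rw [pairing_eq S S' hv0 (k := l) (l := k) (by omega)
      (fun d hd hlt => by rw [h6]; exact h3 d hd hlt) h2]
    refine mul_ne_zero (zpow_ne_zero _ (by norm_num)) ?_
    have h7 : S2.fs l = S.fs l := by
      ext c
      rw [S2.mem_fs, S.mem_fs, hnn]
    rw [h7] at h4
    convert h4 using 1
    refine sum_congr rfl fun d _ => ?_
    rw [sum_mul]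
    refine sum_congr rfl fun c _ => ?_
    have h8 : Pp v (-v0) c d = Pp v v0 d c := by
      unfold Pp
      rw [hnn]
      refine sum_congr rfl fun I _ => if_congr ?_ rfl rfl
      rw [add_comm c d]
      tauto
    rw [h8, h6]
    ring

end Pool.Agent.J4.H13.GKZ
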